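import Mathlib

set_option autoImplicit false

namespace Pool.Agent.Helper717.Arc

open MeasureTheory Set
open scoped ENNReal NNReal

/-- The Euclidean plane. -/
abbrev E2 := EuclideanSpace ℝ (Fin 2)

/-- Unit vector of direction `θ`. -/
noncomputable def u (θ : ℝ) : E2 := !₂[Real.cos θ, Real.sin θ]

/-- Rotated unit vector. -/
noncomputable def w (θ : ℝ) : E2 := !₂[-Real.sin θ, Real.cos θ]

/-- Rotation by a right angle. -/
noncomputable def J (z : E2) : E2 := !₂[-z 1, z 0]

@[simp] lemma u0 (θ : ℝ) : u θ 0 = Real.cos θ := by simp [u]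
@[simp] lemma u1 (θ : ℝ) : u θ 1 = Real.sin θ := by simp [u]
@[simp] lemma w0 (θ : ℝ) : w θ 0 = -Real.sin θ := by simp [w]
@[simp] lemma w1 (θ : ℝ) : w θ 1 = Real.cos θ := by simp [w]
@[simp] lemma J0 (z : E2) : J z 0 = -z 1 := by simp [J]
@[simp] lemma J1 (z : E2) : J z 1 = z 0 := by simp [J]

lemma ip (x y : E2) : inner ℝ x y = x 0 * y 0 + x 1 * y 1 := by
  rw [PiLp.inner_apply, Fin.sum_univ_two]
  simp [mul_comm]

lemma nsq (x : E2) : ‖x‖ ^ 2 = x 0 ^ 2 + x 1 ^ 2 := by
  rw [← real_inner_self_eq_norm_sq, ip]; ring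

lemma norm_u (θ : ℝ) : ‖u θ‖ = 1 := by
  have h : ‖u θ‖ ^ 2 = 1 := by
    rw [nsq]; simp
  nlinarith [norm_nonneg (u θ)]

lemma norm_w (θ : ℝ) : ‖w θ‖ = 1 := by
  have h : ‖w θ‖ ^ 2 = 1 := by
    rw [nsq]; simp
  nlinarith [norm_nonneg (w θ)]

lemma norm_sub (a b : ℝ) : ‖u a - u b‖ ^ 2 = 4 * Real.sin ((a - b) / 2) ^ 2 := by
  have h1 : Real.cos (a - b) = 1 - 2 * Real.sin ((a - b) / 2) ^ 2 := by
    have := Real.cos_two_mul ((a - b) / 2)
    rw [show 2 * ((a - b) / 2) = a - b by ring] at this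
    have h2 := Real.sin_sq_add_cos_sq ((a - b) / 2)
    linarith
  rw [nsq]
  simp only [PiLp.sub_apply, u0, u1]
  rw [Real.cos_sub] at h1
  nlinarith [Real.sin_sq_add_cos_sq a, Real.sin_sq_add_cos_sq b]

lemma norm_sub' (a b : ℝ) : ‖u a - u b‖ = 2 * |Real.sin ((a - b) / 2)| := by
  have h := norm_sub a b
  have h2 : ‖u a - u b‖ ^ 2 = (2 * |Real.sin ((a - b) / 2)|) ^ 2 := by
    rw [h, mul_pow, sq_abs]; ring
  exact (pow_left_inj₀ (norm_nonneg _) (by positivity) two_ne_zero).1 h2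

lemma norm_sub_le (a b : ℝ) : ‖u a - u b‖ ≤ |a - b| := by
  rw [norm_sub']
  have := Real.abs_sin_le_abs (x := (a - b) / 2)
  rw [abs_div, abs_of_pos (by norm_num : (0 : ℝ) < 2)] at this
  linarith

lemma le_norm_sub (a b δ : ℝ) (hδ : (a - b) ^ 2 ≤ 24 * δ) :
    |a - b| * (1 - δ) ≤ ‖u a - u b‖ := by
  rw [norm_sub']
  have key : ∀ x : ℝ, 0 ≤ x → x - x ^ 3 / 6 ≤ |Real.sin x| := by
    intro x hx
    rcases hx.eq_or_lt with h | h
    · rw [← h]; simp
    · exact (Real.sin_gt_sub_cube h).le.trans (le_abs_self _)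
  have h1 := key |(a - b) / 2| (abs_nonneg _)
  have h2 : abs (Real.sin (abs ((a - b) / 2))) = abs (Real.sin ((a - b) / 2)) := by
    rcases abs_cases ((a - b) / 2) with h | h
    · rw [h.1]
    · rw [h.1, Real.sin_neg, abs_neg]
  rw [h2, abs_div, abs_of_pos (by norm_num : (0 : ℝ) < 2)] at h1
  have h3 : |a - b| * (a - b) ^ 2 ≤ |a - b| * (24 * δ) := mul_le_mul_of_nonneg_left hδ (abs_nonneg _)
  have h4 : |a - b| ^ 3 = |a - b| * (a - b) ^ 2 := by rw [pow_succ, sq_abs]; ring
  nlinarith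

lemma u_cont : Continuous u := by
  unfold u
  fun_prop

lemma w_cont : Continuous w := by
  unfold w
  fun_prop

lemma u_per (θ : ℝ) : u (θ + 2 * Real.pi) = u θ := by simp [u]

lemma w_per (θ : ℝ) : w (θ + 2 * Real.pi) = w θ := by simp [w]

lemma u_pi (θ : ℝ) : u (θ + Real.pi) = -u θ := by
  ext i; fin_cases i <;> simp [u]

lemma u_inj {a b : ℝ} (ha : a ∈ Ioc 0 (2 * Real.pi)) (hb : b ∈ Ioc 0 (2 * Real.pi))
    (h : u a = u b) : a = b := by
  have h1 := norm_sub' a b
  rw [h, sub_self, norm_zero] at h1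
  have h2 : Real.sin ((a - b) / 2) = 0 := abs_eq_zero.1 (by linarith)
  have h3 := (Real.sin_eq_zero_iff_of_lt_of_lt (x := (a - b) / 2)
    (by linarith [ha.1, hb.2, ha.2, hb.1]) (by linarith [ha.1, hb.2, ha.2, hb.1])).1 h2
  linarith

/-- A set with an antilipschitz map has small measure. -/
lemma piece (f : ℝ → E2) (S : Set ℝ) (L : ℝ≥0)
    (h : ∀ x ∈ S, ∀ y ∈ S, |x - y| ≤ L * ‖f x - f y‖) :
    volume S ≤ L * Measure.hausdorffMeasure 1 (f '' S) := by
  have hinj : InjOn f S := by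
    intro x hx y hy hxy
    have := h x hx y hy
    rw [hxy, sub_self, norm_zero, mul_zero] at this
    exact sub_eq_zero.1 (abs_nonpos_iff.1 this)
  set g := Function.invFunOn f S with hg
  have hgf : ∀ x ∈ S, g (f x) = x := fun x hx => hinj.leftInvOn_invFunOn hx
  have himg : g '' (f '' S) = S := by
    ext x
    constructor
    · rintro ⟨_, ⟨y, hy, rfl⟩, rfl⟩
      rw [hgf y hy]; exact hy
    · intro hx
      exact ⟨f x, ⟨x, hx, rfl⟩, hgf x hx⟩
  have hlip : LipschitzOnWith L g (f '' S) := by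
    rw [lipschitzOnWith_iff_dist_le_mul]
    rintro _ ⟨x, hx, rfl⟩ _ ⟨y, hy, rfl⟩
    rw [hgf x hx, hgf y hy, Real.dist_eq, dist_eq_norm]
    exact h x hx y hy
  have h1 := hlip.hausdorffMeasure_image_le (d := 1) zero_le_one
  rw [himg, hausdorffMeasure_real, ENNReal.rpow_one] at h1
  exact h1

/-- The Hausdorff measure of a subset of a unit circle is at least its angular measure. -/
lemma arc_measure (v : E2) (S : Set ℝ) (hS : MeasurableSet S) (hsub : S ⊆ Ioc 0 (2 * Real.pi)) :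
    volume S ≤ Measure.hausdorffMeasure 1 ((fun θ => v + u θ) '' S) := by
  set f : ℝ → E2 := fun θ => v + u θ with hf
  have hfc : Continuous f := by
    have := u_cont
    fun_prop
  have hinj : InjOn f S := by
    intro x hx y hy hxy
    exact u_inj (hsub hx) (hsub hy) (add_left_cancel hxy)
  apply ENNReal.le_of_forall_lt_one_mul_le
  intro a ha
  have hatop : a ≠ ∞ := ne_top_of_lt ha
  -- choose the number of pieces
  set a' := a.toReal with ha'
  have ha'1 : a' < 1 := by
    have := (ENNReal.toReal_lt_toReal hatop ENNReal.one_ne_top).2 ha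
    simpa using this
  have ha'0 : 0 ≤ a' := ENNReal.toReal_nonneg
  set δ := min (1 - a') (1 / 2) with hδ
  have hδ0 : 0 < δ := lt_min (by linarith) (by norm_num)
  have hδ1 : δ ≤ 1 / 2 := min_le_right _ _
  have hδ2 : a' ≤ 1 - δ := by have := min_le_left (1 - a') (1 / 2); linarith
  obtain ⟨N, hN⟩ := exists_nat_gt ((2 * Real.pi) / (24 * δ) + 2 * Real.pi + 1)
  have hpi := Real.pi_pos
  have hNpos : (0 : ℝ) < N := by
    have : 0 < 2 * Real.pi / (24 * δ) := by positivity
    linarith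
  set h := 2 * Real.pi / N with hh
  have hh0 : 0 < h := by positivity
  have hNh : (N : ℝ) * h = 2 * Real.pi := by rw [hh]; field_simp
  have hh1 : h ≤ 1 := by
    rw [hh, div_le_one hNpos]
    have : 0 < 2 * Real.pi / (24 * δ) := by positivity
    linarith
  have hh2 : h ≤ 24 * δ := by
    rw [hh, div_le_iff₀ hNpos]
    have h1 : 2 * Real.pi / (24 * δ) < N := by linarith
    rw [div_lt_iff₀ (by positivity)] at h1
    linarith
  have hh3 : h ^ 2 ≤ 24 * δ := by nlinarith
  set P : ℕ → Set ℝ := fun k => S ∩ Ioc (k * h) ((k + 1) * h) with hP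
  have hPm : ∀ k, MeasurableSet (P k) := fun k => hS.inter measurableSet_Ioc
  have hPS : ∀ k, P k ⊆ S := fun k => inter_subset_left
  have hPd : ∀ i j : ℕ, i ≠ j → Disjoint (P i) (P j) := by
    intro i j hij
    rw [Set.disjoint_left]
    rintro x ⟨_, hxi⟩ ⟨_, hxj⟩
    rcases lt_or_gt_of_ne hij with hlt | hlt
    · have : ((i : ℝ) + 1) ≤ j := by exact_mod_cast hlt
      have := mul_le_mul_of_nonneg_right this hh0.le
      linarith [hxi.2, hxj.1]
    · have : ((j : ℝ) + 1) ≤ i := by exact_mod_cast hlt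
      have := mul_le_mul_of_nonneg_right this hh0.le
      linarith [hxj.2, hxi.1]
  have hPU : S = ⋃ k ∈ Finset.range N, P k := by
    ext x
    simp only [mem_iUnion, Finset.mem_range, exists_prop]
    constructor
    · intro hx
      have hx2 := hsub hx
      -- k = ceil (x/h) - 1
      have hxh : 0 < x / h := div_pos hx2.1 hh0
      have hc1 : 0 < ⌈x / h⌉₊ := Nat.ceil_pos.2 hxh
      refine ⟨⌈x / h⌉₊ - 1, ?_, hx, ?_, ?_⟩
      · have : ⌈x / h⌉₊ ≤ N := by
          rw [Nat.ceil_le, div_le_iff₀ hh0, hNh]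
          exact hx2.2
        omega
      · have h1 := Nat.ceil_lt_add_one hxh.le
        have h2 : ((⌈x / h⌉₊ - 1 : ℕ) : ℝ) = (⌈x / h⌉₊ : ℝ) - 1 := by
          rw [Nat.cast_sub hc1]; simp
        rw [h2]
        have h3 : (⌈x / h⌉₊ : ℝ) - 1 < x / h := by linarith
        rwa [lt_div_iff₀ hh0] at h3
      · have h1 := Nat.le_ceil (x / h)
        have h2 : ((⌈x / h⌉₊ - 1 : ℕ) : ℝ) = (⌈x / h⌉₊ : ℝ) - 1 := by
          rw [Nat.cast_sub hc1]; simp
        rw [h2]
        rw [div_le_iff₀ hh0] at h1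
        linarith
    · rintro ⟨k, _, hx⟩
      exact hx.1
  have hpiece : ∀ k, a * volume (P k) ≤ Measure.hausdorffMeasure 1 (f '' P k) := by
    intro k
    have hb := piece f (P k) (Real.toNNReal (1 - δ)⁻¹) (by
      intro x hx y hy
      have hpos : 0 < 1 - δ := by linarith
      rw [Real.coe_toNNReal _ (inv_pos.2 hpos).le]
      have h1 : (x - y) ^ 2 ≤ 24 * δ := by
        have h2 : |x - y| ≤ h := by
          rw [abs_le]
          constructor
          · linarith [hx.2.1, hx.2.2, hy.2.1, hy.2.2]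
          · linarith [hx.2.1, hx.2.2, hy.2.1, hy.2.2]
        have h3 : (x - y) ^ 2 ≤ h ^ 2 := by
          rw [← sq_abs]
          exact pow_le_pow_left₀ (abs_nonneg _) h2 2
        linarith
      have h2 := le_norm_sub x y δ h1
      have h3 : f x - f y = u x - u y := by simp only [hf]; abel
      rw [h3, inv_mul_eq_div, le_div_iff₀ hpos]
      exact h2)
    have hpos : 0 < 1 - δ := by linarith
    have h2 : a * (Real.toNNReal (1 - δ)⁻¹ : ℝ≥0∞) ≤ 1 := by
      have h3 : a = ENNReal.ofReal a' := (ENNReal.ofReal_toReal hatop).symm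
      rw [h3]
      change ENNReal.ofReal a' * ENNReal.ofReal (1 - δ)⁻¹ ≤ 1
      rw [← ENNReal.ofReal_mul ha'0, ENNReal.ofReal_le_one, ← div_eq_mul_inv, div_le_one hpos]
      exact hδ2
    calc a * volume (P k) ≤ a * ((Real.toNNReal (1 - δ)⁻¹ : ℝ≥0∞) *
          Measure.hausdorffMeasure 1 (f '' P k)) := by gcongr
      _ = (a * (Real.toNNReal (1 - δ)⁻¹ : ℝ≥0∞)) * Measure.hausdorffMeasure 1 (f '' P k) := by
          rw [mul_assoc]
      _ ≤ 1 * Measure.hausdorffMeasure 1 (f '' P k) := by gcongr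
      _ = _ := one_mul _
  have hv : volume S = ∑ k ∈ Finset.range N, volume (P k) := by
    conv_lhs => rw [hPU]
    rw [measure_biUnion_finset]
    · intro i _ j _ hij
      exact hPd i j hij
    · intro k _; exact hPm k
  have himg : f '' S = ⋃ k ∈ Finset.range N, f '' P k := by
    conv_lhs => rw [hPU]
    simp only [image_iUnion]
  have hH : Measure.hausdorffMeasure 1 (f '' S) =
      ∑ k ∈ Finset.range N, Measure.hausdorffMeasure 1 (f '' P k) := by
    rw [himg, measure_biUnion_finset]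
    · intro i _ j _ hij
      exact (hPd i j hij).image hinj (hPS i) (hPS j)
    · intro k _
      exact (hPm k).image_of_continuousOn_injOn hfc.continuousOn (hinj.mono (hPS k))
  rw [hv, hH, Finset.mul_sum]
  exact Finset.sum_le_sum fun k _ => hpiece k

end Pool.Agent.Helper717.Arc
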