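import Pool.Agent.Helper717.Core

set_option autoImplicit false

namespace Pool.Agent.Helper717.BallTable

open Finset Pool.Agent.Helper717.Core

variable {E : Type*} [NormedAddCommGroup E] [InnerProductSpace ℝ E]

lemma convex_id (a b : E) (s : ℝ) : ‖(1 - s) • a + s • b‖ ^ 2
    = (1 - s) * ‖a‖ ^ 2 + s * ‖b‖ ^ 2 - s * (1 - s) * ‖b - a‖ ^ 2 := by
  rw [norm_sub_sq_real, norm_add_sq_real, norm_smul, norm_smul,
    inner_smul_left, inner_smul_right, real_inner_comm b a]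
  simp only [Real.norm_eq_abs, mul_pow, sq_abs]
  simp
  ring

/-- Sliding property of an intersection of unit balls. -/
lemma slide (S : Set E) (p : E) (hp : ∀ c ∈ S, ‖p - c‖ ≤ 1) (u : E) (_hu : ‖u‖ = 1)
    (hs : ∀ x : E, (∀ c ∈ S, ‖x - c‖ ≤ 1) → inner ℝ x u ≤ inner ℝ p u)
    (x : E) (hx : ∀ c ∈ S, ‖x - c‖ ≤ 1) : ‖x - p‖ ^ 2 ≤ 2 * inner ℝ (p - x) u := by
  set D : ℝ := ‖x - p‖ ^ 2 with hD
  have hD0 : 0 ≤ D := sq_nonneg _
  have key : ∀ s : ℝ, 0 < s → s < 1 → (1 - s) * D ≤ 2 * inner ℝ (p - x) u := by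
    intro s hs0 hs1
    have hz : ∀ c ∈ S, ‖(p + s • (x - p) + (s * (1 - s) * D / 2) • u) - c‖ ≤ 1 := by
      intro c hc
      have h1 : ‖(p + s • (x - p) + (s * (1 - s) * D / 2) • u) - c‖
          ≤ ‖(1 - s) • (p - c) + s • (x - c)‖ + s * (1 - s) * D / 2 := by
        have e1 : (p + s • (x - p) + (s * (1 - s) * D / 2) • u) - c
            = ((1 - s) • (p - c) + s • (x - c)) + (s * (1 - s) * D / 2) • u := by
          module
        rw [e1]
        refine (norm_add_le _ _).trans ?_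
        rw [norm_smul, _hu, mul_one, Real.norm_eq_abs, abs_of_nonneg]
        have : 0 ≤ 1 - s := by linarith
        positivity
      have h2 : ‖(1 - s) • (p - c) + s • (x - c)‖ ^ 2
          = (1 - s) * ‖p - c‖ ^ 2 + s * ‖x - c‖ ^ 2 - s * (1 - s) * D := by
        have e2 : x - p = (x - c) - (p - c) := by abel
        rw [hD, e2]
        exact convex_id _ _ _
      set A := ‖(1 - s) • (p - c) + s • (x - c)‖ with hA
      have hA0 : 0 ≤ A := norm_nonneg _
      have h3 : ‖p - c‖ ^ 2 ≤ 1 := pow_le_one₀ (norm_nonneg _) (hp c hc)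
      have h4 : ‖x - c‖ ^ 2 ≤ 1 := pow_le_one₀ (norm_nonneg _) (hx c hc)
      have h5 : A ^ 2 ≤ 1 - s * (1 - s) * D := by
        rw [h2]
        nlinarith
      have h6 : 0 ≤ s * (1 - s) * D := by
        have : 0 ≤ 1 - s := by linarith
        positivity
      have h7 : A ≤ 1 - s * (1 - s) * D / 2 := by
        apply le_of_sq_le_sq _ (by nlinarith [sq_nonneg A])
        nlinarith
      linarith
    have h8 := hs _ hz
    have h9 : inner ℝ (p + s • (x - p) + (s * (1 - s) * D / 2) • u) u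
        = inner ℝ p u - s * inner ℝ (p - x) u + s * (1 - s) * D / 2 := by
      rw [inner_add_left, inner_add_left, inner_smul_left, inner_smul_left,
        real_inner_self_eq_norm_sq, _hu, inner_sub_left, inner_sub_left]
      simp
      ring
    rw [h9] at h8
    have h10 : s * ((1 - s) * D) ≤ s * (2 * inner ℝ (p - x) u) := by linarith
    exact le_of_mul_le_mul_left h10 hs0
  by_contra hcon
  have hcon : 2 * inner ℝ (p - x) u < D := not_le.1 hcon
  have hI : 0 ≤ inner ℝ (p - x) u := by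
    rw [inner_sub_left]; linarith [hs x hx]
  have hDpos : 0 < D := by linarith
  have h1 := key ((D - 2 * inner ℝ (p - x) u) / (2 * D)) (by apply div_pos <;> linarith)
    (by rw [div_lt_one (by linarith)]; linarith)
  have h2 : (1 - (D - 2 * inner ℝ (p - x) u) / (2 * D)) * D = (D + 2 * inner ℝ (p - x) u) / 2 := by
    field_simp
    ring
  rw [h2] at h1
  linarith

/-- A point whose unit ball contains the table is within `δ` of every point that is within `δ`
of all centres. -/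
lemma near (S : Set E) (δ : ℝ) (hδ1 : δ ≤ 1) (y : E)
    (hy : ∀ x : E, (∀ c ∈ S, ‖x - c‖ ≤ 1) → ‖x - y‖ ≤ 1) (z : E) (hδ0 : 0 ≤ δ)
    (hz : ∀ c ∈ S, ‖z - c‖ ≤ δ) : ‖y - z‖ ≤ δ := by
  by_contra hcon
  have hcon : δ < ‖y - z‖ := not_le.1 hcon
  have hpos : 0 < ‖y - z‖ := by linarith
  set v : E := ‖y - z‖⁻¹ • (y - z) with hv
  have hv1 : ‖v‖ = 1 := by
    rw [hv, norm_smul, norm_inv, norm_norm, inv_mul_cancel₀ hpos.ne']
  have hvz : y - z = ‖y - z‖ • v := by
    rw [hv, smul_smul, mul_inv_cancel₀ hpos.ne', one_smul]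
  have h1 : ∀ c ∈ S, ‖(z - (1 - δ) • v) - c‖ ≤ 1 := by
    intro c hc
    have e1 : (z - (1 - δ) • v) - c = (z - c) - (1 - δ) • v := by abel
    rw [e1]
    refine (norm_sub_le _ _).trans ?_
    rw [norm_smul, hv1, mul_one, Real.norm_eq_abs, abs_of_nonneg (by linarith)]
    linarith [hz c hc]
  have h2 := hy _ h1
  have e2 : (z - (1 - δ) • v) - y = -((‖y - z‖ + (1 - δ)) • v) := by
    have : z - y = -(‖y - z‖ • v) := by rw [← hvz]; abel
    calc (z - (1 - δ) • v) - y = (z - y) - (1 - δ) • v := by abel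
      _ = -(‖y - z‖ • v) - (1 - δ) • v := by rw [this]
      _ = -((‖y - z‖ + (1 - δ)) • v) := by rw [add_smul]; abel
  rw [e2, norm_neg, norm_smul, hv1, mul_one, Real.norm_eq_abs, abs_of_nonneg (by linarith)] at h2
  linarith

lemma in_ball (S : Set E) (p : E) (hp : ∀ c ∈ S, ‖p - c‖ ≤ 1) (u : E) (hu : ‖u‖ = 1)
    (hs : ∀ x : E, (∀ c ∈ S, ‖x - c‖ ≤ 1) → inner ℝ x u ≤ inner ℝ p u)
    (x : E) (hx : ∀ c ∈ S, ‖x - c‖ ≤ 1) : ‖x - (p - u)‖ ≤ 1 := by
  have h1 := slide S p hp u hu hs x hx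
  have h2 : ‖x - (p - u)‖ ^ 2 ≤ 1 := by
    have e1 : x - (p - u) = (x - p) + u := by abel
    have e2 : inner ℝ (x - p) u = - inner ℝ (p - x) u := by
      rw [inner_sub_left, inner_sub_left]; ring
    rw [e1, norm_add_sq_real, hu, e2]
    linarith
  nlinarith [norm_nonneg (x - (p - u))]

lemma ball_table [ProperSpace E] (S : Set E) (hne : S.Nonempty) (δ : ℝ) (hδ1 : δ ≤ 1)
    (hS : ∀ c ∈ S, ∀ c' ∈ S, ‖c - c'‖ ≤ δ) :
    Table {x : E | ∀ c ∈ S, ‖x - c‖ ≤ 1} δ := by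
  obtain ⟨c0, hc0⟩ := hne
  have hδ0 : 0 ≤ δ := (norm_nonneg _).trans (hS c0 hc0 c0 hc0)
  refine ⟨?_, ?_, ?_⟩
  · intro v
    have hcl : IsClosed {x : E | ∀ c ∈ S, ‖x - c‖ ≤ 1} := by
      have : {x : E | ∀ c ∈ S, ‖x - c‖ ≤ 1} = ⋂ c ∈ S, {x : E | ‖x - c‖ ≤ 1} := by
        ext x; simp
      rw [this]
      refine isClosed_biInter fun c _ => ?_
      exact isClosed_le (by fun_prop) continuous_const
    have hcpt : IsCompact {x : E | ∀ c ∈ S, ‖x - c‖ ≤ 1} := by
      apply (isCompact_closedBall c0 1).of_isClosed_subset hcl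
      intro x hx
      rw [Metric.mem_closedBall, dist_eq_norm]
      exact hx c0 hc0
    obtain ⟨p, hp, hmax⟩ := hcpt.exists_isMaxOn
      ⟨c0, fun c hc => (hS c0 hc0 c hc).trans hδ1⟩
      (f := fun x : E => inner ℝ x v) (by fun_prop)
    exact ⟨p, hp, fun x hx => hmax hx⟩
  · intro p hp u hu hs x hx
    exact slide S p hp u hu hs x hx
  · intro p hp u hu hs p' hp' u' hu' hs'
    have hy := in_ball S p hp u hu hs
    have hy' := in_ball S p' hp' u' hu' hs'
    have h1 : ∀ c ∈ S, ‖(p' - u') - c‖ ≤ δ := fun c hc =>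
      near S δ hδ1 _ hy' c hδ0 (fun c' hc' => hS c hc c' hc')
    exact near S δ hδ1 _ hy _ hδ0 h1

end Pool.Agent.Helper717.BallTable
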