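import Pool.Agent.Helper717.Arc

set_option autoImplicit false

namespace Pool.Agent.Helper717.Circ

open MeasureTheory Set Pool.Agent.Helper717.Arc
open scoped ENNReal NNReal

/-- A periodic set has the same measure in each window. -/
lemma window (A : Set ℝ) (hA : MeasurableSet A) (hper : ∀ θ, (θ + 2 * Real.pi) ∈ A ↔ θ ∈ A) (s : ℝ) :
    volume (A ∩ Ioc 0 (2 * Real.pi)) = volume (A ∩ Ioc s (s + 2 * Real.pi)) := by
  have hpi : 0 < 2 * Real.pi := by positivity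
  have h1 := isAddFundamentalDomain_Ioc hpi 0 (volume : Measure ℝ)
  have h2 := isAddFundamentalDomain_Ioc hpi s (volume : Measure ℝ)
  rw [zero_add] at h1
  refine IsAddFundamentalDomain.measure_set_eq h1 h2 hA ?_
  rintro ⟨g, hg⟩
  obtain ⟨n, rfl⟩ := AddSubgroup.mem_zmultiples_iff.1 hg
  have hp : Function.Periodic (fun θ => θ ∈ A) (2 * Real.pi) := fun θ => propext (hper θ)
  have hp2 := hp.zsmul n
  ext x
  have := hp2 x
  simp only [mem_preimage]
  change (n • (2 * Real.pi) + x) ∈ A ↔ x ∈ A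
  rw [add_comm]
  exact iff_of_eq this

/-- Polar form. -/
lemma polar (z : E2) : ∃ ψ : ℝ, z = ‖z‖ • u ψ := by
  by_cases hz : z = 0
  · exact ⟨0, by rw [hz]; simp⟩
  have hz0 : 0 < ‖z‖ := norm_pos_iff.2 hz
  set c : ℂ := ⟨z 0, z 1⟩ with hc
  have hcn : ‖c‖ = ‖z‖ := by
    have h1 : ‖c‖ ^ 2 = ‖z‖ ^ 2 := by
      rw [nsq, ← Complex.normSq_eq_norm_sq, Complex.normSq_apply]
      simp only [hc]; ring
    exact (pow_left_inj₀ (norm_nonneg _) (norm_nonneg _) two_ne_zero).1 h1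
  have hc0 : c ≠ 0 := by
    intro h; rw [h, norm_zero] at hcn; linarith
  refine ⟨Complex.arg c, ?_⟩
  ext i
  fin_cases i
  · simp only [Fin.zero_eta, PiLp.smul_apply, u0, smul_eq_mul]
    rw [Complex.cos_arg hc0, hcn]
    field_simp
    simp [hc]
  · simp only [Fin.mk_one, PiLp.smul_apply, u1, smul_eq_mul]
    rw [Complex.sin_arg, hcn]
    field_simp
    simp [hc]

lemma ip_u (z : E2) (ψ : ℝ) (hz : z = ‖z‖ • u ψ) (θ : ℝ) :
    inner ℝ (u θ) z = ‖z‖ * Real.cos (θ - ψ) := by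
  have h0 : z 0 = ‖z‖ * Real.cos ψ := by
    conv_lhs => rw [hz]
    simp
  have h1 : z 1 = ‖z‖ * Real.sin ψ := by
    conv_lhs => rw [hz]
    simp
  rw [ip, u0, u1, Real.cos_sub, h0, h1]; ring

lemma ip_uJ (z : E2) (ψ : ℝ) (hz : z = ‖z‖ • u ψ) (θ : ℝ) :
    inner ℝ (u θ) (J z) = ‖z‖ * Real.sin (θ - ψ) := by
  have h0 : z 0 = ‖z‖ * Real.cos ψ := by
    conv_lhs => rw [hz]
    simp
  have h1 : z 1 = ‖z‖ * Real.sin ψ := by
    conv_lhs => rw [hz]
    simp
  rw [ip, u0, u1, J0, J1, Real.sin_sub, h0, h1]; ring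

lemma meas_closed (z : E2) (κ : ℝ) :
    MeasurableSet {θ : ℝ | 0 ≤ inner ℝ (u θ) (J z) ∧ |inner ℝ (u θ) z| ≤ κ} := by
  have c1 : Continuous fun θ : ℝ => inner ℝ (u θ) (J z) := u_cont.inner continuous_const
  have c2 : Continuous fun θ : ℝ => |inner ℝ (u θ) z| := (u_cont.inner continuous_const).abs
  exact ((isClosed_le continuous_const c1).inter (isClosed_le c2 continuous_const)).measurableSet

lemma open_open (z : E2) (κ : ℝ) :
    IsOpen {θ : ℝ | 0 < inner ℝ (u θ) (J z) ∧ |inner ℝ (u θ) z| < κ} := by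
  have c1 : Continuous fun θ : ℝ => inner ℝ (u θ) (J z) := u_cont.inner continuous_const
  have c2 : Continuous fun θ : ℝ => |inner ℝ (u θ) z| := (u_cont.inner continuous_const).abs
  exact (isOpen_lt continuous_const c1).inter (isOpen_lt c2 continuous_const)

/-- Upper bound for the closed normal arc. -/
lemma N_le (z : E2) (hz : z ≠ 0) (κ : ℝ) :
    volume ({θ : ℝ | 0 ≤ inner ℝ (u θ) (J z) ∧ |inner ℝ (u θ) z| ≤ κ * ‖z‖} ∩
      Ioc 0 (2 * Real.pi)) ≤ ENNReal.ofReal (2 * Real.arcsin κ) := by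
  have hz0 : 0 < ‖z‖ := norm_pos_iff.2 hz
  obtain ⟨ψ, hψ⟩ := polar z
  rw [window _ (meas_closed z _) (by intro θ; simp only [mem_ofPred_eq, u_per]) (ψ - Real.pi / 2)]
  have hsub : ({θ : ℝ | 0 ≤ inner ℝ (u θ) (J z) ∧ |inner ℝ (u θ) z| ≤ κ * ‖z‖} ∩
      Ioc (ψ - Real.pi / 2) (ψ - Real.pi / 2 + 2 * Real.pi)) ⊆
      Icc (ψ + Real.pi / 2 - Real.arcsin κ) (ψ + Real.pi / 2 + Real.arcsin κ) := by
    rintro θ ⟨⟨h1, h2⟩, h3, h4⟩
    rw [ip_uJ z ψ hψ] at h1
    rw [ip_u z ψ hψ, abs_mul, abs_of_pos hz0, mul_comm, mul_le_mul_iff_left₀ hz0] at h2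
    have h1 : 0 ≤ Real.sin (θ - ψ) := by
      by_contra hcon
      have := mul_neg_of_pos_of_neg hz0 (not_le.1 hcon)
      linarith
    set σ := θ - ψ - Real.pi / 2 with hσ
    have e1 : Real.sin (θ - ψ) = Real.cos σ := by
      rw [hσ, Real.cos_sub_pi_div_two]
    have e2 : Real.cos (θ - ψ) = - Real.sin σ := by
      rw [hσ, Real.sin_sub_pi_div_two]; ring
    rw [e1] at h1
    rw [e2, abs_neg] at h2
    have hσ1 : -Real.pi < σ := by rw [hσ]; linarith
    have hσ2 : σ ≤ Real.pi := by rw [hσ]; linarith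
    have hs1 : σ ≤ Real.pi / 2 := by
      by_contra hcon
      have := Real.cos_neg_of_pi_div_two_lt_of_lt (not_le.1 hcon) (by linarith [Real.pi_pos])
      linarith
    have hs2 : -(Real.pi / 2) ≤ σ := by
      by_contra hcon
      have := Real.cos_neg_of_pi_div_two_lt_of_lt (x := -σ) (by linarith [not_le.1 hcon])
        (by linarith [Real.pi_pos])
      rw [Real.cos_neg] at this
      linarith
    have ha := Real.arcsin_sin hs2 hs1
    rw [abs_le] at h2
    have m1 := Real.monotone_arcsin h2.2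
    have m2 := Real.monotone_arcsin h2.1
    rw [ha] at m1
    rw [Real.arcsin_neg, ha] at m2
    constructor
    · rw [hσ] at m2; linarith
    · rw [hσ] at m1; linarith
  refine (measure_mono hsub).trans ?_
  rw [Real.volume_Icc]
  apply le_of_eq
  congr 1
  ring

/-- Lower bound for the open normal arc. -/
lemma N_ge (z : E2) (hz : z ≠ 0) (κ : ℝ) (hκ0 : 0 ≤ κ) (hκ1 : κ ≤ 1) :
    ENNReal.ofReal (2 * Real.arcsin κ) ≤
      volume ({θ : ℝ | 0 < inner ℝ (u θ) (J z) ∧ |inner ℝ (u θ) z| < κ * ‖z‖} ∩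
      Ioc 0 (2 * Real.pi)) := by
  have hz0 : 0 < ‖z‖ := norm_pos_iff.2 hz
  obtain ⟨ψ, hψ⟩ := polar z
  have hα1 := Real.arcsin_le_pi_div_two κ
  have hpi := Real.pi_pos
  rw [window _ (open_open z _).measurableSet (by intro θ; simp only [mem_ofPred_eq, u_per])
    (ψ - Real.pi / 2)]
  have hsub : Ioo (ψ + Real.pi / 2 - Real.arcsin κ) (ψ + Real.pi / 2 + Real.arcsin κ) ⊆
      ({θ : ℝ | 0 < inner ℝ (u θ) (J z) ∧ |inner ℝ (u θ) z| < κ * ‖z‖} ∩
      Ioc (ψ - Real.pi / 2) (ψ - Real.pi / 2 + 2 * Real.pi)) := by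
    rintro θ ⟨h3, h4⟩
    set σ := θ - ψ - Real.pi / 2 with hσ
    have e1 : Real.sin (θ - ψ) = Real.cos σ := by
      rw [hσ, Real.cos_sub_pi_div_two]
    have e2 : Real.cos (θ - ψ) = - Real.sin σ := by
      rw [hσ, Real.sin_sub_pi_div_two]; ring
    have s1 : -Real.arcsin κ < σ := by rw [hσ]; linarith
    have s2 : σ < Real.arcsin κ := by rw [hσ]; linarith
    have hsk := Real.sin_arcsin (by linarith : -1 ≤ κ) hκ1
    have hcos : 0 < Real.cos σ := Real.cos_pos_of_mem_Ioo ⟨by linarith, by linarith⟩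
    have hsin1 : Real.sin σ < κ := by
      rw [← hsk]
      exact Real.strictMonoOn_sin ⟨by linarith, by linarith⟩
        ⟨by linarith [Real.neg_pi_div_two_le_arcsin κ], hα1⟩ s2
    have hsin2 : -κ < Real.sin σ := by
      rw [← hsk, ← Real.sin_neg]
      exact Real.strictMonoOn_sin ⟨by linarith, by linarith [Real.arcsin_nonneg.2 hκ0]⟩
        ⟨by linarith, by linarith⟩ s1
    refine ⟨⟨?_, ?_⟩, ?_, ?_⟩
    · rw [ip_uJ z ψ hψ, e1]; positivity
    · rw [ip_u z ψ hψ, abs_mul, abs_of_pos hz0, mul_comm, mul_lt_mul_iff_left₀ hz0, e2, abs_neg,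
        abs_lt]
      exact ⟨hsin2, hsin1⟩
    · linarith
    · linarith
  refine le_trans ?_ (measure_mono hsub)
  rw [Real.volume_Ioo]
  apply le_of_eq
  congr 1
  ring

end Pool.Agent.Helper717.Circ
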