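import Mathlib

set_option autoImplicit false

namespace Pool.Agent.Helper717.Core

open Finset

variable {E : Type*} [NormedAddCommGroup E] [InnerProductSpace ℝ E]

/-- Variance bound. -/
lemma var_bound {ι : Type*} [Fintype ι] (c y : ι → E) (δ : ℝ)
    (hc : ∀ i j, ‖c i - c j‖ ≤ δ) (hδ : 0 ≤ δ) (hy : ∑ i, y i = 0) :
    2 * (∑ i, inner ℝ (c i) (y i)) ^ 2 ≤ δ ^ 2 * ((∑ i, ‖y i‖) ^ 2 - ∑ i, ‖y i‖ ^ 2) := by
  classical
  set w : ι → ℝ := fun i => ‖y i‖ with hw
  have hw0 : ∀ i, 0 ≤ w i := fun i => norm_nonneg _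
  set W : ℝ := ∑ i, w i with hW
  have hW0 : 0 ≤ W := sum_nonneg fun i _ => hw0 i
  rcases hW0.eq_or_lt with h0 | hpos
  · have hz : ∀ i, w i = 0 := by
      intro i
      have := (sum_eq_zero_iff_of_nonneg (fun i _ => hw0 i)).1 (hW ▸ h0.symm)
      exact this i (mem_univ i)
    have hy0 : ∀ i, y i = 0 := fun i => norm_eq_zero.1 (hz i)
    rw [← h0]
    simp [hy0]
  · set s : E := ∑ i, w i • c i with hs
    set x : E := W⁻¹ • s with hx
    have hG : ∑ i, inner ℝ (c i) (y i) = ∑ i, inner ℝ (c i - x) (y i) := by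
      simp only [inner_sub_left, sum_sub_distrib]
      rw [← inner_sum, hy, inner_zero_right, sub_zero]
    have hG1 : |∑ i, inner ℝ (c i) (y i)| ≤ ∑ i, w i * ‖c i - x‖ := by
      rw [hG]
      refine (abs_sum_le_sum_abs _ _).trans (sum_le_sum fun i _ => ?_)
      rw [mul_comm]
      exact abs_real_inner_le_norm _ _
    have hCS : (∑ i, w i * ‖c i - x‖) ^ 2 ≤ W * ∑ i, w i * ‖c i - x‖ ^ 2 := by
      apply sum_sq_le_sum_mul_sum_of_sq_le_mul
      · intro i _; exact hw0 i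
      · intro i _; exact mul_nonneg (hw0 i) (sq_nonneg _)
      · intro i _; apply le_of_eq; ring
    have hWs : W * ∑ i, w i * ‖c i - x‖ ^ 2 = W * ∑ i, w i * ‖c i‖ ^ 2 - ‖s‖ ^ 2 := by
      have h1 : ∀ i, w i * ‖c i - x‖ ^ 2
          = w i * ‖c i‖ ^ 2 - 2 * inner ℝ (w i • c i) x + w i * ‖x‖ ^ 2 := by
        intro i
        rw [norm_sub_sq_real, inner_smul_left]
        simp
        ring
      simp only [h1, sum_add_distrib, sum_sub_distrib]
      rw [← mul_sum, ← sum_inner, ← sum_mul, ← hs, ← hW]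
      have hxs : s = W • x := by rw [hx, smul_smul, mul_inv_cancel₀ hpos.ne', one_smul]
      have h2 : inner ℝ s x = W * ‖x‖ ^ 2 := by
        rw [hxs, inner_smul_left, real_inner_self_eq_norm_sq]; simp
      have h3 : ‖s‖ ^ 2 = W ^ 2 * ‖x‖ ^ 2 := by
        rw [hxs, norm_smul, Real.norm_eq_abs, abs_of_pos hpos]; ring
      rw [h2, h3]; ring
    have hpair : ∑ i, ∑ j, w i * w j * ‖c i - c j‖ ^ 2
        = 2 * (W * ∑ i, w i * ‖c i‖ ^ 2 - ‖s‖ ^ 2) := by
      have h1 : ∀ i j, w i * w j * ‖c i - c j‖ ^ 2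
          = w j * (w i * ‖c i‖ ^ 2) + w i * (w j * ‖c j‖ ^ 2)
            - 2 * inner ℝ (w i • c i) (w j • c j) := by
        intro i j
        rw [norm_sub_sq_real, inner_smul_left, inner_smul_right]
        simp
        ring
      simp only [h1, sum_add_distrib, sum_sub_distrib]
      simp only [← mul_sum, ← sum_mul, ← inner_sum, ← sum_inner]
      rw [← hs, ← hW, real_inner_self_eq_norm_sq]
      ring
    have hbd : ∑ i, ∑ j, w i * w j * ‖c i - c j‖ ^ 2 ≤ δ ^ 2 * (W ^ 2 - ∑ i, w i ^ 2) := by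
      have h1 : ∀ i j, w i * w j * ‖c i - c j‖ ^ 2
          ≤ δ ^ 2 * (w i * w j) - (if i = j then δ ^ 2 * w i ^ 2 else 0) := by
        intro i j
        by_cases hij : i = j
        · subst hij; simp; nlinarith [sq_nonneg (w i)]
        · simp only [hij, if_false, sub_zero]
          rw [mul_comm]
          apply mul_le_mul_of_nonneg_right _ (mul_nonneg (hw0 i) (hw0 j))
          exact pow_le_pow_left₀ (norm_nonneg _) (hc i j) 2
      refine (sum_le_sum fun i _ => sum_le_sum fun j _ => h1 i j).trans ?_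
      simp only [sum_sub_distrib, sum_ite_eq, mem_univ, if_true]
      simp only [← mul_sum, ← sum_mul]
      rw [← hW]
      apply le_of_eq; ring
    have hsq : (∑ i, inner ℝ (c i) (y i)) ^ 2 ≤ (∑ i, w i * ‖c i - x‖) ^ 2 := by
      rw [← sq_abs (∑ i, inner ℝ (c i) (y i))]
      exact pow_le_pow_left₀ (abs_nonneg _) hG1 2
    have : (∑ i, inner ℝ (c i) (y i)) ^ 2 ≤ W * ∑ i, w i * ‖c i‖ ^ 2 - ‖s‖ ^ 2 := by
      linarith
    linarith

/-- The three abstract properties of the table used below. -/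
structure Table (K : Set E) (Δ : ℝ) : Prop where
  sup : ∀ v : E, ∃ p ∈ K, ∀ x ∈ K, inner ℝ x v ≤ inner ℝ p v
  ball : ∀ p ∈ K, ∀ u : E, ‖u‖ = 1 → (∀ x ∈ K, inner ℝ x u ≤ inner ℝ p u) →
    ∀ x ∈ K, ‖x - p‖ ^ 2 ≤ 2 * inner ℝ (p - x) u
  diam : ∀ p ∈ K, ∀ u : E, ‖u‖ = 1 → (∀ x ∈ K, inner ℝ x u ≤ inner ℝ p u) →
    ∀ p' ∈ K, ∀ u' : E, ‖u'‖ = 1 → (∀ x ∈ K, inner ℝ x u' ≤ inner ℝ p' u') →
    ‖(p - u) - (p' - u')‖ ≤ Δ

/-- Telescoping of an arc. -/
lemma arc (K : Set E) (p e : ℕ → E)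
    (hN : ∀ i, ∀ x ∈ K, inner ℝ x (e i - e (i + 1)) ≤ inner ℝ (p (i + 1)) (e i - e (i + 1)))
    (x : E) (hx : x ∈ K) (a b : ℕ) (hab : a ≤ b) :
    inner ℝ x (e a - e b) ≤ ∑ i ∈ Ico a b, inner ℝ (p (i + 1)) (e i - e (i + 1)) := by
  have h : ∑ i ∈ Ico a b, inner ℝ x (e i - e (i + 1)) = inner ℝ x (e a - e b) := by
    rw [← inner_sum]
    congr 1
    induction b, hab using Nat.le_induction with
    | base => simp
    | succ b hb ih =>
      rw [sum_Ico_succ_top hb, ih]; abel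
  rw [← h]
  exact sum_le_sum fun i _ => hN i x hx

/-- Selection of the four indices. -/
lemma select (n : ℕ) (hn : 0 < n) (ℓ : ℕ → ℝ) (e : ℕ → E) (hℓ : ∀ i, 0 < ℓ i)
    (he : ∀ i, ‖e i‖ = 1) (hsum : ∑ i ∈ range n, ℓ i • e i = 0) :
    ∃ b c d : ℕ, b ≤ c ∧ c ≤ d ∧ d < n ∧
      8 ≤ ‖e 0 - e b‖ ^ 2 + ‖e b - e c‖ ^ 2 + ‖e c - e d‖ ^ 2 + ‖e d - e 0‖ ^ 2 := by
  classical
  set L : ℝ := ∑ i ∈ range n, ℓ i with hL
  have hLpos : 0 < L := sum_pos (fun i _ => hℓ i) ⟨0, mem_range.2 hn⟩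
  have hex : ∃ c, L / 2 ≤ ∑ i ∈ range (c + 1), ℓ i := by
    refine ⟨n - 1, ?_⟩
    have : n - 1 + 1 = n := by omega
    rw [this, ← hL]; linarith
  set c := Nat.find hex with hc
  have hc1 : L / 2 ≤ ∑ i ∈ range (c + 1), ℓ i := Nat.find_spec hex
  have hcn : c < n := by
    have : c ≤ n - 1 := by
      apply Nat.find_min' hex
      have : n - 1 + 1 = n := by omega
      rw [this, ← hL]; linarith
    omega
  have hc2 : ∑ i ∈ range c, ℓ i ≤ L / 2 := by
    rcases Nat.eq_zero_or_pos c with h0 | h0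
    · rw [h0]; simp; positivity
    · have := Nat.find_min hex (m := c - 1) (by omega)
      have h1 : c - 1 + 1 = c := by omega
      rw [h1] at this
      linarith
  set G : ℕ → ℝ := fun j => 2 - inner ℝ (e 0 + e c) (e j) with hG
  obtain ⟨b, hb, hbmax⟩ := exists_max_image (range (c + 1)) G ⟨0, by simp⟩
  obtain ⟨d, hd, hdmax⟩ := exists_max_image (Ico c n) G ⟨c, by simp [hcn]⟩
  rw [mem_range] at hb
  rw [mem_Ico] at hd
  refine ⟨b, c, d, by omega, hd.1, hd.2, ?_⟩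
  have htot : ∑ i ∈ range n, ℓ i * G i = 2 * L := by
    have : ∑ i ∈ range n, ℓ i * G i
        = 2 * L - inner ℝ (e 0 + e c) (∑ i ∈ range n, ℓ i • e i) := by
      rw [inner_sum, hL, mul_sum, ← sum_sub_distrib]
      refine sum_congr rfl fun i _ => ?_
      simp only [hG, inner_smul_right]; ring
    rw [this, hsum, inner_zero_right, sub_zero]
  have hsplit : ∑ i ∈ range n, ℓ i * G i
      = ∑ i ∈ range c, ℓ i * G i + (ℓ c * G c + ∑ i ∈ Ico (c + 1) n, ℓ i * G i) := by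
    rw [range_eq_Ico, range_eq_Ico, ← sum_Ico_consecutive _ (Nat.zero_le c) hcn.le,
      sum_eq_sum_Ico_succ_bot hcn]
  have hLsplit : L = ∑ i ∈ range c, ℓ i + (ℓ c + ∑ i ∈ Ico (c + 1) n, ℓ i) := by
    rw [hL, range_eq_Ico, range_eq_Ico, ← sum_Ico_consecutive _ (Nat.zero_le c) hcn.le,
      sum_eq_sum_Ico_succ_bot hcn]
  have hA : ∑ i ∈ range c, ℓ i * G i ≤ (∑ i ∈ range c, ℓ i) * G b := by
    rw [sum_mul]
    refine sum_le_sum fun i hi => ?_
    apply mul_le_mul_of_nonneg_left _ (hℓ i).le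
    apply hbmax
    rw [mem_range] at hi ⊢; omega
  have hB : ∑ i ∈ Ico (c + 1) n, ℓ i * G i ≤ (∑ i ∈ Ico (c + 1) n, ℓ i) * G d := by
    rw [sum_mul]
    refine sum_le_sum fun i hi => ?_
    apply mul_le_mul_of_nonneg_left _ (hℓ i).le
    apply hdmax
    rw [mem_Ico] at hi ⊢; omega
  have hGcb : G c ≤ G b := hbmax c (by simp)
  have hGcd : G c ≤ G d := hdmax c (by simp [hcn])
  rw [sum_range_succ] at hc1
  have hC : ℓ c * G c ≤ (L / 2 - ∑ i ∈ range c, ℓ i) * G b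
      + (ℓ c - (L / 2 - ∑ i ∈ range c, ℓ i)) * G d := by
    nlinarith
  have hfin : 4 ≤ G b + G d := by
    have h1 : 2 * L ≤ (L / 2) * (G b + G d) := by
      rw [← htot, hsplit]
      have h2 : ∑ i ∈ Ico (c + 1) n, ℓ i = L - ∑ i ∈ range c, ℓ i - ℓ c := by linarith
      rw [h2] at hB
      nlinarith
    nlinarith
  have hexp : ‖e 0 - e b‖ ^ 2 + ‖e b - e c‖ ^ 2 + ‖e c - e d‖ ^ 2 + ‖e d - e 0‖ ^ 2
      = 2 * (G b + G d) := by
    simp only [norm_sub_sq_real, he, hG, inner_add_left]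
    rw [real_inner_comm (e c) (e b), real_inner_comm (e 0) (e d)]
    ring
  rw [hexp]; linarith

/-- Elementary: four numbers in [0,2] with sum 4 and sum of squares at least 8. -/
lemma real_case1 (a1 a2 a3 a4 : ℝ) (n1 : 0 ≤ a1) (n2 : 0 ≤ a2) (n3 : 0 ≤ a3) (n4 : 0 ≤ a4)
    (m1 : a1 ≤ 2) (m2 : a2 ≤ 2) (m3 : a3 ≤ 2) (m4 : a4 ≤ 2)
    (hQ : 8 ≤ a1 ^ 2 + a2 ^ 2 + a3 ^ 2 + a4 ^ 2) (hW : 4 = a1 + a2 + a3 + a4) :
    a1 = 2 ∨ a2 = 2 ∨ a3 = 2 ∨ a4 = 2 := by
  have p1 : 0 ≤ a1 * (2 - a1) := mul_nonneg n1 (by linarith)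
  have p2 : 0 ≤ a2 * (2 - a2) := mul_nonneg n2 (by linarith)
  have p3 : 0 ≤ a3 * (2 - a3) := mul_nonneg n3 (by linarith)
  have p4 : 0 ≤ a4 * (2 - a4) := mul_nonneg n4 (by linarith)
  have q1 : a1 * (2 - a1) = 0 := by nlinarith
  have q2 : a2 * (2 - a2) = 0 := by nlinarith
  have q3 : a3 * (2 - a3) = 0 := by nlinarith
  rcases mul_eq_zero.1 q1 with h1 | h1
  · rcases mul_eq_zero.1 q2 with h2 | h2
    · rcases mul_eq_zero.1 q3 with h3 | h3
      · rw [h1, h2, h3] at hW; linarith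
      · right; right; left; linarith
    · right; left; linarith
  · left; linarith

/-- Elementary: the final estimate. -/
lemma real_case2 (W g Δ : ℝ) (hΔ0 : 0 ≤ Δ) (hΔ1 : Δ ≤ 1) (hW : 4 < W)
    (h : 2 * (g - W) ^ 2 ≤ Δ ^ 2 * (W ^ 2 - 8)) : 4 - 2 * Δ < g := by
  by_contra hcon
  have hcon : g ≤ 4 - 2 * Δ := not_lt.1 hcon
  obtain ⟨t, ht⟩ : ∃ t, W = t + 4 := ⟨W - 4, by ring⟩
  subst ht
  have ht0 : 0 < t := by linarith
  have h1 : (t + 2 * Δ) ^ 2 ≤ (g - (t + 4)) ^ 2 := by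
    have h2 : 0 ≤ t + 2 * Δ := by linarith
    have h3 : t + 2 * Δ ≤ -(g - (t + 4)) := by linarith
    calc (t + 2 * Δ) ^ 2 ≤ (-(g - (t + 4))) ^ 2 := pow_le_pow_left₀ h2 h3 2
      _ = (g - (t + 4)) ^ 2 := by ring
  have h4 : 0 ≤ t * (Δ * (1 - Δ)) := mul_nonneg ht0.le (mul_nonneg hΔ0 (by linarith))
  have h5 : Δ ^ 2 ≤ 1 := by nlinarith
  have h6 : 0 < t ^ 2 * (2 - Δ ^ 2) := mul_pos (by positivity) (by linarith)
  nlinarith

/-- Support data in the direction of any vector (possibly zero). -/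
lemma support (K : Set E) (Δ : ℝ) (hT : Table K Δ) (e0 : E) (he0 : ‖e0‖ = 1) (y : E) :
    ∃ p ∈ K, ∃ u : E, ‖u‖ = 1 ∧ (∀ x ∈ K, inner ℝ x u ≤ inner ℝ p u) ∧ inner ℝ u y = ‖y‖ := by
  by_cases hy : y = 0
  · obtain ⟨p, hp, hs⟩ := hT.sup e0
    exact ⟨p, hp, e0, he0, hs, by simp [hy]⟩
  · obtain ⟨p, hp, hs⟩ := hT.sup y
    have hny : ‖y‖ ≠ 0 := norm_ne_zero_iff.2 hy
    refine ⟨p, hp, ‖y‖⁻¹ • y, ?_, ?_, ?_⟩
    · rw [norm_smul, norm_inv, norm_norm, inv_mul_cancel₀ hny]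
    · intro x hx
      rw [inner_smul_right, inner_smul_right]
      exact mul_le_mul_of_nonneg_left (hs x hx) (inv_nonneg.2 (norm_nonneg _))
    · rw [inner_smul_left, real_inner_self_eq_norm_sq]
      simp
      field_simp

/-- Lower bound for the length of a billiard trajectory with at least three vertices. -/
theorem core (K : Set E) (Δ : ℝ) (hΔ0 : 0 ≤ Δ) (hΔ1 : Δ ≤ 1) (hT : Table K Δ)
    (n : ℕ) (hn : 3 ≤ n) (p : ℕ → E) (hper : ∀ i, p (i + n) = p i) (hK : ∀ i, p i ∈ K)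
    (hne : ∀ i, p i ≠ p (i + 1)) (e : ℕ → E)
    (he : ∀ i, e i = ‖p (i + 1) - p i‖⁻¹ • (p (i + 1) - p i))
    (hv : ∀ i, e i - e (i + 1) ≠ 0)
    (hN : ∀ i, ∀ x ∈ K, inner ℝ x (e i - e (i + 1)) ≤ inner ℝ (p (i + 1)) (e i - e (i + 1))) :
    4 - 2 * Δ < ∑ i ∈ range n, ‖p (i + 1) - p i‖ := by
  classical
  have hn0 : 0 < n := by omega
  set ℓ : ℕ → ℝ := fun i => ‖p (i + 1) - p i‖ with hℓdef
  have hℓ : ∀ i, 0 < ℓ i := fun i => norm_pos_iff.2 (sub_ne_zero.2 (hne i).symm)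
  have hpe : ∀ i, p (i + 1) - p i = ℓ i • e i := by
    intro i
    rw [he i, smul_smul, mul_inv_cancel₀ (hℓ i).ne', one_smul]
  have heu : ∀ i, ‖e i‖ = 1 := by
    intro i
    rw [he i, norm_smul, norm_inv, norm_norm]
    exact inv_mul_cancel₀ (hℓ i).ne'
  have heper : ∀ i, e (i + n) = e i := by
    intro i
    rw [he, he, hper, show i + n + 1 = (i + 1) + n by ring, hper]
  have hsum0 : ∑ i ∈ range n, ℓ i • e i = 0 := by
    simp only [← hpe]
    rw [sum_range_sub, show n = 0 + n by ring, hper, sub_self]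
  have hen : e n = e 0 := by
    have := heper 0
    rwa [zero_add] at this
  -- length formula
  have hL : ∑ i ∈ range n, ℓ i = ∑ i ∈ Ico 0 n, inner ℝ (p (i + 1)) (e i - e (i + 1)) := by
    rw [← range_eq_Ico]
    have h1 : ∑ i ∈ range n, ℓ i = ∑ i ∈ range n, inner ℝ (p (i + 1) - p i) (e i) := by
      refine sum_congr rfl fun i _ => ?_
      rw [hpe i, inner_smul_left, real_inner_self_eq_norm_sq, heu i]; simp
    have h2 : ∑ i ∈ range n, inner ℝ (p i) (e i) = ∑ i ∈ range n, inner ℝ (p (i + 1)) (e (i + 1)) := by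
      have a1 := sum_range_succ (fun i => inner ℝ (p i) (e i)) n
      have a2 := sum_range_succ' (fun i => inner ℝ (p i) (e i)) n
      have a3 : p n = p 0 := by
        have := hper 0
        rwa [zero_add] at this
      rw [a3, hen] at a1
      linarith
    rw [h1]
    simp only [inner_sub_left, inner_sub_right, sum_sub_distrib]
    rw [h2]
  have harc := arc K p e hN
  -- antipodal case
  have hanti : ∀ a b : ℕ, a < b → b < n → e b = - e a → 4 - 2 * Δ < ∑ i ∈ range n, ℓ i := by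
    intro a b hab hbn hba
    obtain ⟨x1, hx1, hs1⟩ := hT.sup (e a)
    obtain ⟨x2, hx2, hs2⟩ := hT.sup (-e a)
    have hd := hT.diam x1 hx1 (e a) (heu a) hs1 x2 hx2 (-e a) (by rw [norm_neg]; exact heu a) hs2
    have hbig : 4 - 2 * Δ ≤ inner ℝ x1 (e a - e b) + inner ℝ x2 (e b - e a) := by
      have h1 : inner ℝ x1 (e a - e b) + inner ℝ x2 (e b - e a)
          = 2 * (2 + inner ℝ ((x1 - e a) - (x2 - -e a)) (e a)) := by
        rw [hba]
        simp only [inner_sub_left, inner_sub_right, inner_neg_right, inner_neg_left]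
        rw [real_inner_self_eq_norm_sq, heu a]
        ring
      have h2 : -Δ ≤ inner ℝ ((x1 - e a) - (x2 - -e a)) (e a) := by
        have h3 := abs_real_inner_le_norm ((x1 - e a) - (x2 - -e a)) (e a)
        rw [heu a, mul_one] at h3
        have := (abs_le.1 (h3.trans hd)).1
        exact this
      rw [h1]; linarith
    have hstrict : ∀ x ∈ K, ∀ i, x ≠ p (i + 1) →
        inner ℝ x (e i - e (i + 1)) < inner ℝ (p (i + 1)) (e i - e (i + 1)) := by
      intro x hx i hxi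
      have hvn : ‖e i - e (i + 1)‖ ≠ 0 := norm_ne_zero_iff.2 (hv i)
      have hpos : 0 < ‖e i - e (i + 1)‖ := norm_pos_iff.2 (hv i)
      have h1 := hT.ball (p (i + 1)) (hK _) (‖e i - e (i + 1)‖⁻¹ • (e i - e (i + 1)))
        (by rw [norm_smul, norm_inv, norm_norm, inv_mul_cancel₀ hvn])
        (by
          intro x hx
          rw [inner_smul_right, inner_smul_right]
          exact mul_le_mul_of_nonneg_left (hN i x hx) (inv_nonneg.2 (norm_nonneg _))) x hx
      have h2 : 0 < ‖x - p (i + 1)‖ ^ 2 := by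
        have : 0 < ‖x - p (i + 1)‖ := norm_pos_iff.2 (sub_ne_zero.2 hxi)
        positivity
      rw [inner_smul_right, inner_sub_left] at h1
      by_contra hcon
      push_neg at hcon
      have h3 : ‖e i - e (i + 1)‖⁻¹ * (inner ℝ (p (i + 1)) (e i - e (i + 1)) - inner ℝ x (e i - e (i + 1))) ≤ 0 :=
        mul_nonpos_of_nonneg_of_nonpos (inv_nonneg.2 (norm_nonneg _)) (by linarith)
      linarith
    -- sum over an index set containing i with a strictly smaller term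
    have hsplit : ∑ i ∈ range n, ℓ i
        = ∑ i ∈ Ico a b, inner ℝ (p (i + 1)) (e i - e (i + 1))
          + (∑ i ∈ Ico 0 a, inner ℝ (p (i + 1)) (e i - e (i + 1))
            + ∑ i ∈ Ico b n, inner ℝ (p (i + 1)) (e i - e (i + 1))) := by
      rw [hL, ← sum_Ico_consecutive _ (Nat.zero_le a) (hab.le.trans hbn.le),
        ← sum_Ico_consecutive _ hab.le hbn.le]
      ring
    have hA1 : inner ℝ x1 (e a - e b) ≤ ∑ i ∈ Ico a b, inner ℝ (p (i + 1)) (e i - e (i + 1)) :=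
      harc x1 hx1 a b hab.le
    have hsumeq : ∀ x : E, ∀ a b : ℕ, a ≤ b →
        ∑ i ∈ Ico a b, inner ℝ x (e i - e (i + 1)) = inner ℝ x (e a - e b) := by
      intro x a b hab
      rw [← inner_sum]
      congr 1
      induction b, hab using Nat.le_induction with
      | base => simp
      | succ b hb ih =>
        rw [sum_Ico_succ_top hb, ih]; abel
    have hB1 : inner ℝ x2 (e b - e a) ≤ ∑ i ∈ Ico 0 a, inner ℝ (p (i + 1)) (e i - e (i + 1))
            + ∑ i ∈ Ico b n, inner ℝ (p (i + 1)) (e i - e (i + 1)) := by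
      have h1 := harc x2 hx2 0 a (Nat.zero_le a)
      have h2 := harc x2 hx2 b n hbn.le
      rw [hen] at h2
      have h3 : inner ℝ x2 (e b - e a) = inner ℝ x2 (e 0 - e a) + inner ℝ x2 (e b - e 0) := by
        rw [← inner_add_right]; congr 1; abel
      linarith
    by_cases hlong : a + 2 ≤ b
    · -- arc from a to b has two consecutive steps a, a+1
      have hA2 : inner ℝ x1 (e a - e b) < ∑ i ∈ Ico a b, inner ℝ (p (i + 1)) (e i - e (i + 1)) := by
        rw [← hsumeq x1 a b hab.le]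
        apply sum_lt_sum
        · intro i _; exact hN i x1 hx1
        · by_cases hx : x1 = p (a + 1)
          · refine ⟨a + 1, by rw [mem_Ico]; omega, hstrict x1 hx1 (a + 1) ?_⟩
            rw [hx]; exact hne (a + 1)
          · exact ⟨a, by rw [mem_Ico]; omega, hstrict x1 hx1 a hx⟩
      linarith
    · have hba' : b = a + 1 := by omega
      -- the complementary arc has n - 1 ≥ 2 steps
      have hB2 : inner ℝ x2 (e b - e a) < ∑ i ∈ Ico 0 a, inner ℝ (p (i + 1)) (e i - e (i + 1))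
            + ∑ i ∈ Ico b n, inner ℝ (p (i + 1)) (e i - e (i + 1)) := by
        have h1 := harc x2 hx2 0 a (Nat.zero_le a)
        have h2 := harc x2 hx2 b n hbn.le
        rw [hen] at h2
        have h3 : inner ℝ x2 (e b - e a) = inner ℝ x2 (e 0 - e a) + inner ℝ x2 (e b - e 0) := by
          rw [← inner_add_right]; congr 1; abel
        by_cases ha0 : a = 0
        · -- then b = 1, Ico 1 n has at least 2 elements
          have h4 : inner ℝ x2 (e b - e n) < ∑ i ∈ Ico b n, inner ℝ (p (i + 1)) (e i - e (i + 1)) := by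
            rw [← hsumeq x2 b n hbn.le]
            apply sum_lt_sum
            · intro i _; exact hN i x2 hx2
            · by_cases hx : x2 = p (b + 1)
              · refine ⟨b + 1, by rw [mem_Ico]; omega, hstrict x2 hx2 (b + 1) ?_⟩
                rw [hx]; exact hne (b + 1)
              · exact ⟨b, by rw [mem_Ico]; omega, hstrict x2 hx2 b hx⟩
          rw [hen] at h4
          linarith
        · by_cases hx : x2 = p (0 + 1)
          · -- use the last index n - 1 whose vertex is p n = p 0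
            have h4 : inner ℝ x2 (e b - e n) < ∑ i ∈ Ico b n, inner ℝ (p (i + 1)) (e i - e (i + 1)) := by
              rw [← hsumeq x2 b n hbn.le]
              apply sum_lt_sum
              · intro i _; exact hN i x2 hx2
              · refine ⟨n - 1, by rw [mem_Ico]; omega, hstrict x2 hx2 (n - 1) ?_⟩
                have h5 : n - 1 + 1 = 0 + n := by omega
                rw [h5, hper, hx]
                exact (hne 0).symm
            rw [hen] at h4
            linarith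
          · have h4 : inner ℝ x2 (e 0 - e a) < ∑ i ∈ Ico 0 a, inner ℝ (p (i + 1)) (e i - e (i + 1)) := by
              rw [← hsumeq x2 0 a (Nat.zero_le a)]
              apply sum_lt_sum
              · intro i _; exact hN i x2 hx2
              · exact ⟨0, by rw [mem_Ico]; omega, hstrict x2 hx2 0 hx⟩
            linarith
      linarith
  -- main case
  obtain ⟨b, c, d, hbc, hcd, hdn, hQ⟩ := select n hn0 ℓ e hℓ heu hsum0
  have he0 : ‖e 0‖ = 1 := heu 0
  obtain ⟨x1, hx1, u1, hu1, hs1, hi1⟩ := support K Δ hT (e 0) he0 (e 0 - e b)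
  obtain ⟨x2, hx2, u2, hu2, hs2, hi2⟩ := support K Δ hT (e 0) he0 (e b - e c)
  obtain ⟨x3, hx3, u3, hu3, hs3, hi3⟩ := support K Δ hT (e 0) he0 (e c - e d)
  obtain ⟨x4, hx4, u4, hu4, hs4, hi4⟩ := support K Δ hT (e 0) he0 (e d - e 0)
  have hLge : inner ℝ x1 (e 0 - e b) + inner ℝ x2 (e b - e c) + inner ℝ x3 (e c - e d)
      + inner ℝ x4 (e d - e 0) ≤ ∑ i ∈ range n, ℓ i := by
    have h1 := harc x1 hx1 0 b (Nat.zero_le b)
    have h2 := harc x2 hx2 b c hbc
    have h3 := harc x3 hx3 c d hcd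
    have h4 := harc x4 hx4 d n hdn.le
    rw [hen] at h4
    rw [hL, ← sum_Ico_consecutive _ (Nat.zero_le b) (hbc.trans (hcd.trans hdn.le)),
        ← sum_Ico_consecutive _ hbc (hcd.trans hdn.le), ← sum_Ico_consecutive _ hcd hdn.le]
    linarith
  -- variance bound
  set C : Fin 4 → E := ![x1 - u1, x2 - u2, x3 - u3, x4 - u4] with hC
  set Y : Fin 4 → E := ![e 0 - e b, e b - e c, e c - e d, e d - e 0] with hY
  have hvar := var_bound C Y Δ (by
      intro i j
      fin_cases i <;> fin_cases j <;> simp [hC] <;>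
      first
        | exact hΔ0
        | exact hT.diam x1 hx1 u1 hu1 hs1 x2 hx2 u2 hu2 hs2
        | exact hT.diam x1 hx1 u1 hu1 hs1 x3 hx3 u3 hu3 hs3
        | exact hT.diam x1 hx1 u1 hu1 hs1 x4 hx4 u4 hu4 hs4
        | exact hT.diam x2 hx2 u2 hu2 hs2 x1 hx1 u1 hu1 hs1
        | exact hT.diam x2 hx2 u2 hu2 hs2 x3 hx3 u3 hu3 hs3
        | exact hT.diam x2 hx2 u2 hu2 hs2 x4 hx4 u4 hu4 hs4
        | exact hT.diam x3 hx3 u3 hu3 hs3 x1 hx1 u1 hu1 hs1
        | exact hT.diam x3 hx3 u3 hu3 hs3 x2 hx2 u2 hu2 hs2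
        | exact hT.diam x3 hx3 u3 hu3 hs3 x4 hx4 u4 hu4 hs4
        | exact hT.diam x4 hx4 u4 hu4 hs4 x1 hx1 u1 hu1 hs1
        | exact hT.diam x4 hx4 u4 hu4 hs4 x2 hx2 u2 hu2 hs2
        | exact hT.diam x4 hx4 u4 hu4 hs4 x3 hx3 u3 hu3 hs3) hΔ0 (by
      simp [hY, Fin.sum_univ_four])
  simp only [Fin.sum_univ_four] at hvar
  have hC0 : C 0 = x1 - u1 := rfl
  have hC1 : C 1 = x2 - u2 := rfl
  have hC2 : C 2 = x3 - u3 := rfl
  have hC3 : C 3 = x4 - u4 := rfl
  have hY0 : Y 0 = e 0 - e b := rfl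
  have hY1 : Y 1 = e b - e c := rfl
  have hY2 : Y 2 = e c - e d := rfl
  have hY3 : Y 3 = e d - e 0 := rfl
  rw [hC0, hC1, hC2, hC3, hY0, hY1, hY2, hY3] at hvar
  simp only [inner_sub_left (𝕜 := ℝ) x1, inner_sub_left (𝕜 := ℝ) x2, inner_sub_left (𝕜 := ℝ) x3,
    inner_sub_left (𝕜 := ℝ) x4, hi1, hi2, hi3, hi4] at hvar
  -- norms of chords at most two
  have hch : ∀ i j, ‖e i - e j‖ ≤ 2 := by
    intro i j
    calc ‖e i - e j‖ ≤ ‖e i‖ + ‖e j‖ := norm_sub_le _ _
      _ = 2 := by rw [heu, heu]; norm_num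
  set a1 := ‖e 0 - e b‖ with ha1
  set a2 := ‖e b - e c‖ with ha2
  set a3 := ‖e c - e d‖ with ha3
  set a4 := ‖e d - e 0‖ with ha4
  have n1 : 0 ≤ a1 := norm_nonneg _
  have n2 : 0 ≤ a2 := norm_nonneg _
  have n3 : 0 ≤ a3 := norm_nonneg _
  have n4 : 0 ≤ a4 := norm_nonneg _
  have m1 : a1 ≤ 2 := hch 0 b
  have m2 : a2 ≤ 2 := hch b c
  have m3 : a3 ≤ 2 := hch c d
  have m4 : a4 ≤ 2 := hch d 0
  set g : ℝ := inner ℝ x1 (e 0 - e b) + inner ℝ x2 (e b - e c) + inner ℝ x3 (e c - e d)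
      + inner ℝ x4 (e d - e 0) with hg
  set W : ℝ := a1 + a2 + a3 + a4 with hW
  have hvar' : 2 * (g - W) ^ 2 ≤ Δ ^ 2 * (W ^ 2 - 8) := by
    have h1 : (g - W) ^ 2 = (inner ℝ x1 (e 0 - e b) - a1 + (inner ℝ x2 (e b - e c) - a2)
      + (inner ℝ x3 (e c - e d) - a3) + (inner ℝ x4 (e d - e 0) - a4)) ^ 2 := by
      rw [hg, hW]; ring
    have h2 : Δ ^ 2 * (W ^ 2 - (a1 ^ 2 + a2 ^ 2 + a3 ^ 2 + a4 ^ 2)) ≤ Δ ^ 2 * (W ^ 2 - 8) := by
      apply mul_le_mul_of_nonneg_left _ (sq_nonneg _)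
      linarith
    rw [h1]
    linarith
  have hW4 : 4 ≤ W := by nlinarith
  rcases hW4.eq_or_lt with hW4' | hW4'
  · -- then an antipodal pair exists
    have hz : a1 = 2 ∨ a2 = 2 ∨ a3 = 2 ∨ a4 = 2 :=
      real_case1 a1 a2 a3 a4 n1 n2 n3 n4 m1 m2 m3 m4 hQ hW4'
    have hap : ∀ i j, ‖e i - e j‖ = 2 → e j = - e i := by
      intro i j hij
      have h1 : ‖e i + e j‖ ^ 2 = 0 := by
        have h2 := norm_sub_sq_real (e i) (e j)
        have h3 := norm_add_sq_real (e i) (e j)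
        rw [hij, heu, heu] at h2
        rw [heu, heu] at h3
        linarith
      have h4 : e i + e j = 0 := norm_eq_zero.1 (pow_eq_zero_iff (two_ne_zero)|>.1 h1)
      exact (neg_eq_of_add_eq_zero_right h4).symm
    have hneq : ∀ i j, ‖e i - e j‖ = 2 → i ≠ j := by
      intro i j hij h
      rw [h, sub_self, norm_zero] at hij
      norm_num at hij
    have hgen : ∀ i j, i < n → j < n → ‖e i - e j‖ = 2 → 4 - 2 * Δ < ∑ i ∈ range n, ℓ i := by
      intro i j hi hj hij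
      rcases lt_or_gt_of_ne (hneq i j hij) with h | h
      · exact hanti i j h hj (hap i j hij)
      · refine hanti j i h hi (hap j i ?_)
        rw [norm_sub_rev]; exact hij
    rcases hz with h | h | h | h
    · exact hgen 0 b hn0 (by omega) h
    · exact hgen b c (by omega) (by omega) h
    · exact hgen c d (by omega) hdn h
    · exact hgen d 0 hdn hn0 h
  · -- strict
    exact lt_of_lt_of_le (real_case2 W g Δ hΔ0 hΔ1 hW4' hvar') hLge

end Pool.Agent.Helper717.Core
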