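import Pool.Agent.Helper717.BallTable

set_option autoImplicit false

namespace Pool.Agent.Helper717.Core2

open Finset Pool.Agent.Helper717.Core Pool.Agent.Helper717.BallTable

variable {E : Type*} [NormedAddCommGroup E] [InnerProductSpace ℝ E]

/-- Pair identity. -/
lemma pair_id {ι : Type*} [Fintype ι] (w : ι → ℝ) (c : ι → E) :
    ∑ i, ∑ j, w i * w j * ‖c i - c j‖ ^ 2
      = 2 * ((∑ i, w i) * ∑ i, w i * ‖c i‖ ^ 2 - ‖∑ i, w i • c i‖ ^ 2) := by
  have h1 : ∀ i j, w i * w j * ‖c i - c j‖ ^ 2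
      = w j * (w i * ‖c i‖ ^ 2) + w i * (w j * ‖c j‖ ^ 2)
        - 2 * inner ℝ (w i • c i) (w j • c j) := by
    intro i j
    rw [norm_sub_sq_real, inner_smul_left, inner_smul_right]
    simp
    ring
  simp only [h1, sum_add_distrib, sum_sub_distrib]
  simp only [← mul_sum, ← sum_mul, ← inner_sum, ← sum_inner]
  rw [real_inner_self_eq_norm_sq]
  ring

/-- Jung for at most three points. -/
lemma jung3 (I : Finset E) (hcard : I.card ≤ 3) (hd : ∀ c ∈ I, ∀ c' ∈ I, ‖c - c'‖ ≤ 1) :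
    ∃ x : E, ∀ c ∈ I, ‖c - x‖ ^ 2 ≤ 1 / 3 := by
  classical
  rcases I.eq_empty_or_nonempty with h0 | hne
  · exact ⟨0, by simp [h0]⟩
  obtain ⟨c0, hc0⟩ := hne
  set V : (I → ℝ) → ℝ := fun w => ∑ i, w i * ‖(i : E)‖ ^ 2 - ‖∑ i, w i • (i : E)‖ ^ 2 with hV
  have hVc : Continuous V := by
    rw [hV]; fun_prop
  obtain ⟨w, hw, hmax⟩ := (isCompact_stdSimplex (𝕜 := ℝ) (ι := I)).exists_isMaxOn
    ⟨fun i => if i = ⟨c0, hc0⟩ then 1 else 0, by
      constructor
      · intro i; dsimp only; split_ifs <;> norm_num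
      · simp⟩ hVc.continuousOn
  have hw0 : ∀ i, 0 ≤ w i := hw.1
  have hw1 : ∑ i, w i = 1 := hw.2
  refine ⟨∑ i, w i • (i : E), ?_⟩
  set x : E := ∑ i, w i • (i : E) with hx
  have hVle : V w ≤ 1 / 3 := by
    have h1 := pair_id w (fun i : I => (i : E))
    rw [hw1, one_mul] at h1
    have h2 : ∑ i, ∑ j, w i * w j * ‖(i : E) - (j : E)‖ ^ 2 ≤ 1 - ∑ i, w i ^ 2 := by
      have h3 : ∀ i j : I, w i * w j * ‖(i : E) - (j : E)‖ ^ 2
          ≤ w i * w j - (if i = j then w i ^ 2 else 0) := by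
        intro i j
        by_cases hij : i = j
        · subst hij; simp; nlinarith
        · simp only [hij, if_false, sub_zero]
          have h4 : ‖(i : E) - (j : E)‖ ^ 2 ≤ 1 := pow_le_one₀ (norm_nonneg _) (hd _ i.2 _ j.2)
          have h5 : 0 ≤ w i * w j := mul_nonneg (hw0 i) (hw0 j)
          nlinarith
      refine (sum_le_sum fun i _ => sum_le_sum fun j _ => h3 i j).trans ?_
      simp only [sum_sub_distrib, sum_ite_eq, mem_univ, if_true]
      simp only [← mul_sum, ← sum_mul]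
      rw [hw1]; simp
    have h6 : (∑ i, w i) ^ 2 ≤ (Fintype.card I : ℝ) * ∑ i, w i ^ 2 := by
      have := sq_sum_le_card_mul_sum_sq (s := (univ : Finset I)) (f := w)
      simpa using this
    have h7 : (Fintype.card I : ℝ) ≤ 3 := by
      rw [Fintype.card_coe]; exact_mod_cast hcard
    have h8 : 0 ≤ ∑ i, w i ^ 2 := sum_nonneg fun i _ => sq_nonneg _
    rw [hw1] at h6
    have h9 : (1 : ℝ) / 3 ≤ ∑ i, w i ^ 2 := by nlinarith
    have h10 : V w = ∑ i, w i * ‖(i : E)‖ ^ 2 - ‖∑ i, w i • (i : E)‖ ^ 2 := rfl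
    linarith
  intro c hc
  set i0 : I := ⟨c, hc⟩ with hi0
  have key : ∀ t : ℝ, 0 < t → t < 1 → (1 - t) * ‖c - x‖ ^ 2 ≤ V w := by
    intro t ht0 ht1
    set wt : I → ℝ := fun j => (1 - t) * w j + t * (if j = i0 then 1 else 0) with hwt
    have hmem : wt ∈ stdSimplex ℝ I := by
      constructor
      · intro j
        simp only [hwt]
        have : 0 ≤ (1 - t) * w j := mul_nonneg (by linarith) (hw0 j)
        split_ifs <;> linarith
      · simp only [hwt, sum_add_distrib, ← mul_sum, hw1]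
        simp
    have h1 : V wt ≤ V w := hmax hmem
    have h2 : V wt = (1 - t) * V w + t * (1 - t) * ‖c - x‖ ^ 2 := by
      have e1 : ∑ j, wt j * ‖(j : E)‖ ^ 2 = (1 - t) * ∑ j, w j * ‖(j : E)‖ ^ 2 + t * ‖c‖ ^ 2 := by
        simp only [hwt, add_mul, sum_add_distrib, mul_assoc, ← mul_sum]
        simp [hi0]
      have e2 : ∑ j, wt j • (j : E) = (1 - t) • x + t • c := by
        simp only [hwt, add_smul, sum_add_distrib, mul_smul, ← smul_sum]
        simp [hi0, hx]
      simp only [hV]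
      rw [e1, e2, convex_id]
      ring
    have h3 : t * ((1 - t) * ‖c - x‖ ^ 2) ≤ t * V w := by
      rw [h2] at h1; linarith
    exact le_of_mul_le_mul_left h3 ht0
  by_contra hcon
  have hcon : 1 / 3 < ‖c - x‖ ^ 2 := not_le.1 hcon
  set D := ‖c - x‖ ^ 2 with hD
  have h1 := key ((D - 1 / 3) / (2 * D)) (by apply div_pos <;> linarith)
    (by rw [div_lt_one (by linarith)]; linarith)
  have h2 : (1 - (D - 1 / 3) / (2 * D)) * D = (D + 1 / 3) / 2 := by
    field_simp; ring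
  rw [h2] at h1
  linarith

/-- Jung in the plane for finite sets. -/
lemma jung [FiniteDimensional ℝ E] (hfin : Module.finrank ℝ E = 2) (S : Finset E)
    (hd : ∀ c ∈ S, ∀ c' ∈ S, ‖c - c'‖ ≤ 1) :
    ∃ x : E, ∀ c ∈ S, ‖c - x‖ ≤ 1 / Real.sqrt 3 := by
  have h := Convex.helly_theorem' (𝕜 := ℝ) (F := fun c : E => Metric.closedBall c (1 / Real.sqrt 3))
    (s := S) (fun c _ => convex_closedBall _ _) (by
      intro I hI hIc
      rw [hfin] at hIc
      obtain ⟨x, hx⟩ := jung3 I hIc (fun c hc c' hc' => hd c (hI hc) c' (hI hc'))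
      refine ⟨x, ?_⟩
      simp only [Set.mem_iInter, Metric.mem_closedBall]
      intro c hc
      have h1 := hx c hc
      rw [dist_comm, dist_eq_norm]
      have h3 : (0 : ℝ) < Real.sqrt 3 := by positivity
      have h4 : Real.sqrt 3 ^ 2 = 3 := Real.sq_sqrt (by norm_num)
      rw [le_div_iff₀ h3]
      have h5 : (‖c - x‖ * Real.sqrt 3) ^ 2 ≤ 1 := by
        rw [mul_pow, h4]; linarith
      have h6 : 0 ≤ ‖c - x‖ * Real.sqrt 3 := by positivity
      nlinarith)
  obtain ⟨x, hx⟩ := h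
  refine ⟨x, fun c hc => ?_⟩
  simp only [Set.mem_iInter, Metric.mem_closedBall] at hx
  have := hx c hc
  rwa [dist_comm, dist_eq_norm] at this

end Pool.Agent.Helper717.Core2
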