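import Pool.Agent.Helper717.Circ

set_option autoImplicit false

namespace Pool.Agent.Helper717.Perim

open MeasureTheory Set Pool.Agent.Helper717.Arc Filter
open scoped ENNReal NNReal Topology

/-- Monotone ratio of sines. -/
lemma sin_ratio (l a A : ℝ) (hl0 : 0 ≤ l) (hl1 : l ≤ 1) (ha : 0 < a) (haA : a ≤ A)
    (hA : A ≤ Real.pi / 2) : Real.sin (l * a) * Real.sin A ≤ Real.sin (l * A) * Real.sin a := by
  have hpi := Real.pi_pos
  -- the auxiliary function
  have hχ : ∀ x ∈ Icc 0 (Real.pi / 2),
      0 ≤ l * Real.cos (l * x) * Real.sin x - Real.sin (l * x) * Real.cos x := by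
    have hder : ∀ x : ℝ, HasDerivAt (fun x => l * Real.cos (l * x) * Real.sin x -
        Real.sin (l * x) * Real.cos x) ((1 - l ^ 2) * Real.sin (l * x) * Real.sin x) x := by
      intro x
      have h1 : HasDerivAt (fun x : ℝ => l * x) l x := by
        simpa using (hasDerivAt_id x).const_mul l
      have h2 := h1.cos
      have h3 := h1.sin
      have h4 := ((h2.const_mul l).mul (Real.hasDerivAt_sin x)).sub (h3.mul (Real.hasDerivAt_cos x))
      exact h4.congr_deriv (by ring)
    have hmono : MonotoneOn (fun x => l * Real.cos (l * x) * Real.sin x -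
        Real.sin (l * x) * Real.cos x) (Icc 0 (Real.pi / 2)) := by
      apply monotoneOn_of_deriv_nonneg (convex_Icc _ _)
      · exact fun x _ => (hder x).continuousAt.continuousWithinAt
      · exact fun x _ => (hder x).differentiableAt.differentiableWithinAt
      · intro x hx
        rw [interior_Icc] at hx
        rw [(hder x).deriv]
        have h1 : 0 ≤ 1 - l ^ 2 := by nlinarith
        have h2 : 0 ≤ Real.sin (l * x) := Real.sin_nonneg_of_nonneg_of_le_pi
          (mul_nonneg hl0 hx.1.le) (by nlinarith [hx.1, hx.2])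
        have h3 : 0 ≤ Real.sin x := Real.sin_nonneg_of_nonneg_of_le_pi hx.1.le (by linarith [hx.2])
        positivity
    intro x hx
    have := hmono ⟨le_refl 0, by positivity⟩ hx hx.1
    simpa using this
  have hder : ∀ x : ℝ, Real.sin x ≠ 0 → HasDerivAt (fun x => Real.sin (l * x) / Real.sin x)
      ((l * Real.cos (l * x) * Real.sin x - Real.sin (l * x) * Real.cos x) / Real.sin x ^ 2) x := by
    intro x hx
    have h1 : HasDerivAt (fun x : ℝ => l * x) l x := by
      simpa using (hasDerivAt_id x).const_mul l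
    have h3 := h1.sin
    have h4 := h3.div (Real.hasDerivAt_sin x) hx
    exact h4.congr_deriv (by ring)
  have hsp : ∀ x ∈ Icc a A, 0 < Real.sin x := by
    intro x hx
    exact Real.sin_pos_of_pos_of_lt_pi (by linarith [hx.1]) (by linarith [hx.2])
  have hmono : MonotoneOn (fun x => Real.sin (l * x) / Real.sin x) (Icc a A) := by
    apply monotoneOn_of_deriv_nonneg (convex_Icc _ _)
    · exact fun x hx => (hder x (hsp x hx).ne').continuousAt.continuousWithinAt
    · intro x hx
      rw [interior_Icc] at hx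
      exact (hder x (hsp x ⟨hx.1.le, hx.2.le⟩).ne').differentiableAt.differentiableWithinAt
    · intro x hx
      rw [interior_Icc] at hx
      rw [(hder x (hsp x ⟨hx.1.le, hx.2.le⟩).ne').deriv]
      apply div_nonneg _ (sq_nonneg _)
      exact hχ x ⟨by linarith [hx.1], by linarith [hx.2]⟩
  have h := hmono ⟨le_refl a, haA⟩ ⟨haA, le_refl A⟩ haA
  simp only at h
  rw [div_le_div_iff₀ (hsp a ⟨le_refl a, haA⟩) (hsp A ⟨haA, le_refl A⟩)] at h
  exact h

/-- The ratio inequality for arcs. -/
lemma ratio (t y : ℝ) (ht1 : 1 ≤ t) (ht2 : t ≤ 2) (hy0 : 0 ≤ y) (hy1 : y ≤ 1 / 2) :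
    Real.arcsin (t * y) ≤ 6 / Real.pi * Real.arcsin (t / 2) * Real.arcsin y := by
  have hpi := Real.pi_pos
  set A := Real.arcsin (t / 2) with hA
  set s := Real.arcsin y with hs
  have hs0 : 0 ≤ s := Real.arcsin_nonneg.2 hy0
  have h6 : Real.arcsin (1 / 2) = Real.pi / 6 := by
    rw [← Real.sin_pi_div_six]
    exact Real.arcsin_sin (by linarith) (by linarith)
  have hs6 : s ≤ Real.pi / 6 := by rw [← h6]; exact Real.monotone_arcsin hy1
  have hA6 : Real.pi / 6 ≤ A := by rw [← h6]; exact Real.monotone_arcsin (by linarith)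
  have hA2 : A ≤ Real.pi / 2 := Real.arcsin_le_pi_div_two _
  set l := 6 * s / Real.pi with hl
  have hl0 : 0 ≤ l := by positivity
  have hl1 : l ≤ 1 := by rw [hl, div_le_one hpi]; linarith
  have hls : l * (Real.pi / 6) = s := by rw [hl]; field_simp
  have h1 := sin_ratio l (Real.pi / 6) A hl0 hl1 (by positivity) hA6 hA2
  rw [hls, Real.sin_pi_div_six] at h1
  have h2 : Real.sin s = y := Real.sin_arcsin (by linarith) (by linarith)
  have h3 : Real.sin A = t / 2 := Real.sin_arcsin (by linarith) (by linarith)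
  rw [h2, h3] at h1
  have h4 : t * y ≤ Real.sin (l * A) := by linarith
  have h5 := Real.monotone_arcsin h4
  have hA0 : 0 ≤ A := by linarith
  rw [Real.arcsin_sin (by nlinarith) (by nlinarith)] at h5
  have h7 : l * A = 6 / Real.pi * A * s := by rw [hl]; ring
  rw [← h7]; exact h5

lemma norm_w_sub_le (a b : ℝ) : ‖w a - w b‖ ≤ |a - b| := by
  have h : ‖w a - w b‖ ^ 2 = ‖u a - u b‖ ^ 2 := by
    rw [nsq, nsq]; simp; ring
  have h2 : ‖w a - w b‖ = ‖u a - u b‖ :=
    (pow_left_inj₀ (norm_nonneg _) (norm_nonneg _) two_ne_zero).1 h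
  rw [h2]; exact norm_sub_le a b

lemma w_deriv (x : E2) (θ : ℝ) : HasDerivAt (fun s => inner ℝ x (w s)) (-inner ℝ x (u θ)) θ := by
  have h1 : (fun s => inner ℝ x (w s)) = fun s => x 0 * (-Real.sin s) + x 1 * Real.cos s := by
    funext s; rw [ip, w0, w1]
  rw [h1, ip, u0, u1]
  have h2 := ((Real.hasDerivAt_sin θ).neg.const_mul (x 0)).add
    ((Real.hasDerivAt_cos θ).const_mul (x 1))
  exact h2.congr_deriv (by ring)

/-- The total angle of the corners is at most `π`. -/
lemma perim (P : ℝ → E2) (t : ℝ) (ht : 0 < t) (hper : P (2 * Real.pi) = P 0)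
    (hlip : ∀ a b, ‖P a - P b‖ ≤ t * ‖u a - u b‖)
    (hwid : ∀ θ, t ≤ inner ℝ (P θ) (u θ) + inner ℝ (P (θ + Real.pi)) (u (θ + Real.pi)))
    (S : Set ℝ) (hS : IsOpen S) (hconst : ∀ θ ∈ S, ∀ᶠ θ' in 𝓝 θ, P θ' = P θ) :
    volume (S ∩ Ioc 0 (2 * Real.pi)) ≤ ENNReal.ofReal Real.pi := by
  have hpi := Real.pi_pos
  have hlip' : ∀ a b, ‖P a - P b‖ ≤ t * |a - b| := fun a b =>
    (hlip a b).trans (mul_le_mul_of_nonneg_left (norm_sub_le a b) ht.le)
  have hPc : Continuous P := by
    have : LipschitzWith (Real.toNNReal t) P := by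
      apply LipschitzWith.of_dist_le_mul
      intro a b
      rw [dist_eq_norm, Real.dist_eq, Real.coe_toNNReal _ ht.le]
      exact hlip' a b
    exact this.continuous
  set R := ‖P 0‖ + 2 * t with hR
  have hR0 : 0 ≤ R := by positivity
  have hPR : ∀ θ, ‖P θ‖ ≤ R := by
    intro θ
    have h1 : ‖u θ - u 0‖ ≤ 2 := by
      refine (_root_.norm_sub_le _ _).trans ?_
      rw [norm_u, norm_u]; norm_num
    have h2 := (hlip θ 0).trans (mul_le_mul_of_nonneg_left h1 ht.le)
    have h3 : P θ = P 0 + (P θ - P 0) := by abel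
    rw [h3]
    exact (norm_add_le _ _).trans (by linarith)
  set F : ℝ → ℝ := fun θ => inner ℝ (P θ) (w θ) with hF
  set h : ℝ → ℝ := fun θ => inner ℝ (P θ) (u θ) with hh
  have hhc : Continuous h := hPc.inner u_cont
  have hdiff : ∀ a b, |inner ℝ (P a - P b) (w a)| ≤ t * |a - b| := by
    intro a b
    have h1 := abs_real_inner_le_norm (P a - P b) (w a)
    rw [norm_w, mul_one] at h1
    exact h1.trans (hlip' a b)
  have hFlip : LipschitzOnWith (Real.toNNReal (t + R)) F (uIcc 0 (2 * Real.pi)) := by
    rw [lipschitzOnWith_iff_dist_le_mul]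
    intro a _ b _
    rw [Real.dist_eq, Real.dist_eq, Real.coe_toNNReal _ (by positivity)]
    have e1 : F a - F b = inner ℝ (P a - P b) (w a) + inner ℝ (P b) (w a - w b) := by
      simp only [hF]
      rw [inner_sub_left, inner_sub_right]; ring
    have h1 := abs_real_inner_le_norm (P b) (w a - w b)
    have h2 : ‖P b‖ * ‖w a - w b‖ ≤ R * |a - b| :=
      mul_le_mul (hPR b) (norm_w_sub_le a b) (norm_nonneg _) hR0
    rw [e1]
    refine (abs_add_le _ _).trans ?_
    have := hdiff a b
    linarith
  have hAC := hFlip.absolutelyContinuousOnInterval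
  have hFTC := hAC.integral_deriv_eq_sub
  have hF0 : F (2 * Real.pi) - F 0 = 0 := by
    simp only [hF]
    have := w_per 0
    rw [zero_add] at this
    rw [hper, this, sub_self]
  rw [hF0] at hFTC
  have hint := hAC.intervalIntegrable_deriv
  -- pointwise bound
  have hpt : ∀ θ, DifferentiableAt ℝ F θ → t * S.indicator 1 θ + h θ ≤ t - deriv F θ := by
    intro θ hd
    by_cases hθ : θ ∈ S
    · rw [indicator_of_mem hθ]
      have h1 : HasDerivAt F (-h θ) θ := by
        refine (w_deriv (P θ) θ).congr_of_eventuallyEq ?_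
        filter_upwards [hconst θ hθ] with s hs
        simp only [hF, hs]
      rw [h1.deriv]
      simp
    · rw [indicator_of_notMem hθ]
      have h1 : HasDerivAt (fun s => F s - inner ℝ (P θ) (w s)) (deriv F θ - -h θ) θ :=
        hd.hasDerivAt.sub (w_deriv (P θ) θ)
      have h2 := h1.le_of_lip' ht.le (by
        apply Eventually.of_forall
        intro s
        have e1 : F s - inner ℝ (P θ) (w s) - (F θ - inner ℝ (P θ) (w θ)) =
            inner ℝ (P s - P θ) (w s) := by
          simp only [hF]
          rw [inner_sub_left]; ring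
        rw [e1, Real.norm_eq_abs, Real.norm_eq_abs]
        exact hdiff s θ)
      rw [Real.norm_eq_abs] at h2
      have := (abs_le.1 h2).2
      linarith
  have hSm : MeasurableSet S := hS.measurableSet
  have hint1 : IntervalIntegrable (S.indicator (1 : ℝ → ℝ)) volume 0 (2 * Real.pi) := by
    rw [intervalIntegrable_iff_integrableOn_Ioc_of_le (by positivity)]
    exact (integrableOn_const (by rw [Real.volume_Ioc]; exact ENNReal.ofReal_ne_top)).indicator hSm
  have hmono : ∫ θ in (0 : ℝ)..(2 * Real.pi), (t * S.indicator (1 : ℝ → ℝ) θ + h θ) ≤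
      ∫ θ in (0 : ℝ)..(2 * Real.pi), (t - deriv F θ) := by
    apply intervalIntegral.integral_mono_ae_restrict (by positivity)
    · exact (hint1.const_mul t).add (hhc.intervalIntegrable _ _)
    · exact intervalIntegrable_const.sub hint
    · rw [Filter.EventuallyLE, ae_restrict_iff' measurableSet_Icc]
      filter_upwards [hAC.ae_differentiableAt] with θ h1 h2
      exact hpt θ (h1 (by rwa [uIcc_of_le (by positivity)]))
  rw [intervalIntegral.integral_add (hint1.const_mul t) (hhc.intervalIntegrable _ _),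
    intervalIntegral.integral_sub intervalIntegrable_const hint, hFTC,
    intervalIntegral.integral_const, intervalIntegral.integral_const_mul] at hmono
  have hI : ∫ θ in (0 : ℝ)..(2 * Real.pi), S.indicator (1 : ℝ → ℝ) θ =
      (volume (S ∩ Ioc 0 (2 * Real.pi))).toReal := by
    rw [intervalIntegral.integral_of_le (by positivity), integral_indicator hSm,
      Measure.restrict_restrict hSm]
    simp [Measure.real]
  have hh2 : Real.pi * t ≤ ∫ θ in (0 : ℝ)..(2 * Real.pi), h θ := by
    have h1 : ∫ θ in (0 : ℝ)..(2 * Real.pi), h θ =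
        (∫ θ in (0 : ℝ)..Real.pi, h θ) + ∫ θ in Real.pi..(2 * Real.pi), h θ :=
      (intervalIntegral.integral_add_adjacent_intervals (hhc.intervalIntegrable _ _)
        (hhc.intervalIntegrable _ _)).symm
    have h2 : ∫ θ in Real.pi..(2 * Real.pi), h θ = ∫ θ in (0 : ℝ)..Real.pi, h (θ + Real.pi) := by
      rw [intervalIntegral.integral_comp_add_right]
      congr 1 <;> ring
    have hc2 : Continuous fun θ => h (θ + Real.pi) := hhc.comp (by fun_prop)
    have h3 : ∫ θ in (0 : ℝ)..Real.pi, (t : ℝ) ≤
        ∫ θ in (0 : ℝ)..Real.pi, (h θ + h (θ + Real.pi)) := by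
      apply intervalIntegral.integral_mono_on (by positivity) intervalIntegrable_const
      · exact (hhc.add hc2).intervalIntegrable _ _
      · intro θ _
        exact hwid θ
    rw [intervalIntegral.integral_const, intervalIntegral.integral_add
      (hhc.intervalIntegrable _ _) (hc2.intervalIntegrable _ _)] at h3
    rw [h1, h2]
    simpa [sub_zero, smul_eq_mul] using h3
  rw [hI] at hmono
  simp only [smul_eq_mul, sub_zero] at hmono
  have hfin : volume (S ∩ Ioc 0 (2 * Real.pi)) ≠ ∞ := by
    apply ne_top_of_le_ne_top _ (measure_mono inter_subset_right)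
    rw [Real.volume_Ioc]; exact ENNReal.ofReal_ne_top
  rw [← ENNReal.ofReal_toReal hfin]
  apply ENNReal.ofReal_le_ofReal
  have : t * (volume (S ∩ Ioc 0 (2 * Real.pi))).toReal ≤ t * Real.pi := by nlinarith
  exact le_of_mul_le_mul_left this ht

end Pool.Agent.Helper717.Perim
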