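import Pool.Agent.Helper717.Planar

set_option autoImplicit false

namespace Pool.Agent.Helper717.Rounded

open Finset Pool.Agent.Helper717.Core Pool.Agent.Helper717.BallTable Pool.Agent.Helper717.Core2
  Pool.Agent.Helper717.Tri Pool.Agent.Helper717.Planar

variable {E : Type*} [NormedAddCommGroup E] [InnerProductSpace ℝ E]

/-- Sliding property for radius `ρ`. -/
lemma slideρ (S : Set E) (hne : S.Nonempty) (ρ : ℝ) (hρ : 0 ≤ ρ) (p : E)
    (hp : ∀ c ∈ S, ‖p - c‖ ≤ ρ) (u : E) (hu : ‖u‖ = 1)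
    (hs : ∀ x : E, (∀ c ∈ S, ‖x - c‖ ≤ ρ) → inner ℝ x u ≤ inner ℝ p u)
    (x : E) (hx : ∀ c ∈ S, ‖x - c‖ ≤ ρ) : ‖x - p‖ ^ 2 ≤ 2 * ρ * inner ℝ (p - x) u := by
  rcases hρ.eq_or_lt with h0 | h0
  · obtain ⟨c, hc⟩ := hne
    have h1 : x = c := by
      have := hx c hc
      rw [← h0] at this
      exact sub_eq_zero.1 (norm_le_zero_iff.1 this)
    have h2 : p = c := by
      have := hp c hc
      rw [← h0] at this
      exact sub_eq_zero.1 (norm_le_zero_iff.1 this)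
    rw [h1, h2]; simp
  · have hn : ‖ρ⁻¹‖ = ρ⁻¹ := by rw [Real.norm_eq_abs, abs_of_pos (inv_pos.2 h0)]
    have h := slide ((fun c => ρ⁻¹ • c) '' S) (ρ⁻¹ • p) (by
        rintro _ ⟨c, hc, rfl⟩
        rw [← smul_sub, norm_smul, hn]
        have := mul_le_mul_of_nonneg_left (hp c hc) (inv_pos.2 h0).le
        rwa [inv_mul_cancel₀ h0.ne'] at this) u hu (by
        intro y hy
        have h1 : inner ℝ (ρ • y) u ≤ inner ℝ p u := by
          apply hs
          intro c hc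
          have h2 := hy (ρ⁻¹ • c) ⟨c, hc, rfl⟩
          have h3 : ρ • y - c = ρ • (y - ρ⁻¹ • c) := by
            rw [smul_sub, smul_smul, mul_inv_cancel₀ h0.ne', one_smul]
          rw [h3, norm_smul, Real.norm_eq_abs, abs_of_pos h0]
          nlinarith
        rw [inner_smul_left] at h1 ⊢
        simp only [conj_trivial] at h1 ⊢
        have h4 : inner ℝ y u = ρ⁻¹ * (ρ * inner ℝ y u) := by
          rw [← mul_assoc, inv_mul_cancel₀ h0.ne', one_mul]
        rw [h4]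
        exact mul_le_mul_of_nonneg_left h1 (inv_pos.2 h0).le) (ρ⁻¹ • x) (by
        rintro _ ⟨c, hc, rfl⟩
        rw [← smul_sub, norm_smul, hn]
        have := mul_le_mul_of_nonneg_left (hx c hc) (inv_pos.2 h0).le
        rwa [inv_mul_cancel₀ h0.ne'] at this)
    rw [← smul_sub, ← smul_sub, norm_smul, hn, inner_smul_left] at h
    simp only [conj_trivial] at h
    have h5 : ρ ^ 2 * (ρ⁻¹ * ‖x - p‖) ^ 2 ≤ ρ ^ 2 * (2 * (ρ⁻¹ * inner ℝ (p - x) u)) :=
      mul_le_mul_of_nonneg_left h (sq_nonneg _)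
    have h6 : ρ ^ 2 * (ρ⁻¹ * ‖x - p‖) ^ 2 = ‖x - p‖ ^ 2 := by field_simp
    have h7 : ρ ^ 2 * (2 * (ρ⁻¹ * inner ℝ (p - x) u)) = 2 * ρ * inner ℝ (p - x) u := by field_simp
    linarith

/-- The inner set. -/
def Din (S : Set E) (ρ : ℝ) : Set E := {x | ∀ c ∈ S, ‖x - c‖ ≤ ρ}

/-- The rounded set. -/
def Kr (S : Set E) (ρ ε : ℝ) : Set E := {y | ∃ x ∈ Din S ρ, ‖y - x‖ ≤ ε}

/-- The dual set. -/
def Hd (S : Set E) (ρ : ℝ) : Set E := {y | ∀ x ∈ Din S ρ, ‖x - y‖ ≤ ρ}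

variable {S : Set E} {ρ ε : ℝ}

lemma Din_closed : IsClosed (Din S ρ) := by
  have : Din S ρ = ⋂ c ∈ S, {x : E | ‖x - c‖ ≤ ρ} := by
    ext x; simp [Din]
  rw [this]
  exact isClosed_biInter fun c _ => isClosed_le (by fun_prop) continuous_const

lemma Din_compact [ProperSpace E] (hne : S.Nonempty) : IsCompact (Din S ρ) := by
  obtain ⟨c0, hc0⟩ := hne
  apply (isCompact_closedBall c0 ρ).of_isClosed_subset Din_closed
  intro x hx
  rw [Metric.mem_closedBall, dist_eq_norm]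
  exact hx c0 hc0

lemma Hd_closed : IsClosed (Hd S ρ) := by
  have : Hd S ρ = ⋂ c ∈ Din S ρ, {x : E | ‖c - x‖ ≤ ρ} := by
    ext x; simp [Hd]
  rw [this]
  exact isClosed_biInter fun c _ => isClosed_le (by fun_prop) continuous_const

lemma Hd_compact [ProperSpace E] (hD : (Din S ρ).Nonempty) : IsCompact (Hd S ρ) := by
  obtain ⟨c0, hc0⟩ := hD
  apply (isCompact_closedBall c0 ρ).of_isClosed_subset Hd_closed
  intro x hx
  rw [Metric.mem_closedBall, dist_comm, dist_eq_norm]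
  exact hx c0 hc0

lemma sub_Hd : S ⊆ Hd S ρ := fun _ hc x hx => hx _ hc

lemma Kr_compact [ProperSpace E] (hne : S.Nonempty) : IsCompact (Kr S ρ ε) := by
  have h1 : IsCompact ((fun z : E × E => z.1 + z.2) '' (Din S ρ ×ˢ Metric.closedBall (0 : E) ε)) :=
    ((Din_compact hne).prod (isCompact_closedBall _ _)).image (by fun_prop)
  convert h1 using 1
  ext y
  simp only [Kr, Set.mem_ofPred_eq, Set.mem_image, Set.mem_prod, Prod.exists,
    Metric.mem_closedBall, dist_zero_right]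
  constructor
  · rintro ⟨x, hx, hy⟩
    exact ⟨x, y - x, ⟨hx, hy⟩, by abel⟩
  · rintro ⟨a, b, ⟨ha, hb⟩, rfl⟩
    refine ⟨a, ha, ?_⟩
    have : a + b - a = b := by abel
    rw [this]; exact hb

/-- Support pairs of the rounded set come from support pairs of the inner set. -/
lemma supp_pair (hε : 0 < ε) (p : E) (hp : p ∈ Kr S ρ ε) (u : E) (hu : ‖u‖ = 1)
    (hs : ∀ x ∈ Kr S ρ ε, inner ℝ x u ≤ inner ℝ p u) :
    ∃ x ∈ Din S ρ, p = x + ε • u ∧ ∀ z ∈ Din S ρ, inner ℝ z u ≤ inner ℝ x u := by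
  obtain ⟨x, hx, hpx⟩ := hp
  have huu : inner ℝ u u = (1 : ℝ) := by rw [real_inner_self_eq_norm_sq, hu]; norm_num
  have hmem : ∀ z ∈ Din S ρ, z + ε • u ∈ Kr S ρ ε := by
    intro z hz
    refine ⟨z, hz, ?_⟩
    rw [add_sub_cancel_left, norm_smul, hu, mul_one, Real.norm_eq_abs, abs_of_pos hε]
  have h1 := hs _ (hmem x hx)
  rw [inner_add_left, inner_smul_left, huu] at h1
  simp only [conj_trivial, mul_one] at h1
  have h2 : ε ≤ inner ℝ (p - x) u := by rw [inner_sub_left]; linarith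
  have h3 : ‖(p - x) - ε • u‖ ^ 2 ≤ 0 := by
    rw [norm_sub_sq_real, norm_smul, hu, inner_smul_right, Real.norm_eq_abs, abs_of_pos hε]
    have : ‖p - x‖ ^ 2 ≤ ε ^ 2 := pow_le_pow_left₀ (norm_nonneg _) hpx 2
    nlinarith
  have h4 : (p - x) - ε • u = 0 := by
    have : ‖(p - x) - ε • u‖ ^ 2 = 0 := le_antisymm h3 (sq_nonneg _)
    exact norm_eq_zero.1 (pow_eq_zero_iff (two_ne_zero) |>.1 this)
  have h5 : p = x + ε • u := by
    have := sub_eq_zero.1 h4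
    rw [← this]; abel
  refine ⟨x, hx, h5, ?_⟩
  intro z hz
  have h6 := hs _ (hmem z hz)
  rw [h5, inner_add_left, inner_add_left] at h6
  linarith

lemma supp_Hd (hne : S.Nonempty) (hρ : 0 ≤ ρ) (hε : 0 < ε) (h1 : ρ + ε = 1) (p : E)
    (hp : p ∈ Kr S ρ ε) (u : E) (hu : ‖u‖ = 1)
    (hs : ∀ x ∈ Kr S ρ ε, inner ℝ x u ≤ inner ℝ p u) : p - u ∈ Hd S ρ := by
  obtain ⟨x, hx, hpx, hsx⟩ := supp_pair hε p hp u hu hs
  intro z hz
  have h2 := slideρ S hne ρ hρ x hx u hu hsx z hz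
  have e1 : z - (p - u) = (z - x) + ρ • u := by
    have : ρ • u = u - ε • u := by rw [show ρ = 1 - ε by linarith, sub_smul, one_smul]
    rw [this, hpx]; abel
  have h3 : ‖z - (p - u)‖ ^ 2 ≤ ρ ^ 2 := by
    rw [e1, norm_add_sq_real, norm_smul, hu, inner_smul_right, Real.norm_eq_abs, mul_one, sq_abs]
    have : inner ℝ (z - x) u = - inner ℝ (x - z) u := by
      rw [inner_sub_left, inner_sub_left]; ring
    rw [this]; nlinarith
  exact abs_le_of_sq_le_sq' h3 hρ |>.2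

lemma table_Kr [ProperSpace E] (hne : S.Nonempty) (hD : (Din S ρ).Nonempty) (hρ : 0 ≤ ρ)
    (hε : 0 < ε) (h1 : ρ + ε = 1) (Δ : ℝ) (hΔ : ∀ y ∈ Hd S ρ, ∀ y' ∈ Hd S ρ, ‖y - y'‖ ≤ Δ) :
    Table (Kr S ρ ε) Δ := by
  refine ⟨?_, ?_, ?_⟩
  · intro v
    obtain ⟨x0, hx0⟩ := hD
    obtain ⟨p, hp, hmax⟩ := (Kr_compact (ρ := ρ) (ε := ε) hne).exists_isMaxOn
      ⟨x0, x0, hx0, by simp [hε.le]⟩
      (f := fun x : E => inner ℝ x v) (by fun_prop)
    exact ⟨p, hp, fun x hx => hmax hx⟩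
  · intro p hp u hu hs z hz
    have h2 := supp_Hd hne hρ hε h1 p hp u hu hs
    obtain ⟨z', hz', hzz⟩ := hz
    have h3 := h2 z' hz'
    have h4 : ‖z - (p - u)‖ ≤ 1 := by
      have e1 : z - (p - u) = (z - z') + (z' - (p - u)) := by abel
      rw [e1]
      exact (norm_add_le _ _).trans (by linarith)
    have h5 : ‖z - (p - u)‖ ^ 2 ≤ 1 := pow_le_one₀ (norm_nonneg _) h4
    have e2 : z - (p - u) = (z - p) + u := by abel
    have e3 : inner ℝ (z - p) u = - inner ℝ (p - z) u := by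
      rw [inner_sub_left, inner_sub_left]; ring
    rw [e2, norm_add_sq_real, hu, e3] at h5
    linarith
  · intro p hp u hu hs p' hp' u' hu' hs'
    exact hΔ _ (supp_Hd hne hρ hε h1 p hp u hu hs) _ (supp_Hd hne hρ hε h1 p' hp' u' hu' hs')

/-- A centre for the dual set in the plane. -/
lemma centre [FiniteDimensional ℝ E] (hfin : Module.finrank ℝ E = 2) (C : Finset E)
    (hd : ∀ c ∈ C, ∀ c' ∈ C, ‖c - c'‖ ≤ 1) (hD : (Din (C : Set E) ρ).Nonempty) :
    ∃ x0 : E, ∀ y ∈ Hd (C : Set E) ρ, ‖y - x0‖ ≤ 1 / Real.sqrt 3 := by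
  by_cases h : ρ ≤ 1 / Real.sqrt 3
  · obtain ⟨x0, hx0⟩ := hD
    refine ⟨x0, fun y hy => ?_⟩
    have := hy x0 hx0
    rw [norm_sub_rev]; exact this.trans h
  · have h : 1 / Real.sqrt 3 < ρ := not_le.1 h
    obtain ⟨x0, hx0⟩ := jung hfin C hd
    refine ⟨x0, fun y hy => ?_⟩
    by_cases hyx : y = x0
    · rw [hyx, sub_self, norm_zero]; positivity
    have hpos : 0 < ‖x0 - y‖ := norm_pos_iff.2 (sub_ne_zero.2 (Ne.symm hyx))
    set v : E := ‖x0 - y‖⁻¹ • (x0 - y) with hv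
    have hv1 : ‖v‖ = 1 := by
      rw [hv, norm_smul, norm_inv, norm_norm, inv_mul_cancel₀ hpos.ne']
    have hvz : x0 - y = ‖x0 - y‖ • v := by
      rw [hv, smul_smul, mul_inv_cancel₀ hpos.ne', one_smul]
    have hmem : x0 + (ρ - 1 / Real.sqrt 3) • v ∈ Din (C : Set E) ρ := by
      intro c hc
      have e1 : x0 + (ρ - 1 / Real.sqrt 3) • v - c = (ρ - 1 / Real.sqrt 3) • v - (c - x0) := by abel
      rw [e1]
      refine (norm_sub_le _ _).trans ?_
      rw [norm_smul, hv1, mul_one, Real.norm_eq_abs, abs_of_nonneg (by linarith)]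
      have := hx0 c hc
      linarith
    have h2 := hy _ hmem
    have e2 : x0 + (ρ - 1 / Real.sqrt 3) • v - y = (‖x0 - y‖ + (ρ - 1 / Real.sqrt 3)) • v := by
      rw [add_smul, ← hvz]; abel
    rw [e2, norm_smul, hv1, mul_one, Real.norm_eq_abs, abs_of_nonneg (by linarith)] at h2
    rw [norm_sub_rev]; linarith

end Pool.Agent.Helper717.Rounded
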