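import Pool.Agent.Helper717.Disk
import Pool.Agent.Helper717.Perim
import Pool.Agent.Helper717.Rounded

set_option autoImplicit false

namespace Pool.Agent.Helper717.Cover

open Set Pool.Agent.Helper717.Arc Pool.Agent.Helper717.Disk Pool.Agent.Helper717.Rounded

lemma top (v p e : E2) (he : ‖e‖ = 1) (h : ‖p - v‖ ≤ 1) (hle : 1 ≤ inner ℝ (p - v) e) :
    p - v = e := by
  have h1 : ‖(p - v) - e‖ ^ 2 ≤ 0 := by
    rw [norm_sub_sq_real, he]
    nlinarith [norm_nonneg (p - v)]
  have h2 : ‖(p - v) - e‖ ^ 2 = 0 := le_antisymm h1 (sq_nonneg _)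
  exact sub_eq_zero.1 (norm_eq_zero.1 ((pow_eq_zero_iff two_ne_zero).1 h2))

lemma on_sphere (v v' p e : E2) (he : ‖e‖ = 1) (h1 : ‖p - v‖ ≤ 1) (h2 : ‖p - v'‖ ≤ 1)
    (hmax : ∀ x, ‖x - v‖ ≤ 1 → ‖x - v'‖ ≤ 1 → inner ℝ x e ≤ inner ℝ p e)
    (hn2 : p - v' ≠ e) : ‖p - v‖ = 1 := by
  by_contra hne
  have hlt : ‖p - v‖ < 1 := lt_of_le_of_ne h1 hne
  apply hn2
  have hee : inner ℝ e e = (1 : ℝ) := by rw [real_inner_self_eq_norm_sq, he]; norm_num
  set q := v' + e with hq
  set s := min ((1 - ‖p - v‖) / (‖q - p‖ + 1)) 1 with hs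
  have hs0 : 0 < s := lt_min (div_pos (by linarith) (by positivity)) one_pos
  have hs1 : s ≤ 1 := min_le_right _ _
  have hs2 : s * (‖q - p‖ + 1) ≤ 1 - ‖p - v‖ := by
    rw [← le_div_iff₀ (by positivity)]; exact min_le_left _ _
  have k := hmax (p + s • (q - p)) (by
      have e1 : p + s • (q - p) - v = (p - v) + s • (q - p) := by abel
      rw [e1]
      refine (norm_add_le _ _).trans ?_
      rw [norm_smul, Real.norm_eq_abs, abs_of_pos hs0]
      nlinarith [norm_nonneg (q - p)]) (by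
      have e1 : p + s • (q - p) - v' = (1 - s) • (p - v') + s • e := by
        rw [hq]; module
      rw [e1]
      refine (norm_add_le _ _).trans ?_
      rw [norm_smul, norm_smul, he, Real.norm_eq_abs, Real.norm_eq_abs, abs_of_pos hs0,
        abs_of_nonneg (by linarith : 0 ≤ 1 - s)]
      nlinarith)
  rw [inner_add_left, inner_smul_left] at k
  simp only [conj_trivial] at k
  have k2 : inner ℝ (q - p) e ≤ 0 := by
    by_contra hcon
    have := mul_pos hs0 (not_le.1 hcon)
    linarith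
  have e2 : q - p = e - (p - v') := by rw [hq]; abel
  rw [e2, inner_sub_left, hee] at k2
  exact top v' p e he h2 (by linarith)

lemma bound_aux (v v' p e : E2) (he : ‖e‖ = 1) (h1 : ‖p - v‖ ≤ 1)
    (hmax : ∀ x, ‖x - v‖ ≤ 1 → ‖x - v'‖ ≤ 1 → inner ℝ x e ≤ inner ℝ p e)
    (hn1 : p - v ≠ e) : inner ℝ e (v' - v) ≤ ‖v' - v‖ ^ 2 / 2 := by
  by_contra hcon
  have hcon := not_le.1 hcon
  apply hn1
  have hee : inner ℝ e e = (1 : ℝ) := by rw [real_inner_self_eq_norm_sq, he]; norm_num
  have k := hmax (v + e) (by rw [add_sub_cancel_left, he]) (by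
    have e1 : v + e - v' = e - (v' - v) := by abel
    have e2 : ‖e - (v' - v)‖ ^ 2 ≤ 1 := by
      rw [norm_sub_sq_real, he]; linarith
    rw [e1]
    nlinarith [norm_nonneg (e - (v' - v))])
  apply top v p e he h1
  rw [inner_add_left, hee] at k
  rw [inner_sub_left]; linarith

/-- Support points of a lens. -/
lemma lens (v v' p e : E2) (hvv : ‖v' - v‖ < 2) (he : ‖e‖ = 1) (h1 : ‖p - v‖ ≤ 1)
    (h2 : ‖p - v'‖ ≤ 1)
    (hmax : ∀ x, ‖x - v‖ ≤ 1 → ‖x - v'‖ ≤ 1 → inner ℝ x e ≤ inner ℝ p e)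
    (hn1 : p - v ≠ e) (hn2 : p - v' ≠ e) :
    ∃ c c', ((c = v ∧ c' = v') ∨ (c = v' ∧ c' = v)) ∧ c ≠ c' ∧ p = X 1 c c' ∧
      |inner ℝ e (c' - c)| ≤ ‖c' - c‖ ^ 2 / 2 ∧ 0 ≤ inner ℝ e (J (c' - c)) := by
  have hee : inner ℝ e e = (1 : ℝ) := by rw [real_inner_self_eq_norm_sq, he]; norm_num
  have hmax' : ∀ x, ‖x - v'‖ ≤ 1 → ‖x - v‖ ≤ 1 → inner ℝ x e ≤ inner ℝ p e :=
    fun x a b => hmax x b a
  have s1 : ‖p - v‖ = 1 := on_sphere v v' p e he h1 h2 hmax hn2
  have s2 : ‖p - v'‖ = 1 := on_sphere v' v p e he h2 h1 hmax' hn1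
  have hne : v ≠ v' := by
    intro h
    apply hn1
    apply top v p e he h1
    have k := hmax (v + e) (by rw [add_sub_cancel_left, he]) (by
      rw [← h, add_sub_cancel_left, he])
    rw [inner_add_left, hee] at k
    rw [inner_sub_left]; linarith
  have b1 := bound_aux v v' p e he h1 hmax hn1
  have b2 := bound_aux v' v p e he h2 hmax' hn2
  have hz : 0 < ‖v' - v‖ := norm_pos_iff.2 (sub_ne_zero.2 hne.symm)
  have hrev : v - v' = -(v' - v) := by abel
  have hbound : |inner ℝ e (v' - v)| ≤ ‖v' - v‖ ^ 2 / 2 := by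
    rw [hrev, inner_neg_right, norm_neg] at b2
    rw [abs_le]; constructor
    · linarith
    · exact b1
  have hm : 0 ≤ inner ℝ (p - (1 / 2 : ℝ) • (v + v')) e := by
    have k := hmax (v + v' - p) (by
      have : v + v' - p - v = -(p - v') := by abel
      rw [this, norm_neg, s2]) (by
      have : v + v' - p - v' = -(p - v) := by abel
      rw [this, norm_neg, s1])
    rw [inner_sub_left] at k
    rw [inner_sub_left, inner_smul_left]
    simp only [conj_trivial]
    linarith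
  have key : ∀ c c' : E2, 0 < ‖c' - c‖ → ‖c' - c‖ < 2 → p = X 1 c c' →
      0 ≤ inner ℝ (p - (1 / 2 : ℝ) • (c + c')) e → 0 ≤ inner ℝ e (J (c' - c)) := by
    intro c c' hc hc2 hp hge
    have hH : 0 < Real.sqrt (1 ^ 2 - ‖c' - c‖ ^ 2 / 4) := Real.sqrt_pos.2 (by nlinarith)
    have e1 : p - (1 / 2 : ℝ) • (c + c') =
        (Real.sqrt (1 ^ 2 - ‖c' - c‖ ^ 2 / 4) / ‖c' - c‖) • J (c' - c) := by
      rw [hp, X]; abel
    rw [e1, inner_smul_left, real_inner_comm] at hge
    simp only [conj_trivial] at hge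
    have hpos : 0 < Real.sqrt (1 ^ 2 - ‖c' - c‖ ^ 2 / 4) / ‖c' - c‖ := div_pos hH hc
    by_contra hcon
    have := mul_neg_of_pos_of_neg hpos (not_le.1 hcon)
    linarith
  rcases two_points 1 v v' p hz s1 s2 with hp | hp
  · exact ⟨v, v', Or.inl ⟨rfl, rfl⟩, hne, hp, hbound, key v v' hz hvv hp hm⟩
  · have hrn : ‖v - v'‖ = ‖v' - v‖ := norm_sub_rev _ _
    refine ⟨v', v, Or.inr ⟨rfl, rfl⟩, hne.symm, hp, ?_, ?_⟩
    · rw [hrn, hrev, inner_neg_right, abs_neg]; exact hbound
    · exact key v' v (by rw [hrn]; exact hz) (by rw [hrn]; exact hvv) hp (by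
        rw [add_comm v' v]; exact hm)

/-- Reduction of a support point to a pair of disks. -/
lemma helly_pair (V : Finset E2) (hV : V.Nonempty) (p e : E2)
    (hp : p ∈ Din (V : Set E2) 1)
    (hs : ∀ x ∈ Din (V : Set E2) 1, inner ℝ x e ≤ inner ℝ p e) :
    ∃ v ∈ V, ∃ v' ∈ V, ∀ x, ‖x - v‖ ≤ 1 → ‖x - v'‖ ≤ 1 → inner ℝ x e ≤ inner ℝ p e := by
  classical
  by_contra hcon
  have hcon : ∀ v ∈ V, ∀ v' ∈ V, ∃ x, ‖x - v‖ ≤ 1 ∧ ‖x - v'‖ ≤ 1 ∧ inner ℝ p e < inner ℝ x e := by
    intro v hv v' hv'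
    by_contra h
    apply hcon
    refine ⟨v, hv, v', hv', ?_⟩
    intro x h1 h2
    by_contra h3
    exact h ⟨x, h1, h2, not_le.1 h3⟩
  let F : Option E2 → Set E2 := fun o => match o with
    | none => {x | inner ℝ p e < inner ℝ x e}
    | some v => Metric.closedBall v 1
  have hF0 : F none = {x | inner ℝ p e < inner ℝ x e} := rfl
  have hF1 : ∀ v, F (some v) = Metric.closedBall v 1 := fun v => rfl
  have h := Convex.helly_theorem' (𝕜 := ℝ) (F := F) (s := insert none (V.image some)) (by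
    intro o _
    cases o with
    | none =>
      rw [hF0]
      have : Convex ℝ {x : E2 | inner ℝ p e < (innerSL ℝ e) x} :=
        convex_halfSpace_gt (innerSL ℝ e).isLinear _
      simpa [real_inner_comm] using this
    | some v => rw [hF1]; exact convex_closedBall _ _) (by
    intro I hI hcard
    have hfin : Module.finrank ℝ E2 = 2 := by simp [E2]
    rw [hfin] at hcard
    -- the balls in I
    by_cases hn : none ∈ I
    · obtain ⟨v0, hv0⟩ := hV
      have hI' : (I.erase none).card ≤ 2 := by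
        rw [Finset.card_erase_of_mem hn]; omega
      obtain ⟨v, hv, v', hv', hsub⟩ : ∃ v ∈ V, ∃ v' ∈ V, ∀ o ∈ I.erase none,
          o = some v ∨ o = some v' := by
        have hmem : ∀ o ∈ I.erase none, ∃ v ∈ V, o = some v := by
          intro o ho
          rw [Finset.mem_erase] at ho
          have := hI ho.2
          rw [Finset.mem_insert, Finset.mem_image] at this
          rcases this with h | ⟨v, hv, h⟩
          · exact absurd h ho.1
          · exact ⟨v, hv, h.symm⟩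
        rcases (I.erase none).eq_empty_or_nonempty with h | ⟨o, ho⟩
        · exact ⟨v0, hv0, v0, hv0, by intro o ho; rw [h] at ho; simp at ho⟩
        · obtain ⟨v, hv, hov⟩ := hmem o ho
          have hc2 : ((I.erase none).erase o).card ≤ 1 := by
            rw [Finset.card_erase_of_mem ho]; omega
          rcases ((I.erase none).erase o).eq_empty_or_nonempty with h | ⟨o', ho'⟩
          · refine ⟨v, hv, v, hv, ?_⟩
            intro o'' ho''
            by_cases h3 : o'' = o
            · left; rw [h3, hov]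
            · have : o'' ∈ (I.erase none).erase o := Finset.mem_erase.2 ⟨h3, ho''⟩
              rw [h] at this; simp at this
          · obtain ⟨v', hv', hov'⟩ := hmem o' (Finset.mem_of_mem_erase ho')
            refine ⟨v, hv, v', hv', ?_⟩
            intro o'' ho''
            by_cases h3 : o'' = o
            · left; rw [h3, hov]
            · right
              have h4 : o'' ∈ (I.erase none).erase o := Finset.mem_erase.2 ⟨h3, ho''⟩
              rw [← hov']
              exact Finset.card_le_one.1 hc2 _ h4 _ ho'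
      obtain ⟨x, h1, h2, h3⟩ := hcon v hv v' hv'
      refine ⟨x, ?_⟩
      rw [Set.mem_iInter₂]
      intro o ho
      by_cases hon : o = none
      · rw [hon, hF0]; exact h3
      · rcases hsub o (Finset.mem_erase.2 ⟨hon, ho⟩) with h | h
        · rw [h, hF1, Metric.mem_closedBall, dist_eq_norm]; exact h1
        · rw [h, hF1, Metric.mem_closedBall, dist_eq_norm]; exact h2
    · refine ⟨p, ?_⟩
      rw [Set.mem_iInter₂]
      intro o ho
      have := hI ho
      rw [Finset.mem_insert, Finset.mem_image] at this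
      rcases this with h | ⟨v, hv, h⟩
      · rw [h] at ho; exact absurd ho hn
      · rw [← h, hF1, Metric.mem_closedBall, dist_eq_norm]
        exact hp v (by simpa using hv))
  obtain ⟨x, hx⟩ := h
  rw [Set.mem_iInter₂] at hx
  have h1 : inner ℝ p e < inner ℝ x e := hx none (Finset.mem_insert_self _ _)
  have h2 : x ∈ Din (V : Set E2) 1 := by
    intro c hc
    have := hx (some c) (Finset.mem_insert_of_mem (Finset.mem_image_of_mem _ (by simpa using hc)))
    rwa [hF1, Metric.mem_closedBall, dist_eq_norm] at this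
  have := hs x h2
  linarith

/-- Every direction which is not on an arc lies in the normal cone of a corner. -/
lemma cover (V : Finset E2) (hV : V.Nonempty) (hd : ∀ v ∈ V, ∀ v' ∈ V, ‖v' - v‖ < 2) (p e : E2)
    (he : ‖e‖ = 1) (hp : p ∈ Din (V : Set E2) 1)
    (hs : ∀ x ∈ Din (V : Set E2) 1, inner ℝ x e ≤ inner ℝ p e)
    (hno : ∀ v ∈ V, p - v ≠ e) :
    ∃ c ∈ V, ∃ c' ∈ V, c ≠ c' ∧ p = X 1 c c' ∧
      |inner ℝ e (c' - c)| ≤ ‖c' - c‖ ^ 2 / 2 ∧ 0 ≤ inner ℝ e (J (c' - c)) := by
  obtain ⟨v, hv, v', hv', hmax⟩ := helly_pair V hV p e hp hs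
  obtain ⟨c, c', hcc, h1, h2, h3, h4⟩ := lens v v' p e (hd v hv v' hv') he
    (hp v (by simpa using hv)) (hp v' (by simpa using hv')) hmax (hno v hv) (hno v' hv')
  rcases hcc with ⟨rfl, rfl⟩ | ⟨rfl, rfl⟩
  · exact ⟨c, hv, c', hv', h1, h2, h3, h4⟩
  · exact ⟨c, hv', c', hv, h1, h2, h3, h4⟩

end Pool.Agent.Helper717.Cover
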