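import Pool.Agent.Helper717.Arc

set_option autoImplicit false

namespace Pool.Agent.Helper717.Disk

open Set Pool.Agent.Helper717.Arc

lemma nsqJ (z : E2) : ‖J z‖ ^ 2 = ‖z‖ ^ 2 := by
  rw [nsq, nsq]; simp; ring

lemma ipJ (z : E2) : inner ℝ z (J z) = (0 : ℝ) := by
  rw [ip]; simp; ring

lemma J_neg (z : E2) : J (-z) = -J z := by
  ext i; fin_cases i <;> simp

/-- Parseval in the plane. -/
lemma pars (x z : E2) : ‖z‖ ^ 2 * ‖x‖ ^ 2 = inner ℝ x z ^ 2 + inner ℝ x (J z) ^ 2 := by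
  rw [nsq, nsq, ip, ip]; simp; ring

lemma pars2 (x y z : E2) : ‖z‖ ^ 2 * inner ℝ x y = inner ℝ x z * inner ℝ y z +
    inner ℝ x (J z) * inner ℝ y (J z) := by
  rw [nsq, ip, ip, ip, ip, ip]; simp; ring

lemma decomp (x z : E2) : (‖z‖ ^ 2) • x = (inner ℝ x z : ℝ) • z + (inner ℝ x (J z) : ℝ) • J z := by
  ext i
  fin_cases i
  · simp only [Fin.zero_eta, PiLp.smul_apply, PiLp.add_apply, smul_eq_mul]
    rw [nsq, ip, ip]; simp; ring
  · simp only [Fin.mk_one, PiLp.smul_apply, PiLp.add_apply, smul_eq_mul]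
    rw [nsq, ip, ip]; simp; ring

/-- The intersection point of the circles of radius `r` about `c` and `c'`. -/
noncomputable def X (r : ℝ) (c c' : E2) : E2 :=
  (1 / 2 : ℝ) • (c + c') + (Real.sqrt (r ^ 2 - ‖c' - c‖ ^ 2 / 4) / ‖c' - c‖) • J (c' - c)

/-- Distance to the intersection point. -/
lemma dX (r : ℝ) (c c' v : E2) (hz : 0 < ‖c' - c‖) (hr : ‖c' - c‖ ^ 2 / 4 ≤ r ^ 2) :
    ‖v - X r c c'‖ ^ 2 = ‖v - (1 / 2 : ℝ) • (c + c')‖ ^ 2
      - 2 * (Real.sqrt (r ^ 2 - ‖c' - c‖ ^ 2 / 4) / ‖c' - c‖) *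
        inner ℝ (v - (1 / 2 : ℝ) • (c + c')) (J (c' - c)) + (r ^ 2 - ‖c' - c‖ ^ 2 / 4) := by
  set q := v - (1 / 2 : ℝ) • (c + c') with hq
  set d := ‖c' - c‖ with hd
  have hs : Real.sqrt (r ^ 2 - d ^ 2 / 4) ^ 2 = r ^ 2 - d ^ 2 / 4 := Real.sq_sqrt (by linarith)
  have e1 : v - X r c c' = q - (Real.sqrt (r ^ 2 - d ^ 2 / 4) / d) • J (c' - c) := by
    simp only [X, hq, ← hd]; abel
  rw [e1, norm_sub_sq_real, inner_smul_right, norm_smul, mul_pow, nsqJ, ← hd, Real.norm_eq_abs,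
    sq_abs, div_pow, hs]
  field_simp

lemma half_sub (c c' : E2) : c - (1 / 2 : ℝ) • (c + c') = (-(1 / 2) : ℝ) • (c' - c) := by
  module

lemma half_sub' (c c' : E2) : c' - (1 / 2 : ℝ) • (c + c') = ((1 / 2) : ℝ) • (c' - c) := by
  module

lemma dXc (r : ℝ) (hr0 : 0 ≤ r) (c c' : E2) (hz : 0 < ‖c' - c‖) (hr : ‖c' - c‖ ^ 2 / 4 ≤ r ^ 2) :
    ‖c - X r c c'‖ = r := by
  have h := dX r c c' c hz hr
  rw [half_sub, inner_smul_left, ipJ, norm_smul, mul_pow] at h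
  have h2 : ‖c - X r c c'‖ ^ 2 = r ^ 2 := by
    rw [h]; simp; ring
  exact (pow_left_inj₀ (norm_nonneg _) hr0 two_ne_zero).1 h2

lemma dXc' (r : ℝ) (hr0 : 0 ≤ r) (c c' : E2) (hz : 0 < ‖c' - c‖) (hr : ‖c' - c‖ ^ 2 / 4 ≤ r ^ 2) :
    ‖c' - X r c c'‖ = r := by
  have h := dX r c c' c' hz hr
  rw [half_sub', inner_smul_left, ipJ, norm_smul, mul_pow] at h
  have h2 : ‖c' - X r c c'‖ ^ 2 = r ^ 2 := by
    rw [h]; simp; ring
  exact (pow_left_inj₀ (norm_nonneg _) hr0 two_ne_zero).1 h2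

/-- Two circles meet only in the two points `X`. -/
lemma two_points (r : ℝ) (c c' p : E2) (hz : 0 < ‖c' - c‖) (h1 : ‖p - c‖ = r)
    (h2 : ‖p - c'‖ = r) : p = X r c c' ∨ p = X r c' c := by
  set z := c' - c with hzz
  set d := ‖z‖ with hd
  set m := (1 / 2 : ℝ) • (c + c') with hm
  set q := p - m with hq
  have e1 : p - c = q + (1 / 2 : ℝ) • z := by rw [hq, hm, hzz]; module
  have e2 : p - c' = q - (1 / 2 : ℝ) • z := by rw [hq, hm, hzz]; module
  have n1 : ‖q + (1 / 2 : ℝ) • z‖ ^ 2 = r ^ 2 := by rw [← e1, h1]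
  have n2 : ‖q - (1 / 2 : ℝ) • z‖ ^ 2 = r ^ 2 := by rw [← e2, h2]
  rw [norm_add_sq_real, inner_smul_right, norm_smul, mul_pow] at n1
  rw [norm_sub_sq_real, inner_smul_right, norm_smul, mul_pow] at n2
  have i1 : inner ℝ q z = (0 : ℝ) := by linarith
  have i2 : ‖q‖ ^ 2 = r ^ 2 - d ^ 2 / 4 := by
    rw [i1] at n1
    simp only [← hd] at n1
    have : ‖(1 / 2 : ℝ)‖ ^ 2 = 1 / 4 := by norm_num
    rw [this] at n1
    linarith
  have hr : 0 ≤ r ^ 2 - d ^ 2 / 4 := by rw [← i2]; positivity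
  set H := Real.sqrt (r ^ 2 - d ^ 2 / 4) with hH
  have hH2 : H ^ 2 = r ^ 2 - d ^ 2 / 4 := Real.sq_sqrt hr
  have i3 := pars q z
  rw [i1, i2, ← hd, ← hH2] at i3
  have i4 : inner ℝ q (J z) = d * H ∨ inner ℝ q (J z) = -(d * H) := by
    apply sq_eq_sq_iff_eq_or_eq_neg.1
    nlinarith
  have i5 := decomp q z
  rw [i1, zero_smul, zero_add, ← hd] at i5
  have hd2 : d ^ 2 ≠ 0 := by positivity
  rcases i4 with h | h
  · left
    have : q = (H / d) • J z := by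
      rw [h] at i5
      have h6 : q = (d ^ 2)⁻¹ • ((d * H) • J z) := by
        rw [← i5, smul_smul, inv_mul_cancel₀ hd2, one_smul]
      rw [h6, smul_smul]
      congr 1
      field_simp
    have h7 : p = m + q := by rw [hq]; abel
    rw [h7, this]
    rfl
  · right
    have : q = (H / d) • J (-z) := by
      rw [h] at i5
      have h6 : q = (d ^ 2)⁻¹ • ((-(d * H)) • J z) := by
        rw [← i5, smul_smul, inv_mul_cancel₀ hd2, one_smul]
      rw [h6, smul_smul, J_neg, smul_neg, ← neg_smul]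
      congr 1
      field_simp
    have h7 : p = m + q := by rw [hq]; abel
    have h8 : c - c' = -z := by rw [hzz]; abel
    have h9 : ‖c - c'‖ = d := by rw [h8, norm_neg]
    rw [h7, this]
    simp only [X, h8, norm_neg, hm, add_comm c' c]
    rfl

lemma spin (a h r s p q : ℝ) (ha : 0 ≤ a) (hh : 0 ≤ h) (h1 : a ^ 2 + h ^ 2 = 1)
    (hx1 : r ^ 2 + (s - h) ^ 2 ≤ 1) (hx2 : r ^ 2 + (s + h) ^ 2 ≤ 1)
    (hc1 : (p - a) ^ 2 + q ^ 2 ≤ 1) (hc2 : (p + a) ^ 2 + q ^ 2 ≤ 1) :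
    (r - p) ^ 2 + (s - q) ^ 2 ≤ 1 := by
  have hA : |r| ^ 2 + (|s| + h) ^ 2 ≤ 1 := by
    rw [sq_abs]
    rcases abs_cases s with h | h
    · rw [h.1]; exact hx2
    · rw [h.1]; nlinarith
  have hB : (|p| + a) ^ 2 + |q| ^ 2 ≤ 1 := by
    rw [sq_abs]
    rcases abs_cases p with h | h
    · rw [h.1]; exact hc2
    · rw [h.1]; nlinarith
  have hR : |r| ≤ a := by
    apply abs_le_of_sq_le_sq' _ ha |>.2
    nlinarith [abs_nonneg s]
  have hQ : |q| ≤ h := by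
    apply abs_le_of_sq_le_sq' _ hh |>.2
    nlinarith [abs_nonneg p]
  have e1 : (r - p) ^ 2 ≤ (|r| + |p|) ^ 2 := by
    apply sq_le_sq'
    · have := neg_abs_le r; have := le_abs_self p; linarith
    · have := le_abs_self r; have := neg_abs_le p; linarith
  have e2 : (s - q) ^ 2 ≤ (|s| + |q|) ^ 2 := by
    apply sq_le_sq'
    · have := neg_abs_le s; have := le_abs_self q; linarith
    · have := le_abs_self s; have := neg_abs_le q; linarith
  have e3 : 0 ≤ (a - |r|) * |p| := mul_nonneg (by linarith) (abs_nonneg _)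
  have e4 : 0 ≤ |s| * (h - |q|) := mul_nonneg (abs_nonneg _) (by linarith)
  nlinarith

set_option maxHeartbeats 4000000 in
/-- Spindle duality. -/
lemma spindle (c c' v y : E2) (hz : 0 < ‖c' - c‖) (hd2 : ‖c' - c‖ ≤ 2)
    (h1 : ‖v - X 1 c c'‖ ≤ 1) (h2 : ‖v - X 1 c' c‖ ≤ 1) (h3 : ‖y - c‖ ≤ 1) (h4 : ‖y - c'‖ ≤ 1) :
    ‖y - v‖ ≤ 1 := by
  set z := c' - c with hzz
  set d := ‖z‖ with hd
  set m := (1 / 2 : ℝ) • (c + c') with hm
  have hr : d ^ 2 / 4 ≤ 1 ^ 2 := by nlinarith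
  have h8 : c - c' = -z := by rw [hzz]; abel
  have h9 : ‖c - c'‖ = d := by rw [h8, norm_neg]
  have hX1 := dX 1 c c' v hz hr
  have hX2 := dX 1 c' c v (by rw [h9]; exact hz) (by rw [h9]; exact hr)
  rw [add_comm c' c, h9, h8, J_neg, inner_neg_right, ← hm] at hX2
  rw [← hzz, ← hd, ← hm] at hX1
  set H := Real.sqrt (1 ^ 2 - d ^ 2 / 4) with hH
  have hH0 : 0 ≤ H := Real.sqrt_nonneg _
  have hH2 : H ^ 2 = 1 - d ^ 2 / 4 := by
    rw [hH, Real.sq_sqrt (by linarith)]; ring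
  have n1 : ‖v - X 1 c c'‖ ^ 2 ≤ 1 := by nlinarith [norm_nonneg (v - X 1 c c')]
  have n2 : ‖v - X 1 c' c‖ ^ 2 ≤ 1 := by nlinarith [norm_nonneg (v - X 1 c' c)]
  rw [hX1] at n1
  rw [hX2] at n2
  have e1 : y - c = (y - m) + (1 / 2 : ℝ) • z := by rw [hm, hzz]; module
  have e2 : y - c' = (y - m) - (1 / 2 : ℝ) • z := by rw [hm, hzz]; module
  have n3 : ‖y - c‖ ^ 2 ≤ 1 := by nlinarith [norm_nonneg (y - c)]
  have n4 : ‖y - c'‖ ^ 2 ≤ 1 := by nlinarith [norm_nonneg (y - c')]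
  have hhalf : ‖(1 / 2 : ℝ)‖ ^ 2 = 1 / 4 := by norm_num
  rw [e1, norm_add_sq_real, inner_smul_right, norm_smul, mul_pow, hhalf, ← hd] at n3
  rw [e2, norm_sub_sq_real, inner_smul_right, norm_smul, mul_pow, hhalf, ← hd] at n4
  have pv := pars (v - m) z
  have py := pars (y - m) z
  have pvy := pars (y - v) z
  have ey : y - v = (y - m) - (v - m) := by abel
  have iy1 : inner ℝ (y - v) z = inner ℝ (y - m) z - inner ℝ (v - m) z := by
    rw [ey, inner_sub_left]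
  have iy2 : inner ℝ (y - v) (J z) = inner ℝ (y - m) (J z) - inner ℝ (v - m) (J z) := by
    rw [ey, inner_sub_left]
  rw [iy1, iy2, ← hd] at pvy
  rw [← hd] at pv py
  have hHq : (1 : ℝ) ^ 2 - d ^ 2 / 4 = H ^ 2 := by rw [hH2]; ring
  set r := inner ℝ (v - m) z with hr'
  set s := inner ℝ (v - m) (J z) with hs'
  set p := inner ℝ (y - m) z with hp'
  set q := inner ℝ (y - m) (J z) with hq'
  have hdpos : 0 < d := hz
  -- rescale by d
  have k := spin (d / 2) H (r / d) (s / d) (p / d) (q / d) (by positivity) hH0 (by rw [hH2]; ring) (by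
      have : (r / d) ^ 2 + (s / d - H) ^ 2 = ‖v - m‖ ^ 2 - 2 * (H / d) * s + (1 ^ 2 - d ^ 2 / 4) := by
        have : ‖v - m‖ ^ 2 = (r ^ 2 + s ^ 2) / d ^ 2 := by
          rw [← pv]; field_simp
        rw [this, hHq]
        field_simp
        ring
      rw [this]; exact n1) (by
      have : (r / d) ^ 2 + (s / d + H) ^ 2 = ‖v - m‖ ^ 2 - 2 * (H / d) * -s + (1 ^ 2 - d ^ 2 / 4) := by
        have : ‖v - m‖ ^ 2 = (r ^ 2 + s ^ 2) / d ^ 2 := by
          rw [← pv]; field_simp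
        rw [this, hHq]
        field_simp
        ring
      rw [this]; exact n2) (by
      have : (p / d - d / 2) ^ 2 + (q / d) ^ 2 = ‖y - m‖ ^ 2 - 2 * (1 / 2 * p) + 1 / 4 * d ^ 2 := by
        have : ‖y - m‖ ^ 2 = (p ^ 2 + q ^ 2) / d ^ 2 := by
          rw [← py]; field_simp
        rw [this]
        field_simp
        ring
      rw [this]; exact n4) (by
      have : (p / d + d / 2) ^ 2 + (q / d) ^ 2 = ‖y - m‖ ^ 2 + 2 * (1 / 2 * p) + 1 / 4 * d ^ 2 := by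
        have : ‖y - m‖ ^ 2 = (p ^ 2 + q ^ 2) / d ^ 2 := by
          rw [← py]; field_simp
        rw [this]
        field_simp
        ring
      rw [this]; exact n3)
  have : ‖y - v‖ ^ 2 ≤ 1 := by
    have : ‖y - v‖ ^ 2 = (r / d - p / d) ^ 2 + (s / d - q / d) ^ 2 := by
      have h10 : ‖y - v‖ ^ 2 = ((p - r) ^ 2 + (q - s) ^ 2) / d ^ 2 := by
        rw [← pvy]; field_simp
      rw [h10]
      field_simp
      ring
    rw [this]; exact k
  nlinarith [norm_nonneg (y - v)]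

/-- The far intersection points see only their own centres at distance `t`. -/
lemma far (t : ℝ) (ht : 1 < t) (c c' v : E2) (hz : 0 < ‖c' - c‖) (hd2 : ‖c' - c‖ < 2)
    (hx : ‖v - X 1 c c'‖ ≤ 1)
    (hirr : ∃ y, ‖y - c‖ ≤ 1 ∧ ‖y - c'‖ ≤ 1 ∧ 1 < ‖y - v‖) :
    ‖v - X t c c'‖ < t := by
  set z := c' - c with hzz
  set d := ‖z‖ with hd
  set m := (1 / 2 : ℝ) • (c + c') with hm
  have hr : d ^ 2 / 4 < 1 := by nlinarith
  have hrt : d ^ 2 / 4 ≤ t ^ 2 := by nlinarith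
  have h8 : c - c' = -z := by rw [hzz]; abel
  have h9 : ‖c - c'‖ = d := by rw [h8, norm_neg]
  have hX1 := dX 1 c c' v hz (by linarith)
  have hX2 := dX 1 c' c v (by rw [h9]; exact hz) (by rw [h9]; linarith)
  have hXt := dX t c c' v hz hrt
  rw [add_comm c' c, h9, h8, J_neg, inner_neg_right, ← hm] at hX2
  rw [← hzz, ← hd, ← hm] at hX1 hXt
  set s := inner ℝ (v - m) (J z) with hs'
  have hH1 : 0 < Real.sqrt (1 ^ 2 - d ^ 2 / 4) := Real.sqrt_pos.2 (by linarith)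
  have hHt : Real.sqrt (1 ^ 2 - d ^ 2 / 4) < Real.sqrt (t ^ 2 - d ^ 2 / 4) := by
    apply Real.sqrt_lt_sqrt (by linarith)
    nlinarith
  set H1 := Real.sqrt (1 ^ 2 - d ^ 2 / 4)
  set Ht := Real.sqrt (t ^ 2 - d ^ 2 / 4)
  have n1 : ‖v - X 1 c c'‖ ^ 2 ≤ 1 := by nlinarith [norm_nonneg (v - X 1 c c')]
  have hspos : 0 < s := by
    by_contra hcon
    have hcon := not_lt.1 hcon
    have n2 : ‖v - X 1 c' c‖ ^ 2 ≤ 1 := by
      rw [hX2]
      rw [hX1] at n1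
      have : 0 ≤ 2 * (H1 / d) * (-s) := by
        have : 0 ≤ H1 / d := by positivity
        nlinarith
      linarith
    have n3 : ‖v - X 1 c' c‖ ≤ 1 := by nlinarith [norm_nonneg (v - X 1 c' c)]
    obtain ⟨y, hy1, hy2, hy3⟩ := hirr
    have := spindle c c' v y hz hd2.le hx n3 hy1 hy2
    linarith
  have h5 : ‖v - X t c c'‖ ^ 2 < t ^ 2 := by
    rw [hXt]
    rw [hX1] at n1
    have : 2 * (H1 / d) * s < 2 * (Ht / d) * s := by
      have : H1 / d < Ht / d := div_lt_div_of_pos_right hHt hz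
      nlinarith
    linarith
  exact lt_of_pow_lt_pow_left₀ 2 (by linarith) h5

/-- The normal cone at the far intersection point. -/
lemma cone (t : ℝ) (ht : 0 < t) (c c' e y : E2) (hz : 0 < ‖c' - c‖) (hd2 : ‖c' - c‖ < 2 * t)
    (he : ‖e‖ = 1) (h1 : |inner ℝ e (c' - c)| ≤ ‖c' - c‖ ^ 2 / (2 * t))
    (h2 : 0 ≤ inner ℝ e (J (c' - c))) (hy1 : ‖y - c‖ ≤ t) (hy2 : ‖y - c'‖ ≤ t) :
    inner ℝ y e ≤ inner ℝ (X t c c') e := by
  have hr : ‖c' - c‖ ^ 2 / 4 ≤ t ^ 2 := by nlinarith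
  have k1 := dXc t ht.le c c' hz hr
  have k2 := dXc' t ht.le c c' hz hr
  set Xt := X t c c' with hX
  have g : ∀ b : E2, ‖b - Xt‖ = t → ‖y - b‖ ≤ t → inner ℝ (y - Xt) (Xt - b) ≤ 0 := by
    intro b hb hyb
    have e1 : y - Xt = (y - b) - (Xt - b) := by abel
    have e2 : ‖Xt - b‖ = t := by rw [norm_sub_rev]; exact hb
    rw [e1, inner_sub_left, real_inner_self_eq_norm_sq, e2]
    have := real_inner_le_norm (y - b) (Xt - b)
    rw [e2] at this
    nlinarith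
  have g1 := g c k1 hy1
  have g2 := g c' k2 hy2
  set z := c' - c with hzz
  set d := ‖z‖ with hd
  set H := Real.sqrt (t ^ 2 - d ^ 2 / 4) with hH
  have hH2 : H ^ 2 = t ^ 2 - d ^ 2 / 4 := Real.sq_sqrt (by linarith)
  have hHpos : 0 < H := Real.sqrt_pos.2 (by nlinarith)
  have e1 : Xt - c = (1 / 2 : ℝ) • z + (H / d) • J z := by
    rw [hX, X, ← hzz, ← hd, ← hH, hzz]; module
  have e2 : Xt - c' = (-(1 / 2) : ℝ) • z + (H / d) • J z := by
    rw [hX, X, ← hzz, ← hd, ← hH, hzz]; module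
  rw [e1, inner_add_right, inner_smul_right, inner_smul_right] at g1
  rw [e2, inner_add_right, inner_smul_right, inner_smul_right] at g2
  set a := inner ℝ (y - Xt) z with ha
  set b := inner ℝ (y - Xt) (J z) with hb
  set A := inner ℝ e z with hA
  set B := inner ℝ e (J z) with hB
  have hp := pars e z
  rw [he, ← hd, ← hA, ← hB] at hp
  have h2p := pars2 (y - Xt) e z
  rw [← hd, ← ha, ← hb, ← hA, ← hB] at h2p
  -- |A| ≤ B d / (2 H)
  have hdpos : 0 < d := hz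
  have hA2 : A ^ 2 * (4 * t ^ 2) ≤ d ^ 4 := by
    have h3 : |A| * (2 * t) ≤ d ^ 2 := by rwa [le_div_iff₀ (by positivity)] at h1
    have h4 : (|A| * (2 * t)) ^ 2 ≤ (d ^ 2) ^ 2 := pow_le_pow_left₀ (by positivity) h3 2
    rw [mul_pow, sq_abs] at h4
    nlinarith
  have hA3 : |A| * (2 * H) ≤ B * d := by
    apply abs_le_of_sq_le_sq' _ (by positivity) |>.2
    rw [mul_pow, sq_abs]
    nlinarith
  -- final combination
  have hA4 := abs_le.1 (show |A| ≤ B * d / (2 * H) by rwa [le_div_iff₀ (by positivity)])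
  have hsum : d ^ 2 * inner ℝ (y - Xt) e = (1 / 2 * a + H / d * b) * (A + B * d / (2 * H)) +
      (-(1 / 2) * a + H / d * b) * (-A + B * d / (2 * H)) := by
    rw [h2p]
    field_simp
    ring
  have hneg : d ^ 2 * inner ℝ (y - Xt) e ≤ 0 := by
    rw [hsum]
    have m1 : (1 / 2 * a + H / d * b) * (A + B * d / (2 * H)) ≤ 0 :=
      mul_nonpos_of_nonpos_of_nonneg g1 (by linarith [hA4.1])
    have m2 : (-(1 / 2) * a + H / d * b) * (-A + B * d / (2 * H)) ≤ 0 :=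
      mul_nonpos_of_nonpos_of_nonneg g2 (by linarith [hA4.2])
    linarith
  have h6 : inner ℝ (y - Xt) e ≤ 0 := by
    by_contra hcon
    have := mul_pos (pow_pos hdpos 2) (not_le.1 hcon)
    linarith
  rw [inner_sub_left] at h6
  linarith

end Pool.Agent.Helper717.Disk
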