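import Pool.Agent.Helper717.Cover

set_option autoImplicit false

namespace Pool.Agent.Helper717.DiskPoly

open Set MeasureTheory Filter Pool.Agent.Helper717.Arc Pool.Agent.Helper717.Disk
  Pool.Agent.Helper717.Rounded Pool.Agent.Helper717.Cover Pool.Agent.Helper717.Perim
  Pool.Agent.Helper717.Circ
open scoped ENNReal NNReal Topology

/-- Jung, scaled. -/
lemma jung_scaled (C : Finset E2) (t : ℝ) (ht : 0 < t) (hd : ∀ c ∈ C, ∀ c' ∈ C, ‖c - c'‖ ≤ t) :
    ∃ x : E2, ∀ c ∈ C, ‖x - c‖ ≤ t / Real.sqrt 3 := by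
  classical
  obtain ⟨x, hx⟩ := Core2.jung (E := E2) (by simp [E2]) (C.image fun c => t⁻¹ • c) (by
    intro c hc c' hc'
    obtain ⟨b, hb, rfl⟩ := Finset.mem_image.1 hc
    obtain ⟨b', hb', rfl⟩ := Finset.mem_image.1 hc'
    rw [← smul_sub, norm_smul, norm_inv, Real.norm_eq_abs, abs_of_pos ht, inv_mul_le_iff₀ ht,
      mul_one]
    exact hd b hb b' hb')
  refine ⟨t • x, fun c hc => ?_⟩
  have h := hx _ (Finset.mem_image_of_mem _ hc)
  have e1 : t • x - c = -(t • (t⁻¹ • c - x)) := by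
    rw [smul_sub, smul_smul, mul_inv_cancel₀ ht.ne', one_smul]; abel
  rw [e1, norm_neg, norm_smul, Real.norm_eq_abs, abs_of_pos ht]
  calc t * ‖t⁻¹ • c - x‖ ≤ t * (1 / Real.sqrt 3) := mul_le_mul_of_nonneg_left h ht.le
    _ = t / Real.sqrt 3 := by ring

/-- An irredundant subfamily. -/
lemma irredundant (C : Finset E2) (hC : C.Nonempty) :
    ∃ V ⊆ C, V.Nonempty ∧ Din (V : Set E2) 1 = Din (C : Set E2) 1 ∧
      ∀ v ∈ V, ∃ y, (∀ w ∈ V, w ≠ v → ‖y - w‖ ≤ 1) ∧ 1 < ‖y - v‖ := by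
  classical
  have hne : (C.powerset.filter
      (fun V : Finset E2 => Din (V : Set E2) 1 = Din (C : Set E2) 1) : Finset (Finset E2)).Nonempty :=
    ⟨C, by simp⟩
  obtain ⟨V, hV, hmin⟩ := Finset.exists_min_image _ Finset.card hne
  rw [Finset.mem_filter, Finset.mem_powerset] at hV
  refine ⟨V, hV.1, ?_, hV.2, ?_⟩
  · by_contra hcon
    rw [Finset.not_nonempty_iff_eq_empty] at hcon
    obtain ⟨c, hc⟩ := hC
    have h1 : c + (2 : ℝ) • u 0 ∈ Din (V : Set E2) 1 := by
      rw [hcon]; intro b hb; simp at hb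
    rw [hV.2] at h1
    have h2 := h1 c (by simpa using hc)
    rw [add_sub_cancel_left, norm_smul, norm_u] at h2
    norm_num at h2
  · intro v hv
    by_contra hcon
    have h1 : Din ((V.erase v : Finset E2) : Set E2) 1 = Din (C : Set E2) 1 := by
      rw [← hV.2]
      ext y
      constructor
      · intro hy w hw
        by_cases hwv : w = v
        · by_contra h3
          apply hcon
          refine ⟨y, ?_, by rw [← hwv]; exact not_le.1 h3⟩
          intro w' hw' hne'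
          exact hy w' (by rw [Finset.mem_coe, Finset.mem_erase]; exact ⟨hne', hw'⟩)
        · exact hy w (by
            rw [Finset.mem_coe, Finset.mem_erase]; exact ⟨hwv, by simpa using hw⟩)
      · intro hy w hw
        apply hy w
        rw [Finset.mem_coe, Finset.mem_erase] at hw
        simpa using hw.2
    have h2 := hmin (V.erase v) (by
      rw [Finset.mem_filter, Finset.mem_powerset]
      exact ⟨(Finset.erase_subset _ _).trans hV.1, h1⟩)
    have h3 := Finset.card_erase_lt_of_mem hv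
    omega

/-- Existence of support points. -/
lemma exists_sup (V : Finset E2) (hV : V.Nonempty) (r : ℝ) (hD : (Din (V : Set E2) r).Nonempty)
    (e : E2) : ∃ p ∈ Din (V : Set E2) r, ∀ x ∈ Din (V : Set E2) r, inner ℝ x e ≤ inner ℝ p e := by
  have hc : IsCompact (Din (V : Set E2) r) := Din_compact (by simpa using hV)
  have hf : ContinuousOn (fun x : E2 => (inner ℝ x e : ℝ)) (Din (V : Set E2) r) := by fun_prop
  obtain ⟨p, hp, hmax⟩ := hc.exists_isMaxOn hD hf
  exact ⟨p, hp, fun x hx => hmax hx⟩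

/-- Lipschitz dependence of the support point. -/
lemma sup_lip (V : Finset E2) (hV : V.Nonempty) (r : ℝ) (hr : 0 ≤ r) (p p' e e' : E2)
    (he : ‖e‖ = 1) (he' : ‖e'‖ = 1) (hp : p ∈ Din (V : Set E2) r) (hp' : p' ∈ Din (V : Set E2) r)
    (hs : ∀ x ∈ Din (V : Set E2) r, inner ℝ x e ≤ inner ℝ p e)
    (hs' : ∀ x ∈ Din (V : Set E2) r, inner ℝ x e' ≤ inner ℝ p' e') :
    ‖p - p'‖ ≤ r * ‖e - e'‖ := by
  have hVs : (V : Set E2).Nonempty := by simpa using hV
  have h1 := slideρ (V : Set E2) hVs r hr p hp e he hs p' hp'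
  have h2 := slideρ (V : Set E2) hVs r hr p' hp' e' he' hs' p hp
  have e1 : p' - p = -(p - p') := by abel
  rw [e1, norm_neg] at h1
  rw [e1, inner_neg_left] at h2
  have h3 := real_inner_le_norm (p - p') (e - e')
  rw [inner_sub_right] at h3
  have h4 : ‖p - p'‖ * ‖p - p'‖ ≤ r * ‖e - e'‖ * ‖p - p'‖ := by nlinarith
  by_cases h0 : ‖p - p'‖ = 0
  · rw [h0]; positivity
  · exact le_of_mul_le_mul_right h4 (lt_of_le_of_ne (norm_nonneg _) (Ne.symm h0))

lemma frontier_arc (V : Finset E2) (v : E2) (hv : v ∈ V) (θ : ℝ)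
    (h : v + u θ ∈ Din (V : Set E2) 1) : v + u θ ∈ frontier (Din (V : Set E2) 1) := by
  rw [(Din_closed (S := (V : Set E2)) (ρ := 1)).frontier_eq]
  refine ⟨h, ?_⟩
  intro hp
  rw [mem_interior_iff_mem_nhds, Metric.mem_nhds_iff] at hp
  obtain ⟨r, hr, hball⟩ := hp
  have h1 : v + u θ + (r / 2) • u θ ∈ Din (V : Set E2) 1 := by
    apply hball
    rw [Metric.mem_ball, dist_eq_norm, add_sub_cancel_left, norm_smul, norm_u, mul_one,
      Real.norm_eq_abs, abs_of_pos (by linarith)]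
    linarith
  have h2 := h1 v (by simpa using hv)
  have e1 : v + u θ + (r / 2) • u θ - v = (1 + r / 2) • u θ := by module
  rw [e1, norm_smul, norm_u, mul_one, Real.norm_eq_abs, abs_of_pos (by linarith)] at h2
  linarith

/-- Lower bound for the perimeter by the arcs. -/
lemma perimeter_ge (V : Finset E2) :
    ∑ v ∈ V, volume ({θ : ℝ | v + u θ ∈ Din (V : Set E2) 1} ∩ Ioc 0 (2 * Real.pi)) ≤
      Measure.hausdorffMeasure 1 (frontier (Din (V : Set E2) 1)) := by
  set Θ : E2 → Set ℝ := fun v => {θ : ℝ | v + u θ ∈ Din (V : Set E2) 1} ∩ Ioc 0 (2 * Real.pi)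
    with hΘ
  have hcont : ∀ v : E2, Continuous fun θ => v + u θ := fun v => continuous_const.add u_cont
  have hΘm : ∀ v, MeasurableSet (Θ v) := by
    intro v
    apply MeasurableSet.inter _ measurableSet_Ioc
    exact ((Din_closed (S := (V : Set E2)) (ρ := 1)).preimage (hcont v)).measurableSet
  have hinj : ∀ v, InjOn (fun θ => v + u θ) (Θ v) := by
    intro v x hx y hy hxy
    exact u_inj hx.2 hy.2 (add_left_cancel hxy)
  have := Measure.nullSingletonClass_hausdorff E2 (zero_lt_one (α := ℝ))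
  calc ∑ v ∈ V, volume (Θ v)
      ≤ ∑ v ∈ V, Measure.hausdorffMeasure 1 ((fun θ => v + u θ) '' Θ v) :=
        Finset.sum_le_sum fun v _ => arc_measure v (Θ v) (hΘm v) inter_subset_right
    _ = Measure.hausdorffMeasure 1 (⋃ v ∈ V, (fun θ => v + u θ) '' Θ v) := by
        rw [measure_biUnion_finset₀]
        · intro v hv w hw hvw
          have hv' : v ∈ V := by simpa using hv
          have hw' : w ∈ V := by simpa using hw
          have hsub : ((fun θ => v + u θ) '' Θ v) ∩ ((fun θ => w + u θ) '' Θ w) ⊆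
              {X 1 v w, X 1 w v} := by
            rintro p ⟨⟨a, ha, hpa⟩, ⟨b, hb, hpb⟩⟩
            simp only at hpa hpb
            have h1 : ‖p - v‖ = 1 := by rw [← hpa, add_sub_cancel_left, norm_u]
            have h2 : ‖p - w‖ = 1 := by rw [← hpb, add_sub_cancel_left, norm_u]
            have hz : 0 < ‖w - v‖ := norm_pos_iff.2 (sub_ne_zero.2 hvw.symm)
            exact two_points 1 v w p hz h1 h2
          have hfin : (((fun θ => v + u θ) '' Θ v) ∩ ((fun θ => w + u θ) '' Θ w)).Finite :=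
            (Set.toFinite {X 1 v w, X 1 w v}).subset hsub
          exact hfin.measure_zero _
        · intro v _
          exact ((hΘm v).image_of_continuousOn_injOn (hcont v).continuousOn
            (hinj v)).nullMeasurableSet
    _ ≤ _ := by
        apply measure_mono
        apply Set.iUnion₂_subset
        rintro v hv _ ⟨θ, hθ, rfl⟩
        exact frontier_arc V v hv θ hθ.1

/-- The main estimate for `t > 1`. -/
theorem main (t : ℝ) (ht1 : 1 < t) (ht2 : t < Real.sqrt 3) (C : Finset E2) (hC : C.Nonempty)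
    (hd : ∀ x ∈ C, ∀ y ∈ C, ‖x - y‖ ≤ t) :
    ENNReal.ofReal (2 * Real.pi - 6 * Real.arcsin (t / 2)) ≤
      Measure.hausdorffMeasure 1 (frontier (Din (C : Set E2) 1)) := by
  classical
  have hpi := Real.pi_pos
  have h3 : (0 : ℝ) < Real.sqrt 3 := by positivity
  have ht0 : 0 < t := by linarith
  have ht22 : t < 2 := by
    have : Real.sqrt 3 < 2 := by
      rw [Real.sqrt_lt' (by norm_num)]; norm_num
    linarith
  obtain ⟨V, hVC, hV, hDin, hirr⟩ := irredundant C hC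
  rw [← hDin]
  have hVd : ∀ x ∈ V, ∀ y ∈ V, ‖x - y‖ ≤ t := fun x hx y hy => hd x (hVC hx) y (hVC hy)
  have hVd2 : ∀ v ∈ V, ∀ v' ∈ V, ‖v' - v‖ < 2 := fun v hv v' hv' =>
    (hVd v' hv' v hv).trans_lt ht22
  have hne1 : (Din (V : Set E2) 1).Nonempty := by
    obtain ⟨x, hx⟩ := jung_scaled V t ht0 hVd
    refine ⟨x, fun c hc => (hx c (by simpa using hc)).trans ?_⟩
    rw [div_le_one h3]; exact ht2.le
  have hnet : (Din (V : Set E2) t).Nonempty := by
    obtain ⟨x, hx⟩ := hne1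
    exact ⟨x, fun c hc => (hx c hc).trans ht1.le⟩
  -- support maps
  choose p1 hp1 hs1 using fun e => exists_sup V hV 1 hne1 e
  choose pt hpt hst using fun e => exists_sup V hV t hnet e
  set P : ℝ → E2 := fun θ => pt (u θ) with hP
  have hlip : ∀ a b, ‖P a - P b‖ ≤ t * ‖u a - u b‖ := fun a b =>
    sup_lip V hV t ht0.le _ _ _ _ (norm_u a) (norm_u b) (hpt _) (hpt _) (hst _) (hst _)
  have huniq : ∀ θ x, x ∈ Din (V : Set E2) t → (∀ y ∈ Din (V : Set E2) t,
      inner ℝ y (u θ) ≤ inner ℝ x (u θ)) → P θ = x := by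
    intro θ x hx hsx
    have := sup_lip V hV t ht0.le (P θ) x (u θ) (u θ) (norm_u θ) (norm_u θ) (hpt _) hx (hst _) hsx
    rw [sub_self, norm_zero, mul_zero] at this
    exact sub_eq_zero.1 (norm_le_zero_iff.1 this)
  -- the pairs
  set Q : Finset (E2 × E2) := (V ×ˢ V).filter fun c => c.1 ≠ c.2 ∧ X 1 c.1 c.2 ∈ Din (V : Set E2) 1
    with hQ
  have hQm : ∀ c ∈ Q, c.1 ∈ V ∧ c.2 ∈ V ∧ c.1 ≠ c.2 ∧ X 1 c.1 c.2 ∈ Din (V : Set E2) 1 := by
    intro c hc
    rw [hQ, Finset.mem_filter, Finset.mem_product] at hc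
    exact ⟨hc.1.1, hc.1.2, hc.2.1, hc.2.2⟩
  have hQz : ∀ c ∈ Q, 0 < ‖c.2 - c.1‖ := fun c hc =>
    norm_pos_iff.2 (sub_ne_zero.2 (hQm c hc).2.2.1.symm)
  have hQt : ∀ c ∈ Q, ‖c.2 - c.1‖ ≤ t := fun c hc => hVd _ (hQm c hc).2.1 _ (hQm c hc).1
  have hfar : ∀ c ∈ Q, ∀ v ∈ V, v ≠ c.1 → v ≠ c.2 → ‖v - X t c.1 c.2‖ < t := by
    intro c hc v hv h1 h2
    obtain ⟨a1, a2, a3, a4⟩ := hQm c hc
    apply far t ht1 c.1 c.2 v (hQz c hc) (hVd2 _ a1 _ a2)
    · rw [norm_sub_rev]; exact a4 v (by simpa using hv)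
    · obtain ⟨y, hy1, hy2⟩ := hirr v hv
      exact ⟨y, hy1 _ a1 h1.symm, hy1 _ a2 h2.symm, hy2⟩
  have hc1 : ∀ c ∈ Q, ‖c.1 - X t c.1 c.2‖ = t := fun c hc =>
    dXc t ht0.le _ _ (hQz c hc) (by nlinarith [hQt c hc, hQz c hc])
  have hc2 : ∀ c ∈ Q, ‖c.2 - X t c.1 c.2‖ = t := fun c hc =>
    dXc' t ht0.le _ _ (hQz c hc) (by nlinarith [hQt c hc, hQz c hc])
  have hXt : ∀ c ∈ Q, X t c.1 c.2 ∈ Din (V : Set E2) t := by
    intro c hc v hv
    have hv' : v ∈ V := by simpa using hv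
    rw [norm_sub_rev]
    by_cases h1 : v = c.1
    · rw [h1]; exact (hc1 c hc).le
    by_cases h2 : v = c.2
    · rw [h2]; exact (hc2 c hc).le
    exact (hfar c hc v hv' h1 h2).le
  -- the open normal arcs at level t
  set S : E2 × E2 → Set ℝ := fun c => {θ : ℝ | 0 < inner ℝ (u θ) (J (c.2 - c.1)) ∧
    |inner ℝ (u θ) (c.2 - c.1)| < (‖c.2 - c.1‖ / (2 * t)) * ‖c.2 - c.1‖} with hS
  have hSo : ∀ c, IsOpen (S c) := fun c => open_open _ _
  have hSP : ∀ c ∈ Q, ∀ θ ∈ S c, P θ = X t c.1 c.2 := by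
    intro c hc θ hθ
    apply huniq θ _ (hXt c hc)
    intro y hy
    obtain ⟨a1, a2, _, _⟩ := hQm c hc
    apply cone t ht0 c.1 c.2 (u θ) y (hQz c hc) (by linarith [hQt c hc]) (norm_u θ) _ hθ.1.le
      (hy _ (by simpa using a1)) (hy _ (by simpa using a2))
    have := hθ.2.le
    have e1 : ‖c.2 - c.1‖ / (2 * t) * ‖c.2 - c.1‖ = ‖c.2 - c.1‖ ^ 2 / (2 * t) := by ring
    rwa [e1] at this
  have hdisj : ∀ c ∈ Q, ∀ b ∈ Q, c ≠ b → Disjoint (S c) (S b) := by
    intro c hc b hb hcb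
    rw [Set.disjoint_left]
    intro θ h1 h2
    have e1 := (hSP c hc θ h1).symm.trans (hSP b hb θ h2)
    obtain ⟨a1, a2, a3, a4⟩ := hQm c hc
    obtain ⟨b1, b2, b3, b4⟩ := hQm b hb
    have k1 : b.1 = c.1 ∨ b.1 = c.2 := by
      by_contra hcon
      rw [not_or] at hcon
      have := hfar c hc b.1 b1 hcon.1 hcon.2
      rw [e1, hc1 b hb] at this
      exact lt_irrefl _ this
    have k2 : b.2 = c.1 ∨ b.2 = c.2 := by
      by_contra hcon
      rw [not_or] at hcon
      have := hfar c hc b.2 b2 hcon.1 hcon.2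
      rw [e1, hc2 b hb] at this
      exact lt_irrefl _ this
    rcases k1 with k1 | k1 <;> rcases k2 with k2 | k2
    · exact b3 (k1.trans k2.symm)
    · exact hcb (Prod.ext k1.symm k2.symm)
    · have h3 := h1.1
      have h4 := h2.1
      rw [k1, k2] at h4
      have e2 : c.1 - c.2 = -(c.2 - c.1) := by abel
      rw [e2, J_neg, inner_neg_right] at h4
      linarith
    · exact b3 (k1.trans k2.symm)
  have hU : volume ((⋃ c ∈ Q, S c) ∩ Ioc 0 (2 * Real.pi)) ≤ ENNReal.ofReal Real.pi := by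
    apply perim P t ht0 _ hlip _ _ (isOpen_biUnion fun c _ => hSo c)
    · intro θ hθ
      rw [mem_iUnion₂] at hθ
      obtain ⟨c, hc, hθc⟩ := hθ
      filter_upwards [(hSo c).mem_nhds hθc] with s hs
      rw [hSP c hc s hs, hSP c hc θ hθc]
    · simp only [hP]
      have := u_per 0
      rw [zero_add] at this
      rw [this]
    · intro θ
      -- the width is at least t
      have hVs : (V : Set E2).Nonempty := by simpa using hV
      have hVin : ∀ v ∈ V, v ∈ Din (V : Set E2) t := fun v hv w hw =>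
        hVd v hv w (by simpa using hw)
      have hmem : P θ - t • u θ ∈ Din (V : Set E2) t := by
        intro v hv
        have hv' : v ∈ V := by simpa using hv
        have h1 := slideρ (V : Set E2) hVs t ht0.le (P θ) (hpt _) (u θ) (norm_u θ) (hst _) v
          (hVin v hv')
        have e1 : P θ - t • u θ - v = (P θ - v) - t • u θ := by abel
        have h2 : ‖(P θ - v) - t • u θ‖ ^ 2 ≤ t ^ 2 := by
          rw [norm_sub_sq_real, inner_smul_right, norm_smul, norm_u, mul_one, Real.norm_eq_abs,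
            sq_abs]
          rw [norm_sub_rev] at h1
          linarith
        rw [e1]
        exact le_of_sq_le_sq h2 ht0.le
      have h1 := hst (u (θ + Real.pi)) _ hmem
      rw [u_pi] at h1 ⊢
      rw [inner_neg_right, inner_sub_left, inner_smul_left, real_inner_self_eq_norm_sq,
        norm_u] at h1
      have e1 : P (θ + Real.pi) = pt (-u θ) := by simp only [hP]; rw [u_pi]
      rw [e1]
      simp only [conj_trivial] at h1
      linarith
  have hsumt : ∑ c ∈ Q, ENNReal.ofReal (2 * Real.arcsin (‖c.2 - c.1‖ / (2 * t))) ≤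
      ENNReal.ofReal Real.pi := by
    refine le_trans ?_ hU
    rw [iUnion₂_inter, measure_biUnion_finset]
    · apply Finset.sum_le_sum
      intro c hc
      apply N_ge
      · exact norm_pos_iff.1 (hQz c hc)
      · have := hQz c hc; positivity
      · rw [div_le_one (by positivity)]
        linarith [hQt c hc]
    · intro c hc b hb hcb
      exact (hdisj c (by simpa using hc) b (by simpa using hb) hcb).mono inter_subset_left
        inter_subset_left
    · intro c _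
      exact (hSo c).measurableSet.inter measurableSet_Ioc
  -- level 1
  set N : E2 × E2 → Set ℝ := fun c => {θ : ℝ | 0 ≤ inner ℝ (u θ) (J (c.2 - c.1)) ∧
    |inner ℝ (u θ) (c.2 - c.1)| ≤ (‖c.2 - c.1‖ / 2) * ‖c.2 - c.1‖} with hN
  have hcover : Ioc 0 (2 * Real.pi) ⊆
      (⋃ v ∈ V, {θ : ℝ | v + u θ ∈ Din (V : Set E2) 1} ∩ Ioc 0 (2 * Real.pi)) ∪
      (⋃ c ∈ Q, N c ∩ Ioc 0 (2 * Real.pi)) := by
    intro θ hθ
    by_cases hex : ∃ v ∈ V, p1 (u θ) - v = u θ
    · left
      obtain ⟨v, hv, hvθ⟩ := hex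
      rw [mem_iUnion₂]
      refine ⟨v, hv, ?_, hθ⟩
      have : v + u θ = p1 (u θ) := (sub_eq_iff_eq_add'.1 hvθ).symm
      rw [mem_ofPred_eq, this]
      exact hp1 _
    · right
      obtain ⟨c, hc, c', hc', hne, hX, hb1, hb2⟩ := cover V hV hVd2 (p1 (u θ)) (u θ) (norm_u θ)
        (hp1 _) (hs1 _) (fun v hv h => hex ⟨v, hv, h⟩)
      rw [mem_iUnion₂]
      refine ⟨(c, c'), ?_, ⟨hb2, ?_⟩, hθ⟩
      · rw [hQ, Finset.mem_filter, Finset.mem_product]
        exact ⟨⟨hc, hc'⟩, hne, by simp only; rw [← hX]; exact hp1 _⟩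
      · simp only
        have e1 : ‖c' - c‖ / 2 * ‖c' - c‖ = ‖c' - c‖ ^ 2 / 2 := by ring
        rw [e1]; exact hb1
  have hmeas : ENNReal.ofReal (2 * Real.pi) ≤
      Measure.hausdorffMeasure 1 (frontier (Din (V : Set E2) 1)) +
      ∑ c ∈ Q, ENNReal.ofReal (2 * Real.arcsin (‖c.2 - c.1‖ / 2)) := by
    calc ENNReal.ofReal (2 * Real.pi) = volume (Ioc 0 (2 * Real.pi)) := by
          rw [Real.volume_Ioc, sub_zero]
      _ ≤ volume ((⋃ v ∈ V, {θ : ℝ | v + u θ ∈ Din (V : Set E2) 1} ∩ Ioc 0 (2 * Real.pi)) ∪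
          (⋃ c ∈ Q, N c ∩ Ioc 0 (2 * Real.pi))) := measure_mono hcover
      _ ≤ volume (⋃ v ∈ V, {θ : ℝ | v + u θ ∈ Din (V : Set E2) 1} ∩ Ioc 0 (2 * Real.pi)) +
          volume (⋃ c ∈ Q, N c ∩ Ioc 0 (2 * Real.pi)) := measure_union_le _ _
      _ ≤ (∑ v ∈ V, volume ({θ : ℝ | v + u θ ∈ Din (V : Set E2) 1} ∩ Ioc 0 (2 * Real.pi))) +
          ∑ c ∈ Q, volume (N c ∩ Ioc 0 (2 * Real.pi)) := by
          gcongr
          · exact measure_biUnion_finset_le _ _
          · exact measure_biUnion_finset_le _ _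
      _ ≤ _ := by
          gcongr with c hc
          · exact perimeter_ge V
          · exact N_le _ (norm_pos_iff.1 (hQz c hc)) _
  -- real inequality
  have hnn1 : ∀ c ∈ Q, 0 ≤ 2 * Real.arcsin (‖c.2 - c.1‖ / 2) := fun c hc => by
    have := Real.arcsin_nonneg.2 (show 0 ≤ ‖c.2 - c.1‖ / 2 by have := hQz c hc; positivity)
    linarith
  have hnnt : ∀ c ∈ Q, 0 ≤ 2 * Real.arcsin (‖c.2 - c.1‖ / (2 * t)) := fun c hc => by
    have := Real.arcsin_nonneg.2 (show 0 ≤ ‖c.2 - c.1‖ / (2 * t) by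
      have := hQz c hc; positivity)
    linarith
  rw [← ENNReal.ofReal_sum_of_nonneg hnnt] at hsumt
  have hB : ∑ c ∈ Q, 2 * Real.arcsin (‖c.2 - c.1‖ / (2 * t)) ≤ Real.pi :=
    (ENNReal.ofReal_le_ofReal_iff hpi.le).1 hsumt
  rw [← ENNReal.ofReal_sum_of_nonneg hnn1] at hmeas
  have hA0 : 0 ≤ Real.arcsin (t / 2) := Real.arcsin_nonneg.2 (by linarith)
  have hA : ∑ c ∈ Q, 2 * Real.arcsin (‖c.2 - c.1‖ / 2) ≤ 6 * Real.arcsin (t / 2) := by
    have h1 : ∑ c ∈ Q, 2 * Real.arcsin (‖c.2 - c.1‖ / 2) ≤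
        ∑ c ∈ Q, (6 / Real.pi * Real.arcsin (t / 2)) *
          (2 * Real.arcsin (‖c.2 - c.1‖ / (2 * t))) := by
      apply Finset.sum_le_sum
      intro c hc
      have h2 := ratio t (‖c.2 - c.1‖ / (2 * t)) ht1.le ht22.le
        (by have := hQz c hc; positivity) (by
          rw [div_le_div_iff₀ (by positivity) (by norm_num)]
          linarith [hQt c hc])
      have e1 : t * (‖c.2 - c.1‖ / (2 * t)) = ‖c.2 - c.1‖ / 2 := by field_simp
      rw [e1] at h2
      linarith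
    have h5 : ∑ c ∈ Q, (6 / Real.pi * Real.arcsin (t / 2)) *
          (2 * Real.arcsin (‖c.2 - c.1‖ / (2 * t))) = (6 / Real.pi * Real.arcsin (t / 2)) *
        ∑ c ∈ Q, 2 * Real.arcsin (‖c.2 - c.1‖ / (2 * t)) := (Finset.mul_sum _ _ _).symm
    rw [h5] at h1
    have h2 : (6 / Real.pi * Real.arcsin (t / 2)) *
        ∑ c ∈ Q, 2 * Real.arcsin (‖c.2 - c.1‖ / (2 * t)) ≤
        (6 / Real.pi * Real.arcsin (t / 2)) * Real.pi :=
      mul_le_mul_of_nonneg_left hB (by positivity)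
    have h4 : (6 / Real.pi * Real.arcsin (t / 2)) * Real.pi = 6 * Real.arcsin (t / 2) := by
      field_simp
    linarith
  set A := ∑ c ∈ Q, 2 * Real.arcsin (‖c.2 - c.1‖ / 2) with hAdef
  have hApos : 0 ≤ A := Finset.sum_nonneg hnn1
  calc ENNReal.ofReal (2 * Real.pi - 6 * Real.arcsin (t / 2))
      ≤ ENNReal.ofReal (2 * Real.pi - A) := ENNReal.ofReal_le_ofReal (by linarith)
    _ = ENNReal.ofReal (2 * Real.pi) - ENNReal.ofReal A := ENNReal.ofReal_sub _ hApos
    _ ≤ _ := tsub_le_iff_right.2 hmeas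

end Pool.Agent.Helper717.DiskPoly
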