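import Mathlib

set_option autoImplicit false

namespace Pool.Agent.Helper717.Hull1

open MeasureTheory Set
open scoped ENNReal NNReal

/-- The Euclidean plane. -/
abbrev E2 := EuclideanSpace ℝ (Fin 2)

/-- Twice the signed area. -/
def orient (a b c : E2) : ℝ := (b 0 - a 0) * (c 1 - a 1) - (b 1 - a 1) * (c 0 - a 0)

lemma or_cyc (a b c : E2) : orient b c a = orient a b c := by unfold orient; ring
lemma or_swap (a b c : E2) : orient b a c = -orient a b c := by unfold orient; ring
lemma or_swap' (a b c : E2) : orient a c b = -orient a b c := by unfold orient; ring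
lemma or_self1 (a b : E2) : orient a a b = 0 := by unfold orient; ring
lemma or_self2 (a b : E2) : orient a b b = 0 := by unfold orient; ring
lemma or_self3 (a b : E2) : orient a b a = 0 := by unfold orient; ring
lemma or_sum (a b c q : E2) : orient a b q + orient b c q + orient c a q = orient a b c := by
  unfold orient; ring

lemma or_affine (a b p q : E2) (s t : ℝ) (h : s + t = 1) :
    orient a b (s • p + t • q) = s * orient a b p + t * orient a b q := by
  have hs : s = 1 - t := by linarith
  subst hs
  simp only [orient, PiLp.add_apply, PiLp.smul_apply, smul_eq_mul]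
  ring

/-- Closed half planes are convex. -/
lemma half_convex (a b : E2) : Convex ℝ {q : E2 | 0 ≤ orient a b q} := by
  intro p hp q hq s t hs ht hst
  simp only [mem_ofPred_eq] at *
  rw [or_affine a b p q s t hst]
  positivity

lemma half_convex' (a b : E2) : Convex ℝ {q : E2 | orient a b q ≤ 0} := by
  intro p hp q hq s t hs ht hst
  simp only [mem_ofPred_eq] at *
  rw [or_affine a b p q s t hst]
  nlinarith

lemma bary (a b c q : E2) (h : orient a b c ≠ 0) :
    q = (orient b c q / orient a b c) • a + (orient c a q / orient a b c) • b
      + (orient a b q / orient a b c) • c := by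
  ext i
  fin_cases i
  · simp only [Fin.zero_eta, PiLp.add_apply, PiLp.smul_apply, smul_eq_mul]
    field_simp
    unfold orient
    ring
  · simp only [Fin.mk_one, PiLp.add_apply, PiLp.smul_apply, smul_eq_mul]
    field_simp
    unfold orient
    ring

/-- Membership in a positively oriented triangle. -/
lemma tri_iff (a b c q : E2) (h : 0 < orient a b c) :
    q ∈ convexHull ℝ {a, b, c} ↔ 0 ≤ orient a b q ∧ 0 ≤ orient b c q ∧ 0 ≤ orient c a q := by
  constructor
  · intro hq
    have h1 : convexHull ℝ {a, b, c} ⊆ {q : E2 | 0 ≤ orient a b q} := by
      apply convexHull_min _ (half_convex a b)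
      intro p hp
      simp only [mem_insert_iff, mem_singleton_iff] at hp
      rcases hp with rfl | rfl | rfl
      · simp [or_self3]
      · simp [or_self2]
      · exact h.le
    have h2 : convexHull ℝ {a, b, c} ⊆ {q : E2 | 0 ≤ orient b c q} := by
      apply convexHull_min _ (half_convex b c)
      intro p hp
      simp only [mem_insert_iff, mem_singleton_iff] at hp
      rcases hp with rfl | rfl | rfl
      · simp only [mem_ofPred_eq]; rw [or_cyc]; exact h.le
      · simp [or_self3]
      · simp [or_self2]
    have h3 : convexHull ℝ {a, b, c} ⊆ {q : E2 | 0 ≤ orient c a q} := by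
      apply convexHull_min _ (half_convex c a)
      intro p hp
      simp only [mem_insert_iff, mem_singleton_iff] at hp
      rcases hp with rfl | rfl | rfl
      · simp [or_self2]
      · simp only [mem_ofPred_eq]; rw [or_cyc, or_cyc]; exact h.le
      · simp [or_self3]
    exact ⟨h1 hq, h2 hq, h3 hq⟩
  · rintro ⟨h1, h2, h3⟩
    have hb := bary a b c q h.ne'
    have hsum := or_sum a b c q
    have hc := convex_convexHull ℝ ({a, b, c} : Set E2)
    have ha' : a ∈ convexHull ℝ ({a, b, c} : Set E2) := subset_convexHull _ _ (by simp)
    have hb' : b ∈ convexHull ℝ ({a, b, c} : Set E2) := subset_convexHull _ _ (by simp)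
    have hc' : c ∈ convexHull ℝ ({a, b, c} : Set E2) := subset_convexHull _ _ (by simp)
    have h4 := hc.sum_mem (t := Finset.univ) (w := ![orient b c q / orient a b c,
      orient c a q / orient a b c, orient a b q / orient a b c]) (z := ![a, b, c]) (by
        intro i _
        fin_cases i
        · exact div_nonneg h2 h.le
        · exact div_nonneg h3 h.le
        · exact div_nonneg h1 h.le) (by
        rw [Fin.sum_univ_three]
        simp only [Matrix.cons_val_zero, Matrix.cons_val_one, Matrix.cons_val]
        field_simp
        linarith) (by
        intro i _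
        fin_cases i
        · exact ha'
        · exact hb'
        · exact hc')
    rw [Fin.sum_univ_three] at h4
    rw [hb]
    exact h4

/-- A line is null. -/
lemma line_null (a b : E2) (h : a ≠ b) : volume {q : E2 | orient a b q = 0} = 0 := by
  set L : E2 →ₗ[ℝ] ℝ :=
    { toFun := fun v => (b 0 - a 0) * v 1 - (b 1 - a 1) * v 0
      map_add' := by intro v w; simp only [PiLp.add_apply]; ring
      map_smul' := by intro r v; simp only [PiLp.smul_apply, smul_eq_mul, RingHom.id_apply]; ring }
    with hL
  have hsub : {q : E2 | orient a b q = 0} ⊆ (AffineSubspace.mk' a (LinearMap.ker L) : Set E2) := by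
    intro q hq
    rw [SetLike.mem_coe, AffineSubspace.mem_mk', LinearMap.mem_ker]
    simp only [mem_ofPred_eq, orient] at hq
    simp only [hL, LinearMap.coe_mk, AddHom.coe_mk, vsub_eq_sub, PiLp.sub_apply]
    exact hq
  refine measure_mono_null hsub (Measure.addHaar_affineSubspace _ _ ?_)
  intro htop
  apply h
  have hker : LinearMap.ker L = ⊤ := by
    have := congrArg AffineSubspace.direction htop
    rwa [AffineSubspace.direction_mk', AffineSubspace.direction_top] at this
  have h0 : ∀ v, L v = 0 := fun v => LinearMap.mem_ker.1 (by rw [hker]; trivial)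
  have e0 := h0 (EuclideanSpace.single 0 1)
  have e1 := h0 (EuclideanSpace.single 1 1)
  simp [hL] at e0 e1
  ext i
  fin_cases i
  · simp; linarith
  · simp; linarith

end Pool.Agent.Helper717.Hull1
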