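import Pool.Agent.Helper717.Hull1

set_option autoImplicit false

namespace Pool.Agent.Helper717.Hull2

open MeasureTheory Set Pool.Agent.Helper717.Hull1
open scoped ENNReal NNReal

lemma vol_para (v w : E2) :
    volume (parallelepiped ![v, w]) = ENNReal.ofReal |v 0 * w 1 - v 1 * w 0| := by
  have h1 := Measure.addHaar_parallelepiped (EuclideanSpace.basisFun (Fin 2) ℝ).toBasis ![v, w]
  rw [OrthonormalBasis.addHaar_eq_volume] at h1
  rw [h1, Module.Basis.det_apply, Matrix.det_fin_two]
  congr 2
  simp [Module.Basis.toMatrix]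
  ring

/-- The parallelogram spanned at `a` by `b` and `c`. -/
lemma para_eq (a b c : E2) (h : 0 < orient a b c) :
    {q : E2 | 0 ≤ orient a b q ∧ orient a b q ≤ orient a b c ∧ 0 ≤ orient c a q ∧
      orient c a q ≤ orient a b c} = (fun q => a + q) '' parallelepiped ![b - a, c - a] := by
  ext q
  simp only [mem_ofPred_eq, mem_image, mem_parallelepiped_iff]
  constructor
  · rintro ⟨h1, h2, h3, h4⟩
    refine ⟨q - a, ⟨![orient c a q / orient a b c, orient a b q / orient a b c], ?_, ?_⟩, by abel⟩
    · rw [mem_Icc]
      constructor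
      · intro i; fin_cases i
        · exact div_nonneg h3 h.le
        · exact div_nonneg h1 h.le
      · intro i; fin_cases i
        · exact (div_le_one h).2 h4
        · exact (div_le_one h).2 h2
    · rw [Fin.sum_univ_two]
      have hb := bary a b c q h.ne'
      have hsum := or_sum a b c q
      have e1 : orient b c q / orient a b c = 1 - orient c a q / orient a b c -
          orient a b q / orient a b c := by
        field_simp; linarith
      rw [e1] at hb
      simp only [Matrix.cons_val_zero, Matrix.cons_val_one]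
      conv_lhs => rw [hb]
      module
  · rintro ⟨_, ⟨t, ht, rfl⟩, rfl⟩
    rw [mem_Icc] at ht
    have t00 := ht.1 0
    have t01 := ht.1 1
    have t10 := ht.2 0
    have t11 := ht.2 1
    simp only [Pi.zero_apply, Pi.one_apply] at t00 t01 t10 t11
    rw [Fin.sum_univ_two]
    simp only [Matrix.cons_val_zero, Matrix.cons_val_one]
    have e1 : orient a b (a + (t 0 • (b - a) + t 1 • (c - a))) = t 1 * orient a b c := by
      simp only [orient, PiLp.add_apply, PiLp.smul_apply, PiLp.sub_apply, smul_eq_mul]; ring
    have e2 : orient c a (a + (t 0 • (b - a) + t 1 • (c - a))) = t 0 * orient a b c := by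
      simp only [orient, PiLp.add_apply, PiLp.smul_apply, PiLp.sub_apply, smul_eq_mul]; ring
    rw [e1, e2]
    refine ⟨?_, ?_, ?_, ?_⟩ <;> nlinarith

lemma tri_meas (a b c : E2) : MeasurableSet (convexHull ℝ ({a, b, c} : Set E2)) :=
  ((Set.toFinite ({a, b, c} : Set E2)).isCompact_convexHull (𝕜 := ℝ)).isClosed.measurableSet

lemma tri_vol_pos (a b c : E2) (h : 0 < orient a b c) :
    volume (convexHull ℝ ({a, b, c} : Set E2)) = ENNReal.ofReal (orient a b c / 2) := by
  set D := convexHull ℝ ({a, b, c} : Set E2) with hD
  set T := orient a b c with hT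
  set R : E2 → E2 := fun q => (b + c) - q with hR
  have hRp : MeasurePreserving R volume volume := Measure.measurePreserving_sub_left volume (b + c)
  have hDm : MeasurableSet D := tri_meas a b c
  have hD' : volume (R ⁻¹' D) = volume D := hRp.measure_preimage hDm.nullMeasurableSet
  have r1 : ∀ q, orient a b (R q) = T - orient a b q := by
    intro q
    simp only [hR, hT, orient, PiLp.add_apply, PiLp.sub_apply]; ring
  have r2 : ∀ q, orient c a (R q) = T - orient c a q := by
    intro q
    simp only [hR, hT, orient, PiLp.add_apply, PiLp.sub_apply]; ring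
  have r3 : ∀ q, orient b c (R q) = - orient b c q := by
    intro q
    simp only [hR, orient, PiLp.add_apply, PiLp.sub_apply]; ring
  have hunion : {q : E2 | 0 ≤ orient a b q ∧ orient a b q ≤ orient a b c ∧ 0 ≤ orient c a q ∧
      orient c a q ≤ orient a b c} = D ∪ R ⁻¹' D := by
    ext q
    have hs := or_sum a b c q
    rw [mem_union, mem_preimage, hD, tri_iff a b c q h, tri_iff a b c (R q) h, r1, r2, r3,
      mem_ofPred_eq]
    constructor
    · rintro ⟨h1, h2, h3, h4⟩
      rcases le_total 0 (orient b c q) with h5 | h5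
      · left; exact ⟨h1, h5, h3⟩
      · right; exact ⟨by linarith, by linarith, by linarith⟩
    · rintro (⟨h1, h2, h3⟩ | ⟨h1, h2, h3⟩)
      · refine ⟨h1, ?_, h3, ?_⟩ <;> linarith
      · refine ⟨?_, ?_, ?_, ?_⟩ <;> linarith
  have hbc : b ≠ c := by
    rintro rfl
    rw [hT, or_self2] at h
    exact lt_irrefl _ h
  have hdisj : AEDisjoint volume D (R ⁻¹' D) := by
    refine measure_mono_null ?_ (line_null b c hbc)
    rintro q ⟨h1, h2⟩
    rw [hD, tri_iff a b c q h] at h1
    rw [mem_preimage, hD, tri_iff a b c (R q) h, r3] at h2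
    rw [mem_ofPred_eq]
    linarith [h1.2.1, h2.2.1]
  have hvol : volume (D ∪ R ⁻¹' D) = ENNReal.ofReal T := by
    rw [← hunion, para_eq a b c h]
    have : (fun q => a + q) '' parallelepiped ![b - a, c - a] =
        (fun q => -a + q) ⁻¹' parallelepiped ![b - a, c - a] := by
      rw [image_add_left]
    rw [this, measure_preimage_add, vol_para]
    congr 1
    have e : (b - a) 0 * (c - a) 1 - (b - a) 1 * (c - a) 0 = T := by
      simp only [hT, orient, PiLp.sub_apply]
    rw [e, abs_of_pos h]
  rw [measure_union₀ (hRp.measurable hDm).nullMeasurableSet hdisj, hD'] at hvol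
  have h2 : (2 : ℝ≥0∞) * volume D = 2 * ENNReal.ofReal (T / 2) := by
    rw [two_mul, hvol]
    have : (2 : ℝ≥0∞) = ENNReal.ofReal 2 := by simp
    rw [this, ← ENNReal.ofReal_mul (by norm_num)]
    congr 1; ring
  exact (ENNReal.mul_right_inj (by norm_num) (by norm_num)).1 h2

/-- Area of a non degenerate triangle. -/
lemma tri_vol (a b c : E2) (h : orient a b c ≠ 0) :
    volume (convexHull ℝ ({a, b, c} : Set E2)) = ENNReal.ofReal (|orient a b c| / 2) := by
  rcases lt_or_gt_of_ne h with h | h
  · have h1 : 0 < orient a c b := by rw [or_swap']; linarith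
    have h2 : ({a, b, c} : Set E2) = {a, c, b} := by
      ext q; simp only [mem_insert_iff, mem_singleton_iff]; tauto
    rw [h2, tri_vol_pos a c b h1, or_swap', abs_of_neg h]
  · rw [tri_vol_pos a b c h, abs_of_pos h]

end Pool.Agent.Helper717.Hull2
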