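import Pool.Agent.Helper717.Hull2

set_option autoImplicit false
set_option linter.unusedSectionVars false

namespace Pool.Agent.Helper717.Hull3

open MeasureTheory Set Pool.Agent.Helper717.Hull1 Pool.Agent.Helper717.Hull2
open scoped ENNReal NNReal

variable {ι : Type*} [DecidableEq ι]

/-- Convex hull of the points with indices in `S`. -/
def hull (x : ι → E2) (S : Finset ι) : Set E2 := convexHull ℝ (x '' (S : Set ι))

/-- No three points on a line. -/
def GP (x : ι → E2) (S : Finset ι) : Prop :=
  ∀ a ∈ S, ∀ b ∈ S, ∀ c ∈ S, a ≠ b → b ≠ c → a ≠ c → orient (x a) (x b) (x c) ≠ 0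

/-- Convex position. -/
def CP (y : ι → E2) (S : Finset ι) : Prop :=
  ∀ a ∈ S, ∀ b ∈ S, ∀ c ∈ S, ∀ s ∈ S, s ≠ a → s ≠ b → s ≠ c →
    y s ∉ convexHull ℝ ({y a, y b, y c} : Set E2)

lemma hull_convex (x : ι → E2) (S : Finset ι) : Convex ℝ (hull x S) := convex_convexHull _ _

lemma hull_compact (x : ι → E2) (S : Finset ι) : IsCompact (hull x S) :=
  (S.finite_toSet.image x).isCompact_convexHull (𝕜 := ℝ)

lemma hull_meas (x : ι → E2) (S : Finset ι) : MeasurableSet (hull x S) :=
  (hull_compact x S).isClosed.measurableSet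

lemma mem_hull (x : ι → E2) (S : Finset ι) {a : ι} (ha : a ∈ S) : x a ∈ hull x S :=
  subset_convexHull _ _ ⟨a, by simpa using ha, rfl⟩

lemma hull_mono (x : ι → E2) {S T : Finset ι} (h : S ⊆ T) : hull x S ⊆ hull x T :=
  convexHull_mono (image_mono (by exact_mod_cast h))

lemma tri_sub_hull (x : ι → E2) (S : Finset ι) {a b c : ι} (ha : a ∈ S) (hb : b ∈ S)
    (hc : c ∈ S) : convexHull ℝ ({x a, x b, x c} : Set E2) ⊆ hull x S := by
  apply convexHull_min _ (hull_convex x S)
  intro p hp
  simp only [mem_insert_iff, mem_singleton_iff] at hp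
  rcases hp with rfl | rfl | rfl
  · exact mem_hull x S ha
  · exact mem_hull x S hb
  · exact mem_hull x S hc

/-- Linear bounds pass to the hull. -/
lemma hull_nonneg (x : ι → E2) (S : Finset ι) (a b : E2) (h : ∀ s ∈ S, 0 ≤ orient a b (x s)) :
    ∀ q ∈ hull x S, 0 ≤ orient a b q := by
  have : hull x S ⊆ {q : E2 | 0 ≤ orient a b q} := by
    apply convexHull_min _ (half_convex a b)
    rintro _ ⟨s, hs, rfl⟩
    exact h s (by simpa using hs)
  exact fun q hq => this hq

lemma hull_nonpos (x : ι → E2) (S : Finset ι) (a b : E2) (h : ∀ s ∈ S, orient a b (x s) ≤ 0) :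
    ∀ q ∈ hull x S, orient a b q ≤ 0 := by
  have : hull x S ⊆ {q : E2 | orient a b q ≤ 0} := by
    apply convexHull_min _ (half_convex' a b)
    rintro _ ⟨s, hs, rfl⟩
    exact h s (by simpa using hs)
  exact fun q hq => this hq

lemma hull_pos (x : ι → E2) (S : Finset ι) (a b : E2) (h : ∀ s ∈ S, 0 < orient a b (x s)) :
    ∀ q ∈ hull x S, 0 < orient a b q := by
  have hc : Convex ℝ {q : E2 | 0 < orient a b q} := by
    intro p hp q hq s t hs ht hst
    simp only [mem_ofPred_eq] at *
    rw [or_affine a b p q s t hst]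
    rcases hs.eq_or_lt with h0 | h0
    · have : t = 1 := by linarith
      rw [← h0, this]; linarith
    · have := mul_pos h0 hp
      have := mul_nonneg ht hq.le
      linarith
  have : hull x S ⊆ {q : E2 | 0 < orient a b q} := by
    apply convexHull_min _ hc
    rintro _ ⟨s, hs, rfl⟩
    exact h s (by simpa using hs)
  exact fun q hq => this hq

lemma or_neg_arg (a b q : E2) : orient b a q = -orient a b q := or_swap a b q

/-- Structure of the hull after adding a point. -/
lemma hull_insert (x : ι → E2) (S : Finset ι) (hS : S.Nonempty) (p : ι) (q : E2)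
    (hq : q ∈ hull x (insert p S)) :
    ∃ s ∈ hull x S, ∃ t : ℝ, 0 ≤ t ∧ t ≤ 1 ∧ q = (1 - t) • x p + t • s := by
  unfold hull at hq
  rw [Finset.coe_insert, image_insert_eq, convexHull_insert (by simpa using hS)] at hq
  rw [convexJoin_singleton_left] at hq
  simp only [mem_iUnion] at hq
  obtain ⟨s, hs, hseg⟩ := hq
  rw [segment_eq_image] at hseg
  obtain ⟨t, ht, rfl⟩ := hseg
  exact ⟨s, hs, t, ht.1, ht.2, rfl⟩

/-- The triangle of an ear covers the rest. -/
lemma ear_cover (y : ι → E2) (S : Finset ι) (a b c : ι) (ha : a ∈ S) (hb : b ∈ S) (hc : c ∈ S)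
    (hab : a ≠ b) (hac : a ≠ c) (hT : 0 < orient (y a) (y b) (y c))
    (h1 : ∀ s ∈ S, 0 ≤ orient (y a) (y b) (y s)) (h2 : ∀ s ∈ S, 0 ≤ orient (y c) (y a) (y s))
    (h3 : ∀ s ∈ S, s ≠ a → orient (y b) (y c) (y s) ≤ 0) :
    hull y S ⊆ hull y (S.erase a) ∪ convexHull ℝ ({y a, y b, y c} : Set E2) := by
  intro q hq
  have k1 := hull_nonneg y S _ _ h1
  have k2 := hull_nonneg y S _ _ h2
  have k3 := hull_nonpos y (S.erase a) (y b) (y c) (fun s hs => by
    rw [Finset.mem_erase] at hs
    exact h3 s hs.2 hs.1)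
  have hb' : b ∈ S.erase a := Finset.mem_erase.2 ⟨hab.symm, hb⟩
  have hc' : c ∈ S.erase a := Finset.mem_erase.2 ⟨hac.symm, hc⟩
  by_cases hg : 0 ≤ orient (y b) (y c) q
  · right
    rw [tri_iff _ _ _ _ hT]
    exact ⟨k1 q hq, hg, k2 q hq⟩
  · left
    have hg := not_le.1 hg
    have hins : insert a (S.erase a) = S := Finset.insert_erase ha
    rw [← hins] at hq
    obtain ⟨s, hs, t, ht0, ht1, hqe⟩ := hull_insert y (S.erase a) ⟨b, hb'⟩ a q hq
    have gs := k3 s hs
    have gq : orient (y b) (y c) q = (1 - t) * orient (y b) (y c) (y a)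
        + t * orient (y b) (y c) s := by
      rw [hqe]; exact or_affine _ _ _ _ _ _ (by ring)
    have ea : orient (y b) (y c) (y a) = orient (y a) (y b) (y c) := or_cyc _ _ _
    rw [ea] at gq
    set T := orient (y a) (y b) (y c) with hTdef
    set g := orient (y b) (y c) s with hgdef
    have hgneg : g < 0 := by
      rcases gs.eq_or_lt with h | h
      · rw [h] at gq
        have : 0 ≤ (1 - t) * T := mul_nonneg (by linarith) hT.le
        linarith
      · exact h
    set τ := T / (T - g) with hτ
    have hTg : 0 < T - g := by linarith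
    have hτ0 : 0 < τ := div_pos hT hTg
    have hτ1 : τ < 1 := by rw [hτ, div_lt_one hTg]; linarith
    have hτt : τ ≤ t := by
      rw [hτ, div_le_iff₀ hTg]
      nlinarith
    set m := (1 - τ) • y a + τ • s with hm
    have hmS : m ∈ hull y S := by
      have hsS : s ∈ hull y S := hull_mono y (Finset.erase_subset _ _) hs
      exact hull_convex y S (mem_hull y S ha) hsS (by linarith) hτ0.le (by ring)
    have gm : orient (y b) (y c) m = 0 := by
      have : orient (y b) (y c) m = (1 - τ) * orient (y b) (y c) (y a)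
        + τ * orient (y b) (y c) s := or_affine _ _ _ _ _ _ (by ring)
      rw [this, ea, ← hgdef, hτ]
      field_simp
      ring
    have hmbc : m ∈ hull y (S.erase a) := by
      have hb2 := bary (y a) (y b) (y c) m hT.ne'
      rw [gm, zero_div, zero_smul, zero_add] at hb2
      have hsum := or_sum (y a) (y b) (y c) m
      rw [gm] at hsum
      rw [hb2]
      apply hull_convex y _ (mem_hull y _ hb') (mem_hull y _ hc')
      · exact div_nonneg (k2 m hmS) hT.le
      · exact div_nonneg (k1 m hmS) hT.le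
      · rw [← add_div, div_eq_one_iff_eq hT.ne']
        linarith
    have hqm : q = (1 - (t - τ) / (1 - τ)) • m + ((t - τ) / (1 - τ)) • s := by
      have h1τ : (1 - τ) ≠ 0 := by linarith
      rw [hqe, hm]
      have e1 : (1 - (t - τ) / (1 - τ)) * (1 - τ) = 1 - t := by field_simp; ring
      have e2 : (1 - (t - τ) / (1 - τ)) * τ + (t - τ) / (1 - τ) = t := by field_simp; ring
      rw [smul_add, smul_smul, smul_smul, e1, add_assoc, ← add_smul, e2]
    rw [hqm]
    apply hull_convex y _ hmbc hs
    · rw [sub_nonneg, div_le_one (by linarith)]; linarith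
    · exact div_nonneg (by linarith) (by linarith)
    · ring

/-- Sign pattern of a further point. -/
lemma signs (y : ι → E2) (S : Finset ι) (hCP : CP y S) (a b c s : ι) (ha : a ∈ S) (hb : b ∈ S)
    (hc : c ∈ S) (hs : s ∈ S) (hab : a ≠ b) (hac : a ≠ c)
    (hsa : s ≠ a) (hT : 0 < orient (y a) (y b) (y c)) (h1 : orient (y a) (y b) (y s) < 0)
    (h2 : orient (y c) (y a) (y s) < 0) : False := by
  have hsum := or_sum (y a) (y b) (y c) (y s)
  have hu : 0 < orient (y b) (y c) (y s) := by linarith
  apply hCP b hb c hc s hs a ha hab hac hsa.symm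
  rw [tri_iff _ _ _ _ hu]
  refine ⟨?_, ?_, ?_⟩
  · rw [or_cyc]; exact hT.le
  · have : orient (y c) (y s) (y a) = -orient (y c) (y a) (y s) := or_swap' _ _ _
    rw [this]; linarith
  · have : orient (y s) (y b) (y a) = -orient (y a) (y b) (y s) := by
      unfold orient; ring
    rw [this]; linarith

/-- Two different sides cannot both be crossed. -/
lemma excl (y : ι → E2) (S : Finset ι) (hCP : CP y S) (hGP : GP y S) (a b c s s' : ι) (ha : a ∈ S)
    (hb : b ∈ S) (hc : c ∈ S) (hs : s ∈ S) (hs' : s' ∈ S) (hab : a ≠ b) (hac : a ≠ c)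
    (hbc : b ≠ c) (hsa : s ≠ a) (hsb : s ≠ b) (hsc : s ≠ c) (hsa' : s' ≠ a) (hsb' : s' ≠ b)
    (hsc' : s' ≠ c) (hT : 0 < orient (y a) (y b) (y c))
    (hmin : ∀ i ∈ S, ∀ j ∈ S, ∀ k ∈ S, i ≠ j → j ≠ k → i ≠ k →
      orient (y a) (y b) (y c) ≤ |orient (y i) (y j) (y k)|)
    (h1 : orient (y b) (y c) (y s) < 0) (h2 : orient (y c) (y a) (y s') < 0) : False := by
  -- all other signs are positive
  have p1 : 0 < orient (y a) (y b) (y s) := by
    by_contra hcon
    have hne := hGP a ha b hb s hs hab hsb.symm hsa.symm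
    have hneg : orient (y a) (y b) (y s) < 0 := lt_of_le_of_ne (not_lt.1 hcon) hne
    exact signs y S hCP b c a s hb hc ha hs hbc hab.symm hsb (by rw [or_cyc]; exact hT) h1 hneg
  have p2 : 0 < orient (y c) (y a) (y s) := by
    by_contra hcon
    have hne := hGP c hc a ha s hs hac.symm hsa.symm hsc.symm
    have hneg : orient (y c) (y a) (y s) < 0 := lt_of_le_of_ne (not_lt.1 hcon) hne
    exact signs y S hCP c a b s hc ha hb hs hac.symm hbc.symm hsc
      (by rw [or_cyc, or_cyc]; exact hT) hneg h1
  have p3 : 0 < orient (y a) (y b) (y s') := by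
    by_contra hcon
    have hne := hGP a ha b hb s' hs' hab hsb'.symm hsa'.symm
    have hneg : orient (y a) (y b) (y s') < 0 := lt_of_le_of_ne (not_lt.1 hcon) hne
    exact signs y S hCP a b c s' ha hb hc hs' hab hac hsa' hT hneg h2
  have m1 := hmin a ha b hb s hs hab hsb.symm hsa.symm
  have m2 := hmin a ha b hb s' hs' hab hsb'.symm hsa'.symm
  rw [abs_of_pos p1] at m1
  rw [abs_of_pos p3] at m2
  -- Plucker relation
  have pl : orient (y a) (y b) (y c) * orient (y a) (y s) (y s') =
      orient (y a) (y b) (y s) * (-orient (y c) (y a) (y s')) +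
      orient (y a) (y b) (y s') * orient (y c) (y a) (y s) := by
    unfold orient; ring
  have lin : orient (y c) (y a) (y s) + -orient (y c) (y a) (y s') =
      orient (y a) (y s) (y s') + orient (y s) (y c) (y s') := by
    unfold orient; ring
  set T := orient (y a) (y b) (y c)
  set A := orient (y a) (y s) (y s')
  set B := orient (y s) (y c) (y s')
  have hA : 0 < A := by
    have : 0 < T * A := by
      rw [pl]
      have e1 : 0 < orient (y a) (y b) (y s) * (-orient (y c) (y a) (y s')) :=
        mul_pos p1 (by linarith)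
      have e2 : 0 < orient (y a) (y b) (y s') * orient (y c) (y a) (y s) := mul_pos p3 p2
      linarith
    exact (mul_pos_iff_of_pos_left hT).1 this
  have hB : B ≤ 0 := by
    by_contra hcon
    have hcon := not_le.1 hcon
    have e1 : T * (-orient (y c) (y a) (y s')) ≤
        orient (y a) (y b) (y s) * (-orient (y c) (y a) (y s')) :=
      mul_le_mul_of_nonneg_right m1 (by linarith)
    have e2 : T * orient (y c) (y a) (y s) ≤ orient (y a) (y b) (y s') * orient (y c) (y a) (y s) :=
      mul_le_mul_of_nonneg_right m2 p2.le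
    have e3 : 0 < T * B := mul_pos hT hcon
    nlinarith
  apply hCP a ha s hs s' hs' c hc hac.symm hsc.symm hsc'.symm
  rw [tri_iff _ _ _ _ hA]
  refine ⟨?_, ?_, ?_⟩
  · have : orient (y a) (y s) (y c) = orient (y c) (y a) (y s) := or_cyc _ _ _
    rw [this]; exact p2.le
  · have : orient (y s) (y s') (y c) = -B := or_swap' _ _ _
    rw [this]; linarith
  · have : orient (y s') (y a) (y c) = -orient (y c) (y a) (y s') := by
      unfold orient; ring
    rw [this]; linarith

end Pool.Agent.Helper717.Hull3
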