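import Pool.Agent.Helper717.Hull3

set_option autoImplicit false
set_option linter.unusedSectionVars false

namespace Pool.Agent.Helper717.Hull4

open MeasureTheory Set Pool.Agent.Helper717.Hull1 Pool.Agent.Helper717.Hull2
  Pool.Agent.Helper717.Hull3
open scoped ENNReal NNReal

variable {ι : Type*} [DecidableEq ι]

/-- The conclusion about an ear. -/
def EarAt (y : ι → E2) (S : Finset ι) (T : ℝ) : Prop :=
  ∃ p ∈ S, volume (hull y S) ≤ volume (hull y (S.erase p)) + ENNReal.ofReal (T / 2)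

lemma ear_of (y : ι → E2) (S : Finset ι) (hCP : CP y S) (a b c : ι) (ha : a ∈ S)
    (hb : b ∈ S) (hc : c ∈ S) (hab : a ≠ b) (hac : a ≠ c)
    (hT : 0 < orient (y a) (y b) (y c))
    (h2 : ∀ s ∈ S, s ≠ a → s ≠ b → s ≠ c → 0 ≤ orient (y c) (y a) (y s))
    (h3 : ∀ s ∈ S, s ≠ a → s ≠ b → s ≠ c → 0 ≤ orient (y a) (y b) (y s)) :
    EarAt y S (orient (y a) (y b) (y c)) := by
  refine ⟨a, ha, ?_⟩
  have k2 : ∀ s ∈ S, 0 ≤ orient (y c) (y a) (y s) := by
    intro s hs
    by_cases h1 : s = a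
    · rw [h1, or_self2]
    by_cases h4 : s = b
    · rw [h4, or_cyc, or_cyc]; exact hT.le
    by_cases h5 : s = c
    · rw [h5, or_self3]
    exact h2 s hs h1 h4 h5
  have k3 : ∀ s ∈ S, 0 ≤ orient (y a) (y b) (y s) := by
    intro s hs
    by_cases h1 : s = a
    · rw [h1, or_self3]
    by_cases h4 : s = b
    · rw [h4, or_self2]
    by_cases h5 : s = c
    · rw [h5]; exact hT.le
    exact h3 s hs h1 h4 h5
  have k1 : ∀ s ∈ S, s ≠ a → orient (y b) (y c) (y s) ≤ 0 := by
    intro s hs h1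
    by_cases h4 : s = b
    · rw [h4, or_self3]
    by_cases h5 : s = c
    · rw [h5, or_self2]
    by_contra hcon
    have hcon := not_le.1 hcon
    exact hCP a ha b hb c hc s hs h1 h4 h5 ((tri_iff _ _ _ _ hT).2 ⟨k3 s hs, hcon.le, k2 s hs⟩)
  calc volume (hull y S) ≤ volume (hull y (S.erase a) ∪ convexHull ℝ ({y a, y b, y c} : Set E2)) :=
        measure_mono (ear_cover y S a b c ha hb hc hab hac hT k3 k2 k1)
    _ ≤ volume (hull y (S.erase a)) + volume (convexHull ℝ ({y a, y b, y c} : Set E2)) :=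
        measure_union_le _ _
    _ = _ := by rw [tri_vol_pos _ _ _ hT]

/-- Existence of a minimal ear. -/
lemma ear (y : ι → E2) (S : Finset ι) (hCP : CP y S) (hGP : GP y S) (hcard : 3 ≤ S.card) :
    ∃ e : ℝ, 0 < e ∧ (∀ i ∈ S, ∀ j ∈ S, ∀ k ∈ S, i ≠ j → j ≠ k → i ≠ k →
      e ≤ |orient (y i) (y j) (y k)|) ∧ EarAt y S e := by
  classical
  set Tr : Finset (ι × ι × ι) := (S ×ˢ S ×ˢ S).filter
    (fun t => t.1 ≠ t.2.1 ∧ t.2.1 ≠ t.2.2 ∧ t.1 ≠ t.2.2) with hTr
  have hmem : ∀ i j k, (i, j, k) ∈ Tr ↔ (i ∈ S ∧ j ∈ S ∧ k ∈ S) ∧ i ≠ j ∧ j ≠ k ∧ i ≠ k := by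
    intro i j k
    rw [hTr, Finset.mem_filter, Finset.mem_product, Finset.mem_product]
  have hne : Tr.Nonempty := by
    obtain ⟨a, b, c, ha, hb, hc, hab, hac, hbc⟩ := Finset.two_lt_card_iff.1 hcard
    exact ⟨(a, b, c), (hmem a b c).2 ⟨⟨ha, hb, hc⟩, hab, hbc, hac⟩⟩
  obtain ⟨⟨a0, b0, c0⟩, h0, hmin0⟩ := Finset.exists_min_image Tr
    (fun t => |orient (y t.1) (y t.2.1) (y t.2.2)|) hne
  rw [hmem] at h0
  -- make the orientation positive
  obtain ⟨a, b, c, ha, hb, hc, hab, hbc, hac, hT, hmin⟩ : ∃ a b c, a ∈ S ∧ b ∈ S ∧ c ∈ S ∧ a ≠ b ∧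
      b ≠ c ∧ a ≠ c ∧ 0 < orient (y a) (y b) (y c) ∧
      ∀ i ∈ S, ∀ j ∈ S, ∀ k ∈ S, i ≠ j → j ≠ k → i ≠ k →
      orient (y a) (y b) (y c) ≤ |orient (y i) (y j) (y k)| := by
    obtain ⟨⟨ha, hb, hc⟩, hab, hbc, hac⟩ := h0
    have hne0 := hGP a0 ha b0 hb c0 hc hab hbc hac
    have hm : ∀ i ∈ S, ∀ j ∈ S, ∀ k ∈ S, i ≠ j → j ≠ k → i ≠ k →
        |orient (y a0) (y b0) (y c0)| ≤ |orient (y i) (y j) (y k)| := by
      intro i hi j hj k hk h1 h2 h3
      exact hmin0 (i, j, k) ((hmem i j k).2 ⟨⟨hi, hj, hk⟩, h1, h2, h3⟩)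
    rcases lt_or_gt_of_ne hne0 with h | h
    · refine ⟨a0, c0, b0, ha, hc, hb, hac, hbc.symm, hab, ?_, ?_⟩
      · rw [or_swap']; linarith
      · rw [or_swap', ← abs_of_neg h]; exact hm
    · refine ⟨a0, b0, c0, ha, hb, hc, hab, hbc, hac, h, ?_⟩
      rw [← abs_of_pos h]; 
      simpa using hm
  refine ⟨orient (y a) (y b) (y c), hT, hmin, ?_⟩
  have hT1 : 0 < orient (y b) (y c) (y a) := by rw [or_cyc]; exact hT
  have hT2 : 0 < orient (y c) (y a) (y b) := by rw [or_cyc, or_cyc]; exact hT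
  have e1 : orient (y b) (y c) (y a) = orient (y a) (y b) (y c) := or_cyc _ _ _
  have e2 : orient (y c) (y a) (y b) = orient (y a) (y b) (y c) := by rw [or_cyc, or_cyc]
  by_cases P2 : ∀ s ∈ S, s ≠ a → s ≠ b → s ≠ c → 0 ≤ orient (y c) (y a) (y s)
  · by_cases P3 : ∀ s ∈ S, s ≠ a → s ≠ b → s ≠ c → 0 ≤ orient (y a) (y b) (y s)
    · exact ear_of y S hCP a b c ha hb hc hab hac hT P2 P3
    · -- side ab is crossed, apex c
      push Not at P3
      obtain ⟨s', hs', h1, h2, h3, h4⟩ := P3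
      have P1 : ∀ s ∈ S, s ≠ a → s ≠ b → s ≠ c → 0 ≤ orient (y b) (y c) (y s) := by
        intro s hs k1 k2 k3
        by_contra hcon
        exact excl y S hCP hGP c a b s' s hc ha hb hs' hs hac.symm hbc.symm hab h3 h1 h2 k3 k1 k2
          hT2 (by rw [e2]; exact hmin) h4 (not_le.1 hcon)
      have := ear_of y S hCP c a b hc ha hb hac.symm hbc.symm hT2
        (fun s hs k1 k2 k3 => P1 s hs k2 k3 k1) (fun s hs k1 k2 k3 => P2 s hs k2 k3 k1)
      rwa [e2] at this
  · push Not at P2
    obtain ⟨s', hs', h1, h2, h3, h4⟩ := P2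
    have P3 : ∀ s ∈ S, s ≠ a → s ≠ b → s ≠ c → 0 ≤ orient (y a) (y b) (y s) := by
      intro s hs k1 k2 k3
      by_contra hcon
      exact excl y S hCP hGP b c a s' s hb hc ha hs' hs hbc hab.symm hac.symm h2 h3 h1 k2 k3 k1
        hT1 (by rw [e1]; exact hmin) h4 (not_le.1 hcon)
    have P1 : ∀ s ∈ S, s ≠ a → s ≠ b → s ≠ c → 0 ≤ orient (y b) (y c) (y s) := by
      intro s hs k1 k2 k3
      by_contra hcon
      exact excl y S hCP hGP a b c s s' ha hb hc hs hs' hab hac hbc k1 k2 k3 h1 h2 h3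
        hT hmin (not_le.1 hcon) h4
    have := ear_of y S hCP b c a hb hc ha hbc hab.symm hT1
      (fun s hs k1 k2 k3 => P3 s hs k3 k1 k2) (fun s hs k1 k2 k3 => P1 s hs k3 k1 k2)
    rwa [e1] at this

/-- Visible hull edges. -/
noncomputable def Vis (x : ι → E2) (S : Finset ι) (p : ι) : Finset (ι × ι) :=
  open Classical in
  (S ×ˢ S).filter fun e => e.1 ≠ e.2 ∧ orient (x e.1) (x e.2) (x p) < 0 ∧
    ∀ s ∈ S, s ≠ e.1 → s ≠ e.2 → 0 < orient (x e.1) (x e.2) (x s)

lemma mem_Vis (x : ι → E2) (S : Finset ι) (p a b : ι) : (a, b) ∈ Vis x S p ↔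
    (a ∈ S ∧ b ∈ S) ∧ a ≠ b ∧ orient (x a) (x b) (x p) < 0 ∧
    ∀ s ∈ S, s ≠ a → s ≠ b → 0 < orient (x a) (x b) (x s) := by
  classical
  unfold Vis
  rw [Finset.mem_filter, Finset.mem_product]

/-- A new point of the hull lies in a visible triangle. -/
lemma factB (x : ι → E2) (S : Finset ι) (hS : S.Nonempty) (p : ι)
    (hGP : GP x (insert p S)) (q : E2) (hq : q ∈ hull x (insert p S)) (hqS : q ∉ hull x S)
    (hgen : ∀ s ∈ S, orient (x p) q (x s) ≠ 0) :
    ∃ a b, (a, b) ∈ Vis x S p ∧ q ∈ convexHull ℝ ({x p, x b, x a} : Set E2) := by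
  classical
  obtain ⟨s', hs', lam, hl0, hl1, hqe⟩ := hull_insert x S hS p q hq
  -- lam is positive
  have hlpos : 0 < lam := by
    rcases hl0.eq_or_lt with h | h
    · exfalso
      obtain ⟨s, hs⟩ := hS
      apply hgen s hs
      rw [hqe, ← h]
      simp [or_self1]
    · exact h
  set P := x p with hP
  set L : E2 → ℝ := fun z => orient P q z with hL
  have hLs' : L s' = 0 := by
    have h1 : L ((1 - lam) • P + lam • s') = (1 - lam) * L P + lam * L s' :=
      or_affine P q P s' (1 - lam) lam (by ring)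
    rw [← hqe] at h1
    have h2 : L q = 0 := or_self2 _ _
    have h3 : L P = 0 := or_self3 _ _
    rw [h2, h3] at h1
    have : lam * L s' = 0 := by linarith
    exact (mul_eq_zero.1 this).resolve_left hlpos.ne'
  -- both signs occur
  obtain ⟨a1, ha1, hLa1⟩ : ∃ a ∈ S, 0 < L (x a) := by
    by_contra hcon
    have : ∀ s ∈ S, 0 < orient q P (x s) := by
      intro s hs
      have h1 : ¬ 0 < L (x s) := fun h => hcon ⟨s, hs, h⟩
      have h2 : L (x s) < 0 := lt_of_le_of_ne (not_lt.1 h1) (hgen s hs)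
      rw [or_swap]
      simp only [hL] at h2
      linarith
    have h3 := hull_pos x S q P this s' hs'
    rw [or_swap] at h3
    simp only [hL] at hLs'
    linarith
  obtain ⟨b1, hb1, hLb1⟩ : ∃ b ∈ S, L (x b) < 0 := by
    by_contra hcon
    have : ∀ s ∈ S, 0 < orient P q (x s) := by
      intro s hs
      have h1 : ¬ L (x s) < 0 := fun h => hcon ⟨s, hs, h⟩
      exact lt_of_le_of_ne (not_lt.1 h1) (Ne.symm (hgen s hs))
    have h3 := hull_pos x S P q this s' hs'
    simp only [hL] at hLs'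
    linarith
  -- pairs crossing the ray
  set Pr : Finset (ι × ι) := (S ×ˢ S).filter fun e => 0 < L (x e.1) ∧ L (x e.2) < 0 with hPr
  have hmem : ∀ a b, (a, b) ∈ Pr ↔ (a ∈ S ∧ b ∈ S) ∧ 0 < L (x a) ∧ L (x b) < 0 := by
    intro a b
    rw [hPr, Finset.mem_filter, Finset.mem_product]
  set tt : ι × ι → ℝ := fun e => -orient (x e.1) (x e.2) P / (L (x e.1) - L (x e.2)) with htt
  obtain ⟨⟨a, b⟩, hab, hmin⟩ := Finset.exists_min_image Pr tt
    ⟨(a1, b1), (hmem a1 b1).2 ⟨⟨ha1, hb1⟩, hLa1, hLb1⟩⟩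
  rw [hmem] at hab
  obtain ⟨⟨haS, hbS⟩, hLa, hLb⟩ := hab
  -- crossing points
  have hcross : ∀ c d, 0 < L (x c) → L (x d) < 0 →
      (L (x c) / (L (x c) - L (x d))) • x d + (-L (x d) / (L (x c) - L (x d))) • x c =
        P + (tt (c, d)) • (q - P) := by
    intro c d h1 h2
    have hne : L (x c) - L (x d) ≠ 0 := by linarith
    simp only [htt]
    ext i
    fin_cases i
    · simp only [Fin.zero_eta, PiLp.add_apply, PiLp.smul_apply, PiLp.sub_apply, smul_eq_mul]
      field_simp
      simp only [hL, orient]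
      ring
    · simp only [Fin.mk_one, PiLp.add_apply, PiLp.smul_apply, PiLp.sub_apply, smul_eq_mul]
      field_simp
      simp only [hL, orient]
      ring
  have hcrossS : ∀ c ∈ S, ∀ d ∈ S, 0 < L (x c) → L (x d) < 0 →
      P + (tt (c, d)) • (q - P) ∈ hull x S := by
    intro c hc d hd h1 h2
    rw [← hcross c d h1 h2]
    have hpos : 0 < L (x c) - L (x d) := by linarith
    apply hull_convex x S (mem_hull x S hd) (mem_hull x S hc)
    · exact div_nonneg h1.le hpos.le
    · exact div_nonneg (by linarith) hpos.le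
    · field_simp
      ring
  -- s' is on the ray beyond q
  have hs'e : s' = P + (1 / lam) • (q - P) := by
    rw [hqe]
    have : (1 / lam) • ((1 - lam) • P + lam • s' - P) = s' - P := by
      have e1 : (1 - lam) • P + lam • s' - P = lam • (s' - P) := by module
      rw [e1, smul_smul, one_div, inv_mul_cancel₀ hlpos.ne', one_smul]
    rw [this]; abel
  have hlam : 1 ≤ 1 / lam := by rw [le_div_iff₀ hlpos]; linarith
  -- every crossing is beyond q
  have hbeyond : 1 < tt (a, b) := by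
    by_contra hcon
    have hcon := not_lt.1 hcon
    apply hqS
    have hz := hcrossS a haS b hbS hLa hLb
    rcases hlam.eq_or_lt with h | h
    · rw [← h, one_smul] at hs'e
      have : s' = q := by rw [hs'e]; abel
      rw [← this]; exact hs'
    · -- q between the crossing and s'
      have hd : 0 < 1 / lam - tt (a, b) := by linarith
      have e1 : q = ((1 / lam - 1) / (1 / lam - tt (a, b))) • (P + (tt (a, b)) • (q - P)) +
          ((1 - tt (a, b)) / (1 / lam - tt (a, b))) • s' := by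
        rw [hs'e]
        have hw : (1 / lam - 1) / (1 / lam - tt (a, b)) = 1 - (1 - tt (a, b)) / (1 / lam - tt (a, b)) := by
          rw [eq_sub_iff_add_eq, ← add_div, div_eq_one_iff_eq hd.ne']; ring
        rw [hw]
        have hk : ((1 - tt (a, b)) / (1 / lam - tt (a, b))) * (1 / lam - tt (a, b)) = 1 - tt (a, b) := by
          rw [div_mul_cancel₀ _ hd.ne']
        set k := (1 - tt (a, b)) / (1 / lam - tt (a, b)) with hkdef
        have e2 : (1 - k) • (P + tt (a, b) • (q - P)) + k • (P + (1 / lam) • (q - P)) =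
            P + (tt (a, b) + k * (1 / lam - tt (a, b))) • (q - P) := by module
        rw [e2, hk]
        module
      rw [e1]
      apply hull_convex x S hz hs'
      · exact div_nonneg (by linarith) hd.le
      · exact div_nonneg (by linarith) hd.le
      · rw [← add_div, div_eq_one_iff_eq hd.ne']; ring
  have hLab : 0 < L (x a) - L (x b) := by linarith
  have ht : tt (a, b) * (L (x a) - L (x b)) = -orient (x a) (x b) P := by
    simp only [htt]
    rw [div_mul_cancel₀ _ hLab.ne']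
  have haneb : a ≠ b := by
    rintro rfl
    linarith
  have hPneg : orient (x a) (x b) P < 0 := by
    have : 0 < tt (a, b) * (L (x a) - L (x b)) := mul_pos (by linarith) hLab
    linarith
  -- orientation of ray points
  have hray : ∀ t : ℝ, orient (x a) (x b) (P + t • (q - P)) =
      orient (x a) (x b) P + t * (L (x a) - L (x b)) := by
    intro t
    simp only [hL, orient, PiLp.add_apply, PiLp.smul_apply, PiLp.sub_apply, smul_eq_mul]
    ring
  refine ⟨a, b, (mem_Vis x S p a b).2 ⟨⟨haS, hbS⟩, haneb, hPneg, ?_⟩, ?_⟩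
  · intro c hc hca hcb
    have hne := hGP a (Finset.mem_insert_of_mem haS) b (Finset.mem_insert_of_mem hbS) c
      (Finset.mem_insert_of_mem hc) haneb hcb.symm hca.symm
    apply lt_of_le_of_ne _ hne.symm
    rcases lt_or_gt_of_ne (hgen c hc) with h | h
    · -- c on the side of b
      have hm := hmin (a, c) ((hmem a c).2 ⟨⟨haS, hc⟩, hLa, h⟩)
      have hcr := hcross a c hLa h
      have h1 : 0 ≤ orient (x a) (x b) (P + tt (a, c) • (q - P)) := by
        rw [hray]
        have := mul_le_mul_of_nonneg_right hm hLab.le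
        linarith
      have hpos : 0 < L (x a) - L (x c) := by
        have : L (x c) < 0 := h
        linarith
      rw [← hcr, or_affine _ _ _ _ _ _ (by field_simp; ring), or_self3, mul_zero, add_zero] at h1
      have hw : 0 < L (x a) / (L (x a) - L (x c)) := div_pos hLa hpos
      by_contra hcon
      have := mul_neg_of_pos_of_neg hw (not_le.1 hcon)
      linarith
    · have hm := hmin (c, b) ((hmem c b).2 ⟨⟨hc, hbS⟩, h, hLb⟩)
      have hcr := hcross c b h hLb
      have h1 : 0 ≤ orient (x a) (x b) (P + tt (c, b) • (q - P)) := by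
        rw [hray]
        have := mul_le_mul_of_nonneg_right hm hLab.le
        linarith
      have hpos : 0 < L (x c) - L (x b) := by
        have : 0 < L (x c) := h
        linarith
      rw [← hcr, or_affine _ _ _ _ _ _ (by field_simp; ring), or_self2, mul_zero, zero_add] at h1
      have hw : 0 < -L (x b) / (L (x c) - L (x b)) := div_pos (by linarith) hpos
      by_contra hcon
      have := mul_neg_of_pos_of_neg hw (not_le.1 hcon)
      linarith
  · have hTp : 0 < orient P (x b) (x a) := by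
      have : orient P (x b) (x a) = -orient (x a) (x b) P := by unfold orient; ring
      rw [this]; linarith
    rw [tri_iff _ _ _ _ hTp]
    refine ⟨?_, ?_, ?_⟩
    · have : orient P (x b) q = -L (x b) := by simp only [hL]; exact or_swap' _ _ _
      rw [this]; linarith
    · have h1 := hray 1
      have e1 : P + (1 : ℝ) • (q - P) = q := by module
      rw [e1] at h1
      have : orient (x b) (x a) q = -orient (x a) (x b) q := or_swap _ _ _
      rw [this, h1]
      have := mul_lt_mul_of_pos_right hbeyond hLab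
      linarith
    · have : orient (x a) P q = L (x a) := by simp only [hL]; exact (or_cyc _ _ _).symm
      rw [this]; linarith

end Pool.Agent.Helper717.Hull4
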