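import Pool.Agent.Helper717.Hull4

set_option autoImplicit false
set_option linter.unusedSectionVars false

namespace Pool.Agent.Helper717.Hull5

open MeasureTheory Set Pool.Agent.Helper717.Hull1 Pool.Agent.Helper717.Hull2
  Pool.Agent.Helper717.Hull3 Pool.Agent.Helper717.Hull4
open scoped ENNReal NNReal

variable {ι : Type*} [DecidableEq ι]

/-- Some hull edge is visible from an exterior point. -/
lemma vis_nonempty (x : ι → E2) (S : Finset ι) (p : ι) (hp : p ∉ S) (h2 : 2 ≤ S.card)
    (hGP : GP x (insert p S)) (hout : x p ∉ hull x S) : (Vis x S p).Nonempty := by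
  classical
  obtain ⟨a, ha, b, hb, hab⟩ := Finset.one_lt_card.1 h2
  set P := x p with hP
  have hpi : p ∈ insert p S := Finset.mem_insert_self _ _
  have hin : ∀ s ∈ S, s ∈ insert p S := fun s hs => Finset.mem_insert_of_mem hs
  have hps : ∀ s ∈ S, p ≠ s := fun s hs h => hp (h ▸ hs)
  -- a good parameter
  have hfin : (⋃ s ∈ S, {w : ℝ | 0 < w ∧ w < 1 ∧
      (1 - w) * orient P (x a) (x s) + w * orient P (x b) (x s) = 0}).Finite := by
    apply Set.Finite.biUnion S.finite_toSet
    intro s hs
    have hs' : s ∈ S := by simpa using hs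
    set α := orient P (x a) (x s) with hα
    set β := orient P (x b) (x s) with hβ
    have hne : ¬ (α = 0 ∧ β = 0) := by
      rintro ⟨h1, h3⟩
      by_cases hsa : s = a
      · have hsb : s ≠ b := fun h => hab (hsa.symm.trans h)
        exact hGP p hpi b (hin b hb) s (hin s hs') (hps b hb) hsb.symm (hps s hs') h3
      · exact hGP p hpi a (hin a ha) s (hin s hs') (hps a ha) (Ne.symm hsa) (hps s hs') h1
    by_cases hβα : β - α = 0
    · have : {w : ℝ | 0 < w ∧ w < 1 ∧ (1 - w) * α + w * β = 0} = ∅ := by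
        ext w
        simp only [mem_ofPred_eq, mem_empty_iff_false, iff_false]
        rintro ⟨_, _, h⟩
        have : β = α := by linarith
        rw [this] at h
        have h0 : α = 0 := by linarith
        exact hne ⟨h0, by rw [this]; exact h0⟩
      rw [this]; exact Set.finite_empty
    · apply (Set.finite_singleton (-α / (β - α))).subset
      rintro w ⟨_, _, h⟩
      rw [mem_singleton_iff, eq_div_iff hβα]
      linarith
  obtain ⟨w, hw, hwb⟩ := ((Ioo_infinite (zero_lt_one (α := ℝ))).sdiff hfin).nonempty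
  simp only [mem_iUnion, mem_ofPred_eq, not_exists, not_and] at hwb
  set sw := (1 - w) • x a + w • x b with hsw
  have hswS : sw ∈ hull x S := hull_convex x S (mem_hull x S ha) (mem_hull x S hb)
    (by linarith [hw.2]) hw.1.le (by ring)
  -- a ball around P
  obtain ⟨d, hd, hball⟩ := Metric.isOpen_iff.1 (hull_compact x S).isClosed.isOpen_compl P hout
  set ε := min (d / (2 * (‖sw - P‖ + 1))) 1 with hε
  have hn : 0 ≤ ‖sw - P‖ := norm_nonneg _
  have hε0 : 0 < ε := lt_min (by positivity) one_pos
  have hε1 : ε ≤ 1 := min_le_right _ _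
  have hεd : ε * ‖sw - P‖ < d := by
    have h1 : ε ≤ d / (2 * (‖sw - P‖ + 1)) := min_le_left _ _
    have h3 : ε * (2 * (‖sw - P‖ + 1)) ≤ d := by
      rwa [le_div_iff₀ (by positivity)] at h1
    nlinarith
  set q := (1 - ε) • P + ε • sw with hq
  have hqin : q ∈ hull x (insert p S) := by
    apply hull_convex x _ (mem_hull x _ hpi) (hull_mono x (Finset.subset_insert _ _) hswS)
      (by linarith) hε0.le (by ring)
  have hqout : q ∉ hull x S := by
    intro h
    have : q ∈ Metric.ball P d := by
      rw [Metric.mem_ball, dist_eq_norm]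
      have e1 : q - P = ε • (sw - P) := by rw [hq]; module
      rw [e1, norm_smul, Real.norm_eq_abs, abs_of_pos hε0]
      exact hεd
    exact hball this h
  obtain ⟨a', b', h, _⟩ := factB x S ⟨a, ha⟩ p hGP q hqin hqout (by
    intro s hs
    have e1 : orient P q (x s) = ε * ((1 - w) * orient P (x a) (x s) +
        w * orient P (x b) (x s)) := by
      simp only [hq, hsw, orient, PiLp.add_apply, PiLp.smul_apply, smul_eq_mul]; ring
    rw [← hP, e1]
    apply mul_ne_zero hε0.ne'
    exact hwb s hs hw.1 hw.2)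
  exact ⟨_, h⟩

lemma inj_of_GP (x : ι → E2) (S : Finset ι) (h3 : 3 ≤ S.card) (hGP : GP x S) (a b : ι)
    (ha : a ∈ S) (hb : b ∈ S) (hab : a ≠ b) : x a ≠ x b := by
  intro h
  have hc : 0 < ((S.erase a).erase b).card := by
    rw [Finset.card_erase_of_mem (Finset.mem_erase.2 ⟨hab.symm, hb⟩), Finset.card_erase_of_mem ha]
    omega
  obtain ⟨c, hc⟩ := Finset.card_pos.1 hc
  rw [Finset.mem_erase, Finset.mem_erase] at hc
  apply hGP a ha b hb c hc.2.2 hab hc.1.symm hc.2.1.symm
  rw [h, or_self1]

/-- Points on lines through two of the points form a null set. -/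
lemma nongen_null (x : ι → E2) (S : Finset ι) (h3 : 3 ≤ S.card) (hGP : GP x S) :
    volume {q : E2 | ∃ a ∈ S, ∃ b ∈ S, a ≠ b ∧ orient (x a) (x b) q = 0} = 0 := by
  have : {q : E2 | ∃ a ∈ S, ∃ b ∈ S, a ≠ b ∧ orient (x a) (x b) q = 0} ⊆
      ⋃ a ∈ S, ⋃ b ∈ S.erase a, {q : E2 | orient (x a) (x b) q = 0} := by
    rintro q ⟨a, ha, b, hb, hab, h⟩
    simp only [mem_iUnion]
    exact ⟨a, ha, b, Finset.mem_erase.2 ⟨hab.symm, hb⟩, h⟩
  refine measure_mono_null this ?_
  refine (measure_biUnion_null_iff S.countable_toSet).2 fun a ha => ?_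
  refine (measure_biUnion_null_iff (S.erase a).countable_toSet).2 fun b hb => ?_
  have hb' : b ∈ S.erase a := Finset.mem_coe.1 hb
  rw [Finset.mem_erase] at hb'
  exact line_null _ _ (inj_of_GP x S h3 hGP a b (by simpa using ha) hb'.2 hb'.1.symm)

/-- The visible triangles add area. -/
lemma vol_add (x : ι → E2) (S : Finset ι) (p : ι) (hp : p ∉ S) (h2 : 2 ≤ S.card)
    (hGP : GP x (insert p S)) :
    volume (hull x S) + ∑ e ∈ Vis x S p,
      volume (convexHull ℝ ({x p, x e.2, x e.1} : Set E2)) ≤ volume (hull x (insert p S)) := by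
  classical
  set P := x p with hP
  set N := {q : E2 | ∃ a ∈ insert p S, ∃ b ∈ insert p S, a ≠ b ∧ orient (x a) (x b) q = 0} with hN
  have hcard : 3 ≤ (insert p S).card := by rw [Finset.card_insert_of_notMem hp]; omega
  have hNnull : volume N = 0 := nongen_null x _ hcard hGP
  have hpi : p ∈ insert p S := Finset.mem_insert_self _ _
  have hin : ∀ s ∈ S, s ∈ insert p S := fun s hs => Finset.mem_insert_of_mem hs
  have hps : ∀ s ∈ S, p ≠ s := fun s hs h => hp (h ▸ hs)
  set D : ι × ι → Set E2 := fun e => convexHull ℝ ({P, x e.2, x e.1} : Set E2) with hD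
  have hDm : ∀ e, MeasurableSet (D e) := fun e => tri_meas _ _ _
  have hvis : ∀ e ∈ Vis x S p, (e.1 ∈ S ∧ e.2 ∈ S) ∧ e.1 ≠ e.2 ∧ orient (x e.1) (x e.2) P < 0 ∧
      ∀ s ∈ S, s ≠ e.1 → s ≠ e.2 → 0 < orient (x e.1) (x e.2) (x s) := by
    intro e he
    exact (mem_Vis x S p e.1 e.2).1 he
  -- signs on the triangle
  have hDsign : ∀ e ∈ Vis x S p, ∀ q ∈ D e, 0 ≤ orient P (x e.2) q ∧
      orient (x e.1) (x e.2) q ≤ 0 ∧ 0 ≤ orient (x e.1) P q := by
    intro e he q hq
    obtain ⟨_, _, h3, _⟩ := hvis e he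
    have hT : 0 < orient P (x e.2) (x e.1) := by
      have : orient P (x e.2) (x e.1) = -orient (x e.1) (x e.2) P := by unfold orient; ring
      rw [this]; linarith
    have := (tri_iff _ _ _ _ hT).1 hq
    refine ⟨this.1, ?_, this.2.2⟩
    have h4 := this.2.1
    rw [or_swap] at h4
    linarith
  have hSsign : ∀ e ∈ Vis x S p, ∀ q ∈ hull x S, 0 ≤ orient (x e.1) (x e.2) q := by
    intro e he
    obtain ⟨_, _, _, h4⟩ := hvis e he
    apply hull_nonneg
    intro s hs
    by_cases h1 : s = e.1
    · rw [h1, or_self3]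
    by_cases h5 : s = e.2
    · rw [h5, or_self2]
    exact (h4 s hs h1 h5).le
  have hsub : (⋃ e ∈ Vis x S p, D e) ⊆ hull x (insert p S) := by
    apply iUnion₂_subset
    intro e he
    obtain ⟨⟨h1, h3⟩, _⟩ := hvis e he
    exact tri_sub_hull x _ hpi (hin _ h3) (hin _ h1)
  have hdisj1 : AEDisjoint volume (hull x S) (⋃ e ∈ Vis x S p, D e) := by
    refine measure_mono_null ?_ hNnull
    rintro q ⟨hq1, hq2⟩
    rw [mem_iUnion₂] at hq2
    obtain ⟨e, he, hqe⟩ := hq2
    obtain ⟨⟨h1, h3⟩, h5, _⟩ := hvis e he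
    refine ⟨e.1, hin _ h1, e.2, hin _ h3, h5, ?_⟩
    exact le_antisymm (hDsign e he q hqe).2.1 (hSsign e he q hq1)
  have hdisj2 : Set.Pairwise (↑(Vis x S p)) (Function.onFun (AEDisjoint volume) D) := by
    intro e he f hf hef
    have he' : e ∈ Vis x S p := by simpa using he
    have hf' : f ∈ Vis x S p := by simpa using hf
    refine measure_mono_null ?_ hNnull
    rintro q ⟨hq1, hq2⟩
    by_contra hqN
    obtain ⟨⟨a1, a2⟩, a3, a4, a5⟩ := hvis e he'
    obtain ⟨⟨b1, b2⟩, b3, b4, b5⟩ := hvis f hf'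
    obtain ⟨c1, c2, c3⟩ := hDsign e he' q hq1
    obtain ⟨d1, d2, d3⟩ := hDsign f hf' q hq2
    have hgen : ∀ a ∈ insert p S, ∀ b ∈ insert p S, a ≠ b → orient (x a) (x b) q ≠ 0 := by
      intro a ha b hb hab h
      exact hqN ⟨a, ha, b, hb, hab, h⟩
    -- crossing data for a visible edge
    have hc : ∀ g ∈ Vis x S p, q ∈ D g → ∃ t : ℝ, 0 < t ∧ ∃ w : ℝ, 0 < w ∧ w < 1 ∧
        P + t • (q - P) = (1 - w) • x g.1 + w • x g.2 := by
      intro g hg hqg
      obtain ⟨⟨g1, g2⟩, g3, g4, _⟩ := hvis g hg
      obtain ⟨k1, k2, k3⟩ := hDsign g hg q hqg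
      have l1 : 0 < orient P (x g.2) q := lt_of_le_of_ne k1
        (hgen p hpi _ (hin _ g2) (hps _ g2)).symm
      have l3 : 0 < orient (x g.1) P q := lt_of_le_of_ne k3
        (hgen _ (hin _ g1) p hpi (hps _ g1).symm).symm
      set s1 := orient P (x g.2) q with hs1
      set s3 := orient (x g.1) P q with hs3
      set s2 := -orient (x g.1) (x g.2) P with hs2
      have hs2pos : 0 < s2 := by linarith
      have hs : 0 < s1 + s3 := by linarith
      refine ⟨s2 / (s1 + s3), div_pos hs2pos hs, s3 / (s1 + s3), div_pos l3 hs, ?_, ?_⟩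
      · rw [div_lt_one hs]; linarith
      · have hne : s1 + s3 ≠ 0 := hs.ne'
        ext i
        fin_cases i
        · simp only [Fin.zero_eta, PiLp.add_apply, PiLp.smul_apply, PiLp.sub_apply, smul_eq_mul]
          field_simp
          simp only [hs1, hs2, hs3, orient]
          ring
        · simp only [Fin.mk_one, PiLp.add_apply, PiLp.smul_apply, PiLp.sub_apply, smul_eq_mul]
          field_simp
          simp only [hs1, hs2, hs3, orient]
          ring
    obtain ⟨t, ht, w, hw0, hw1, hcr⟩ := hc e he' hq1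
    obtain ⟨t', ht', w', hw0', hw1', hcr'⟩ := hc f hf' hq2
    have hz : P + t • (q - P) ∈ hull x S := by
      rw [hcr]
      exact hull_convex x S (mem_hull x S a1) (mem_hull x S a2) (by linarith) hw0.le (by ring)
    have hz' : P + t' • (q - P) ∈ hull x S := by
      rw [hcr']
      exact hull_convex x S (mem_hull x S b1) (mem_hull x S b2) (by linarith) hw0'.le (by ring)
    -- a visible edge is hit first
    have hfirst : ∀ g ∈ Vis x S p, ∀ r r' : ℝ, 0 < r → orient (x g.1) (x g.2) (P + r • (q - P)) = 0 →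
        0 < r' → P + r' • (q - P) ∈ hull x S → r ≤ r' := by
      intro g hg r r' hr hr0 hr' hmem
      obtain ⟨_, _, g4, _⟩ := hvis g hg
      have h1 := hSsign g hg _ hmem
      have aff : ∀ v : ℝ, orient (x g.1) (x g.2) (P + v • (q - P)) =
          orient (x g.1) (x g.2) P + v * (orient (x g.1) (x g.2) q - orient (x g.1) (x g.2) P) := by
        intro v
        simp only [orient, PiLp.add_apply, PiLp.smul_apply, PiLp.sub_apply, smul_eq_mul]; ring
      rw [aff] at hr0 h1
      set A := orient (x g.1) (x g.2) P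
      set B := orient (x g.1) (x g.2) q - A
      by_contra hcon
      have hcon := not_le.1 hcon
      have hB : 0 < B := by
        by_contra hB
        have := mul_nonneg hr.le (neg_nonneg.2 (not_lt.1 hB))
        linarith
      have := mul_lt_mul_of_pos_right hcon hB
      linarith
    have hzero : ∀ (g : ι × ι) (v : ℝ), orient (x g.1) (x g.2) ((1 - v) • x g.1 + v • x g.2) = 0 := by
      intro g v
      rw [or_affine _ _ _ _ _ _ (by ring), or_self3, or_self2]; ring
    have ht1 : t ≤ t' := hfirst e he' t t' ht (by rw [hcr]; exact hzero e w) ht' hz'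
    have ht2 : t' ≤ t := hfirst f hf' t' t ht' (by rw [hcr']; exact hzero f w') ht hz
    have htt : t = t' := le_antisymm ht1 ht2
    have hpt : (1 - w) • x e.1 + w • x e.2 = (1 - w') • x f.1 + w' • x f.2 := by
      rw [← hcr, ← hcr', htt]
    -- both endpoints of e lie on the line of f
    have hz0 : (1 - w) * orient (x f.1) (x f.2) (x e.1) + w * orient (x f.1) (x f.2) (x e.2) = 0 := by
      have h := or_affine (x f.1) (x f.2) (x e.1) (x e.2) (1 - w) w (by ring)
      rw [hpt, hzero] at h
      linarith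
    have n1 := hSsign f hf' _ (mem_hull x S a1)
    have n2 := hSsign f hf' _ (mem_hull x S a2)
    have z1 : orient (x f.1) (x f.2) (x e.1) = 0 := by
      have := mul_nonneg hw0.le n2
      have h6 : (1 - w) * orient (x f.1) (x f.2) (x e.1) ≤ 0 := by linarith
      by_contra hcon
      have := mul_pos (by linarith : 0 < 1 - w) (lt_of_le_of_ne n1 (Ne.symm hcon))
      linarith
    have z2 : orient (x f.1) (x f.2) (x e.2) = 0 := by
      rw [z1, mul_zero, zero_add] at hz0
      exact (mul_eq_zero.1 hz0).resolve_left hw0.ne'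
    have m1 : e.1 = f.1 ∨ e.1 = f.2 := by
      by_contra hcon
      rw [not_or] at hcon
      have := b5 e.1 a1 hcon.1 hcon.2
      linarith
    have m2 : e.2 = f.1 ∨ e.2 = f.2 := by
      by_contra hcon
      rw [not_or] at hcon
      have := b5 e.2 a2 hcon.1 hcon.2
      linarith
    rcases m1 with m1 | m1 <;> rcases m2 with m2 | m2
    · exact a3 (m1.trans m2.symm)
    · exact hef (Prod.ext m1 m2)
    · rw [m1, m2, or_swap] at a4
      linarith
    · exact a3 (m1.trans m2.symm)
  calc volume (hull x S) + ∑ e ∈ Vis x S p, volume (D e)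
      = volume (hull x S) + volume (⋃ e ∈ Vis x S p, D e) := by
        rw [measure_biUnion_finset₀ hdisj2 (fun e _ => (hDm e).nullMeasurableSet)]
    _ = volume (hull x S ∪ ⋃ e ∈ Vis x S p, D e) := by
        rw [measure_union₀ (Finset.measurableSet_biUnion _ (fun e _ => hDm e)).nullMeasurableSet
          hdisj1]
    _ ≤ volume (hull x (insert p S)) :=
        measure_mono (union_subset (hull_mono x (Finset.subset_insert _ _)) hsub)

end Pool.Agent.Helper717.Hull5
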