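import Pool.Agent.Helper717.Hull5

set_option autoImplicit false
set_option linter.unusedSectionVars false

namespace Pool.Agent.Helper717.Hull6

open MeasureTheory Set Pool.Agent.Helper717.Hull1 Pool.Agent.Helper717.Hull2
  Pool.Agent.Helper717.Hull3 Pool.Agent.Helper717.Hull4 Pool.Agent.Helper717.Hull5
open scoped ENNReal NNReal

variable {ι : Type*} [DecidableEq ι]

lemma tri_perm (a b c : E2) : ({a, b, c} : Set E2) = {a, c, b} := by
  ext q; simp only [mem_insert_iff, mem_singleton_iff]; tauto

/-- Gain when the new point is outside the triangle. -/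
lemma tri_gain (a b c p : E2) (e : ℝ) (he : 0 < e) (hT : orient a b c ≠ 0)
    (hp : p ∉ convexHull ℝ ({a, b, c} : Set E2)) (hu : e ≤ |orient a b p|)
    (hv : e ≤ |orient b c p|) (hw : e ≤ |orient c a p|) :
    |orient a b c| + e ≤ |orient a b p| + |orient b c p| + |orient c a p| := by
  have hs := or_sum a b c p
  have key : ∀ u v w T : ℝ, u + v + w = T → e ≤ |u| → e ≤ |v| → e ≤ |w| → 0 < T →
      ¬ (0 ≤ u ∧ 0 ≤ v ∧ 0 ≤ w) → |T| + e ≤ |u| + |v| + |w| := by
    intro u v w T h hu hv hw hT hn
    rw [abs_of_pos hT]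
    have l1 := le_abs_self u
    have l2 := le_abs_self v
    have l3 := le_abs_self w
    by_cases h1 : 0 ≤ u
    · by_cases h2 : 0 ≤ v
      · have h3 : w < 0 := not_le.1 fun h3 => hn ⟨h1, h2, h3⟩
        rw [abs_of_neg h3] at hw ⊢
        linarith
      · have h2 := not_le.1 h2
        rw [abs_of_neg h2] at hv ⊢
        linarith
    · have h1 := not_le.1 h1
      rw [abs_of_neg h1] at hu ⊢
      linarith
  rcases lt_or_gt_of_ne hT with h | h
  · have h1 : 0 < orient a c b := by rw [or_swap']; linarith
    rw [tri_perm, tri_iff a c b p h1] at hp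
    have e1 : orient a c p = -orient c a p := or_swap _ _ _
    have e2 : orient c b p = -orient b c p := or_swap _ _ _
    have e3 : orient b a p = -orient a b p := or_swap _ _ _
    rw [e1, e2, e3] at hp
    have := key (-orient a b p) (-orient b c p) (-orient c a p) (-orient a b c) (by linarith)
      (by rwa [abs_neg]) (by rwa [abs_neg]) (by rwa [abs_neg]) (by linarith)
      (fun h => hp ⟨h.2.2, h.2.1, h.1⟩)
    rwa [abs_neg, abs_neg, abs_neg, abs_neg] at this
  · rw [tri_iff a b c p h] at hp
    exact key _ _ _ _ hs hu hv hw h hp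

/-- Splitting a triangle keeps the area. -/
lemma tri_split (a b c p : E2) (hT : orient a b c ≠ 0)
    (hp : p ∈ convexHull ℝ ({a, b, c} : Set E2)) :
    |orient a b p| + |orient b c p| + |orient c a p| = |orient a b c| := by
  have hs := or_sum a b c p
  rcases lt_or_gt_of_ne hT with h | h
  · have h1 : 0 < orient a c b := by rw [or_swap']; linarith
    rw [tri_perm, tri_iff a c b p h1] at hp
    have e1 : orient a c p = -orient c a p := or_swap _ _ _
    have e2 : orient c b p = -orient b c p := or_swap _ _ _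
    have e3 : orient b a p = -orient a b p := or_swap _ _ _
    rw [e1, e2, e3] at hp
    rw [abs_of_neg h, abs_of_nonpos (by linarith [hp.2.2]), abs_of_nonpos (by linarith [hp.2.1]),
      abs_of_nonpos (by linarith [hp.1])]
    linarith
  · rw [tri_iff a b c p h] at hp
    rw [abs_of_pos h, abs_of_nonneg hp.1, abs_of_nonneg hp.2.1, abs_of_nonneg hp.2.2]
    exact hs

lemma tri_cover_pos (a b c p q : E2) (hT : 0 < orient a b c)
    (hp : p ∈ convexHull ℝ ({a, b, c} : Set E2)) (hq : q ∈ convexHull ℝ ({a, b, c} : Set E2))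
    (hu : orient a b p ≠ 0) (hv : orient b c p ≠ 0) (hw : orient c a p ≠ 0) :
    q ∈ convexHull ℝ ({a, b, p} : Set E2) ∨ q ∈ convexHull ℝ ({b, c, p} : Set E2) ∨
      q ∈ convexHull ℝ ({c, a, p} : Set E2) := by
  rw [tri_iff _ _ _ _ hT] at hp hq
  have hu' : 0 < orient a b p := lt_of_le_of_ne hp.1 hu.symm
  have hv' : 0 < orient b c p := lt_of_le_of_ne hp.2.1 hv.symm
  have hw' : 0 < orient c a p := lt_of_le_of_ne hp.2.2 hw.symm
  rw [tri_iff _ _ _ _ hu', tri_iff _ _ _ _ hv', tri_iff _ _ _ _ hw']
  have rel : orient b c p * orient p a q + orient c a p * orient p b q +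
      orient a b p * orient p c q = 0 := by
    unfold orient; ring
  have e1 : orient b p q = -orient p b q := or_swap _ _ _
  have e2 : orient c p q = -orient p c q := or_swap _ _ _
  have e3 : orient a p q = -orient p a q := or_swap _ _ _
  rw [e1, e2, e3]
  set α := orient p a q
  set β := orient p b q
  set γ := orient p c q
  rcases le_or_gt 0 α with h1 | h1
  · rcases le_or_gt β 0 with h2 | h2
    · left; exact ⟨hq.1, by linarith, h1⟩
    · rcases le_or_gt γ 0 with h3 | h3
      · right; left; exact ⟨hq.2.1, by linarith, h2.le⟩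
      · exfalso
        have := mul_nonneg hv'.le h1
        have := mul_pos hw' h2
        have := mul_pos hu' h3
        linarith
  · rcases le_or_gt 0 γ with h3 | h3
    · right; right; exact ⟨hq.2.2, by linarith, h3⟩
    · rcases le_or_gt 0 β with h2 | h2
      · right; left; exact ⟨hq.2.1, by linarith, h2⟩
      · exfalso
        have := mul_neg_of_pos_of_neg hv' h1
        have := mul_neg_of_pos_of_neg hw' h2
        have := mul_neg_of_pos_of_neg hu' h3
        linarith

lemma tri_cover (a b c p q : E2) (hT : orient a b c ≠ 0)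
    (hp : p ∈ convexHull ℝ ({a, b, c} : Set E2)) (hq : q ∈ convexHull ℝ ({a, b, c} : Set E2))
    (hu : orient a b p ≠ 0) (hv : orient b c p ≠ 0) (hw : orient c a p ≠ 0) :
    q ∈ convexHull ℝ ({a, b, p} : Set E2) ∨ q ∈ convexHull ℝ ({b, c, p} : Set E2) ∨
      q ∈ convexHull ℝ ({c, a, p} : Set E2) := by
  rcases lt_or_gt_of_ne hT with h | h
  · have h1 : 0 < orient a c b := by rw [or_swap']; linarith
    rw [tri_perm] at hp hq
    have e1 : orient a c p = -orient c a p := or_swap _ _ _
    have e2 : orient c b p = -orient b c p := or_swap _ _ _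
    have e3 : orient b a p = -orient a b p := or_swap _ _ _
    have := tri_cover_pos a c b p q h1 hp hq (by rw [e1]; exact neg_ne_zero.2 hw)
      (by rw [e2]; exact neg_ne_zero.2 hv) (by rw [e3]; exact neg_ne_zero.2 hu)
    have s1 : ({a, c, p} : Set E2) = {c, a, p} := by
      ext q; simp only [mem_insert_iff, mem_singleton_iff]; tauto
    have s2 : ({c, b, p} : Set E2) = {b, c, p} := by
      ext q; simp only [mem_insert_iff, mem_singleton_iff]; tauto
    have s3 : ({b, a, p} : Set E2) = {a, b, p} := by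
      ext q; simp only [mem_insert_iff, mem_singleton_iff]; tauto
    rw [s1, s2, s3] at this
    tauto
  · exact tri_cover_pos a b c p q h hp hq hu hv hw

/-- Area of an indexed triangle. -/
noncomputable def ar (x : ι → E2) (t : ι × ι × ι) : ℝ := |orient (x t.1) (x t.2.1) (x t.2.2)| / 2

/-- A family of indexed triangles which triangulates the hull of `x` and has large total area
in `y`. -/
structure Good (x y : ι → E2) (S : Finset ι) (τ : Multiset (ι × ι × ι)) : Prop where
  mem : ∀ t ∈ τ, t.1 ∈ S ∧ t.2.1 ∈ S ∧ t.2.2 ∈ S ∧ t.1 ≠ t.2.1 ∧ t.2.1 ≠ t.2.2 ∧ t.1 ≠ t.2.2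
  area : ENNReal.ofReal ((τ.map (ar x)).sum) ≤ volume (hull x S)
  cover : ∀ q ∈ hull x S, (∀ a ∈ S, ∀ b ∈ S, a ≠ b → orient (x a) (x b) q ≠ 0) →
    ∃ t ∈ τ, q ∈ convexHull ℝ ({x t.1, x t.2.1, x t.2.2} : Set E2)
  ysum : volume (hull y S) ≤ ENNReal.ofReal ((τ.map (ar y)).sum)

lemma ar_nonneg (x : ι → E2) (t : ι × ι × ι) : 0 ≤ ar x t := by unfold ar; positivity

lemma sum_nonneg (x : ι → E2) (τ : Multiset (ι × ι × ι)) : 0 ≤ (τ.map (ar x)).sum :=
  Multiset.sum_nonneg (by
    intro r hr
    obtain ⟨t, _, rfl⟩ := Multiset.mem_map.1 hr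
    exact ar_nonneg x t)

/-- Insertion of an interior point. -/
lemma insert_int (x y : ι → E2) (S : Finset ι) (τ : Multiset (ι × ι × ι)) (hG : Good x y S τ)
    (p : ι) (hp : p ∉ S) (hGPx : GP x (insert p S)) (hin : x p ∈ hull x S)
    (hCP : CP y (insert p S)) (e : ℝ) (he : 0 < e)
    (hmin : ∀ i ∈ insert p S, ∀ j ∈ insert p S, ∀ k ∈ insert p S, i ≠ j → j ≠ k → i ≠ k →
      e ≤ |orient (y i) (y j) (y k)|)
    (hear : volume (hull y (insert p S)) ≤ volume (hull y S) + ENNReal.ofReal (e / 2)) :
    ∃ τ', Good x y (insert p S) τ' := by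
  classical
  have hpi : p ∈ insert p S := Finset.mem_insert_self _ _
  have hins : ∀ s ∈ S, s ∈ insert p S := fun s hs => Finset.mem_insert_of_mem hs
  have hps : ∀ s ∈ S, s ≠ p := fun s hs h => hp (h ▸ hs)
  obtain ⟨⟨a, b, c⟩, ht, htp⟩ := hG.cover (x p) hin (fun a ha b hb hab =>
    hGPx a (hins a ha) b (hins b hb) p hpi hab (hps b hb) (hps a ha))
  obtain ⟨ha, hb, hc, hab, hbc, hac⟩ := hG.mem _ ht
  simp only at ha hb hc hab hbc hac htp
  have hTx : orient (x a) (x b) (x c) ≠ 0 := hGPx a (hins a ha) b (hins b hb) c (hins c hc) hab hbc hac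
  have hTy : orient (y a) (y b) (y c) ≠ 0 := by
    have := hmin a (hins a ha) b (hins b hb) c (hins c hc) hab hbc hac
    intro h; rw [h, abs_zero] at this; linarith
  have hux := hGPx a (hins a ha) b (hins b hb) p hpi hab (hps b hb) (hps a ha)
  have hvx := hGPx b (hins b hb) c (hins c hc) p hpi hbc (hps c hc) (hps b hb)
  have hwx := hGPx c (hins c hc) a (hins a ha) p hpi hac.symm (hps a ha) (hps c hc)
  have hτ : τ = (a, b, c) ::ₘ τ.erase (a, b, c) := (Multiset.cons_erase ht).symm
  set ρ := τ.erase (a, b, c) with hρ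
  have hxs := tri_split (x a) (x b) (x c) (x p) hTx htp
  have hyg := tri_gain (y a) (y b) (y c) (y p) e he hTy
    (hCP a (hins a ha) b (hins b hb) c (hins c hc) p hpi (hps a ha).symm (hps b hb).symm (hps c hc).symm)
    (hmin a (hins a ha) b (hins b hb) p hpi hab (hps b hb) (hps a ha))
    (hmin b (hins b hb) c (hins c hc) p hpi hbc (hps c hc) (hps b hb))
    (hmin c (hins c hc) a (hins a ha) p hpi hac.symm (hps a ha) (hps c hc))
  have hhull : hull x (insert p S) = hull x S := by
    apply subset_antisymm _ (hull_mono x (Finset.subset_insert _ _))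
    unfold hull
    apply convexHull_min _ (convex_convexHull _ _)
    rintro _ ⟨s, hs, rfl⟩
    have hs' : s ∈ insert p S := by simpa using hs
    rcases Finset.mem_insert.1 hs' with h | h
    · rw [h]; exact hin
    · exact mem_hull x S h
  refine ⟨(a, b, p) ::ₘ (b, c, p) ::ₘ (c, a, p) ::ₘ ρ, ?_, ?_, ?_, ?_⟩
  · intro t ht'
    rw [Multiset.mem_cons, Multiset.mem_cons, Multiset.mem_cons] at ht'
    rcases ht' with rfl | rfl | rfl | h
    · exact ⟨hins a ha, hins b hb, hpi, hab, hps b hb, hps a ha⟩
    · exact ⟨hins b hb, hins c hc, hpi, hbc, hps c hc, hps b hb⟩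
    · exact ⟨hins c hc, hins a ha, hpi, hac.symm, hps a ha, hps c hc⟩
    · have h' : t ∈ τ := by rw [hτ]; exact Multiset.mem_cons_of_mem h
      obtain ⟨m1, m2, m3, m4⟩ := hG.mem t h'
      exact ⟨hins _ m1, hins _ m2, hins _ m3, m4⟩
  · rw [hhull]
    have h1 := hG.area
    rw [hτ, Multiset.map_cons, Multiset.sum_cons] at h1
    rw [Multiset.map_cons, Multiset.map_cons, Multiset.map_cons, Multiset.sum_cons,
      Multiset.sum_cons, Multiset.sum_cons]
    refine le_trans (le_of_eq ?_) h1
    congr 1
    simp only [ar]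
    linarith
  · intro q hq hgen
    rw [hhull] at hq
    obtain ⟨t, ht', hqt⟩ := hG.cover q hq (fun a ha b hb hab => hgen a (hins a ha) b (hins b hb) hab)
    by_cases hteq : t = (a, b, c)
    · rw [hteq] at hqt
      simp only at hqt
      rcases tri_cover _ _ _ _ _ hTx htp hqt hux hvx hwx with h | h | h
      · exact ⟨(a, b, p), by simp, h⟩
      · exact ⟨(b, c, p), by simp, h⟩
      · exact ⟨(c, a, p), by simp, h⟩
    · refine ⟨t, ?_, hqt⟩
      rw [hτ, Multiset.mem_cons] at ht'
      rcases ht' with h | h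
      · exact absurd h hteq
      · exact Multiset.mem_cons_of_mem (Multiset.mem_cons_of_mem (Multiset.mem_cons_of_mem h))
  · have h1 := hG.ysum
    have h0 := sum_nonneg y τ
    calc volume (hull y (insert p S)) ≤ volume (hull y S) + ENNReal.ofReal (e / 2) := hear
      _ ≤ ENNReal.ofReal ((τ.map (ar y)).sum) + ENNReal.ofReal (e / 2) := by gcongr
      _ = ENNReal.ofReal ((τ.map (ar y)).sum + e / 2) := (ENNReal.ofReal_add h0 (by positivity)).symm
      _ ≤ _ := by
        apply ENNReal.ofReal_le_ofReal
        rw [hτ, Multiset.map_cons, Multiset.sum_cons, Multiset.map_cons, Multiset.map_cons,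
          Multiset.map_cons, Multiset.sum_cons, Multiset.sum_cons, Multiset.sum_cons]
        simp only [ar]
        linarith

/-- Insertion of an exterior point. -/
lemma insert_ext (x y : ι → E2) (S : Finset ι) (τ : Multiset (ι × ι × ι)) (hG : Good x y S τ)
    (p : ι) (hp : p ∉ S) (h2 : 2 ≤ S.card) (hGPx : GP x (insert p S)) (hout : x p ∉ hull x S)
    (e : ℝ) (he : 0 < e)
    (hmin : ∀ i ∈ insert p S, ∀ j ∈ insert p S, ∀ k ∈ insert p S, i ≠ j → j ≠ k → i ≠ k →
      e ≤ |orient (y i) (y j) (y k)|)
    (hear : volume (hull y (insert p S)) ≤ volume (hull y S) + ENNReal.ofReal (e / 2)) :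
    ∃ τ', Good x y (insert p S) τ' := by
  classical
  have hpi : p ∈ insert p S := Finset.mem_insert_self _ _
  have hins : ∀ s ∈ S, s ∈ insert p S := fun s hs => Finset.mem_insert_of_mem hs
  have hps : ∀ s ∈ S, p ≠ s := fun s hs h => hp (h ▸ hs)
  set κ : Multiset (ι × ι × ι) := (Vis x S p).val.map fun f => (p, f.2, f.1) with hκ
  have hvis : ∀ f ∈ Vis x S p, f.1 ∈ S ∧ f.2 ∈ S ∧ f.1 ≠ f.2 := by
    intro f hf
    have := (mem_Vis x S p f.1 f.2).1 hf
    exact ⟨this.1.1, this.1.2, this.2.1⟩
  have hκm : ∀ t ∈ κ, ∃ f ∈ Vis x S p, t = (p, f.2, f.1) := by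
    intro t ht
    obtain ⟨f, hf, rfl⟩ := Multiset.mem_map.1 ht
    exact ⟨f, hf, rfl⟩
  have hsum : ∀ z : ι → E2, (κ.map (ar z)).sum = ∑ f ∈ Vis x S p, ar z (p, f.2, f.1) := by
    intro z
    rw [hκ, Multiset.map_map]
    rfl
  refine ⟨τ + κ, ?_, ?_, ?_, ?_⟩
  · intro t ht
    rw [Multiset.mem_add] at ht
    rcases ht with h | h
    · obtain ⟨m1, m2, m3, m4⟩ := hG.mem t h
      exact ⟨hins _ m1, hins _ m2, hins _ m3, m4⟩
    · obtain ⟨f, hf, rfl⟩ := hκm t h
      obtain ⟨f1, f2, f3⟩ := hvis f hf
      exact ⟨hpi, hins _ f2, hins _ f1, hps _ f2, f3.symm, hps _ f1⟩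
  · rw [Multiset.map_add, Multiset.sum_add, ENNReal.ofReal_add (sum_nonneg x τ) (sum_nonneg x κ),
      hsum x]
    refine le_trans ?_ (vol_add x S p hp h2 hGPx)
    gcongr
    · exact hG.area
    · rw [ENNReal.ofReal_sum_of_nonneg (fun f _ => ar_nonneg x _)]
      apply Finset.sum_le_sum
      intro f hf
      obtain ⟨f1, f2, f3⟩ := hvis f hf
      apply le_of_eq
      rw [tri_vol _ _ _ (hGPx p hpi _ (hins _ f2) _ (hins _ f1) (hps _ f2) f3.symm (hps _ f1))]
      rfl
  · intro q hq hgen
    by_cases hqS : q ∈ hull x S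
    · obtain ⟨t, ht, hqt⟩ := hG.cover q hqS
        (fun a ha b hb hab => hgen a (hins a ha) b (hins b hb) hab)
      exact ⟨t, Multiset.mem_add.2 (Or.inl ht), hqt⟩
    · have hSne : S.Nonempty := Finset.card_pos.1 (by omega)
      obtain ⟨a, b, hab, hqt⟩ := factB x S hSne p hGPx q hq hqS (by
        intro s hs h
        apply hgen p hpi s (hins s hs) (hps s hs)
        have : orient (x p) (x s) q = -orient (x p) q (x s) := or_swap' _ _ _
        rw [this, h, neg_zero])
      refine ⟨(p, b, a), Multiset.mem_add.2 (Or.inr ?_), hqt⟩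
      exact Multiset.mem_map.2 ⟨(a, b), hab, rfl⟩
  · have h1 := hG.ysum
    have h0 := sum_nonneg y τ
    obtain ⟨f, hf⟩ := vis_nonempty x S p hp h2 hGPx hout
    obtain ⟨f1, f2, f3⟩ := hvis f hf
    have hge : e / 2 ≤ (κ.map (ar y)).sum := by
      rw [hsum y]
      have h3 : ar y (p, f.2, f.1) ≤ ∑ f ∈ Vis x S p, ar y (p, f.2, f.1) :=
        Finset.single_le_sum (f := fun f => ar y (p, f.2, f.1)) (fun f _ => ar_nonneg y _) hf
      have h4 := hmin p hpi _ (hins _ f2) _ (hins _ f1) (hps _ f2) f3.symm (hps _ f1)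
      have h5 : ar y (p, f.2, f.1) = |orient (y p) (y f.2) (y f.1)| / 2 := rfl
      linarith
    calc volume (hull y (insert p S)) ≤ volume (hull y S) + ENNReal.ofReal (e / 2) := hear
      _ ≤ ENNReal.ofReal ((τ.map (ar y)).sum) + ENNReal.ofReal (e / 2) := by gcongr
      _ = ENNReal.ofReal ((τ.map (ar y)).sum + e / 2) := (ENNReal.ofReal_add h0 (by positivity)).symm
      _ ≤ _ := by
        apply ENNReal.ofReal_le_ofReal
        rw [Multiset.map_add, Multiset.sum_add]
        linarith

/-- Existence of good families. -/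
lemma exists_good (x y : ι → E2) : ∀ n : ℕ, ∀ S : Finset ι, S.card = n + 2 → GP x S → GP y S →
    CP y S → ∃ τ, Good x y S τ := by
  intro n
  induction n with
  | zero =>
    intro S hcard _ _ hCP
    obtain ⟨a, b, hab, rfl⟩ := Finset.card_eq_two.1 hcard
    have hline : ∀ z : ι → E2, ∀ q ∈ hull z {a, b}, orient (z a) (z b) q = 0 := by
      intro z q hq
      apply le_antisymm
      · apply hull_nonpos z {a, b} (z a) (z b) _ q hq
        intro s hs
        simp only [Finset.mem_insert, Finset.mem_singleton] at hs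
        rcases hs with rfl | rfl
        · rw [or_self3]
        · rw [or_self2]
      · apply hull_nonneg z {a, b} (z a) (z b) _ q hq
        intro s hs
        simp only [Finset.mem_insert, Finset.mem_singleton] at hs
        rcases hs with rfl | rfl
        · rw [or_self3]
        · rw [or_self2]
    refine ⟨0, ?_, ?_, ?_, ?_⟩
    · intro t ht; simp at ht
    · simp
    · intro q hq hgen
      exact absurd (hline x q hq) (hgen a (by simp) b (by simp) hab)
    · have hyab : y a ≠ y b := by
        intro h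
        apply hCP b (by simp) b (by simp) b (by simp) a (by simp) hab hab hab
        rw [h]
        exact subset_convexHull _ _ (by simp)
      have : volume (hull y {a, b}) = 0 :=
        measure_mono_null (fun q hq => hline y q hq) (line_null _ _ hyab)
      rw [this]; exact zero_le
  | succ n ih =>
    intro S hcard hGPx hGPy hCP
    obtain ⟨e, he, hmin, p, hp, hear⟩ := ear y S hCP hGPy (by omega)
    have hins : insert p (S.erase p) = S := Finset.insert_erase hp
    have hsub : S.erase p ⊆ S := Finset.erase_subset _ _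
    obtain ⟨τ, hG⟩ := ih (S.erase p) (by rw [Finset.card_erase_of_mem hp]; omega)
      (fun a ha b hb c hc => hGPx a (hsub ha) b (hsub hb) c (hsub hc))
      (fun a ha b hb c hc => hGPy a (hsub ha) b (hsub hb) c (hsub hc))
      (fun a ha b hb c hc s hs => hCP a (hsub ha) b (hsub hb) c (hsub hc) s (hsub hs))
    have hpn : p ∉ S.erase p := Finset.notMem_erase _ _
    by_cases hin : x p ∈ hull x (S.erase p)
    · have := insert_int x y (S.erase p) τ hG p hpn (by rw [hins]; exact hGPx) hin
        (by rw [hins]; exact hCP) e he (by rw [hins]; exact hmin) (by rw [hins]; exact hear)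
      rwa [hins] at this
    · have := insert_ext x y (S.erase p) τ hG p hpn (by
        rw [Finset.card_erase_of_mem hp]; omega) (by rw [hins]; exact hGPx) hin e he
        (by rw [hins]; exact hmin) (by rw [hins]; exact hear)
      rwa [hins] at this

/-- Three collinear points: one is between the others. -/
lemma between (a b c : E2) (h : orient a b c = 0) : a ∈ convexHull ℝ ({b, c, c} : Set E2) ∨
    b ∈ convexHull ℝ ({a, c, c} : Set E2) ∨ c ∈ convexHull ℝ ({a, b, b} : Set E2) := by
  have hseg : ∀ p q r : E2, ∀ t : ℝ, 0 ≤ t → t ≤ 1 → r = (1 - t) • p + t • q →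
      r ∈ convexHull ℝ ({p, q, q} : Set E2) := by
    intro p q r t h0 h1 hr
    rw [hr]
    exact (convex_convexHull ℝ _) (subset_convexHull _ _ (by simp)) (subset_convexHull _ _ (by simp))
      (by linarith) h0 (by ring)
  by_cases hab : a = b
  · left
    apply subset_convexHull
    rw [hab]; simp
  · -- c = a + t (b - a)
    have hd : 0 < (b 0 - a 0) ^ 2 + (b 1 - a 1) ^ 2 := by
      by_contra hcon
      apply hab
      have h0 : (b 0 - a 0) ^ 2 = 0 := by nlinarith [sq_nonneg (b 0 - a 0), sq_nonneg (b 1 - a 1)]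
      have h1 : (b 1 - a 1) ^ 2 = 0 := by nlinarith [sq_nonneg (b 0 - a 0), sq_nonneg (b 1 - a 1)]
      ext i
      fin_cases i
      · have := pow_eq_zero_iff (two_ne_zero) |>.1 h0
        simp only [Fin.zero_eta]; linarith
      · have := pow_eq_zero_iff (two_ne_zero) |>.1 h1
        simp only [Fin.mk_one]; linarith
    set D := (b 0 - a 0) ^ 2 + (b 1 - a 1) ^ 2 with hD
    set t := ((c 0 - a 0) * (b 0 - a 0) + (c 1 - a 1) * (b 1 - a 1)) / D with ht
    unfold orient at h
    have hc : c = (1 - t) • a + t • b := by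
      ext i
      fin_cases i
      · simp only [Fin.zero_eta, PiLp.add_apply, PiLp.smul_apply, smul_eq_mul]
        rw [ht]; field_simp; rw [hD]
        linear_combination (b 1 - a 1) * (-1) * h
      · simp only [Fin.mk_one, PiLp.add_apply, PiLp.smul_apply, smul_eq_mul]
        rw [ht]; field_simp; rw [hD]
        linear_combination (b 0 - a 0) * h
    rcases le_or_gt t 0 with h1 | h1
    · left
      -- a between b and c
      have h1t : (1 - t) ≠ 0 := by linarith
      have hpos : 0 < 1 - t := by linarith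
      refine hseg b c a (1 / (1 - t)) (by positivity) (by rw [div_le_one hpos]; linarith) ?_
      rw [hc, smul_add, smul_smul, smul_smul, one_div, inv_mul_cancel₀ h1t, one_smul]
      have : (1 - (1 - t)⁻¹) • b + (a + ((1 - t)⁻¹ * t) • b) =
          a + ((1 - (1 - t)⁻¹) + (1 - t)⁻¹ * t) • b := by module
      rw [this]
      have : (1 - (1 - t)⁻¹) + (1 - t)⁻¹ * t = 0 := by field_simp; ring
      rw [this, zero_smul, add_zero]
    · rcases le_or_gt t 1 with h2 | h2
      · right; right
        exact hseg a b c t h1.le h2 hc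
      · right; left
        refine hseg a c b (1 / t) (by positivity) (by rw [div_le_one h1]; linarith) ?_
        rw [hc, smul_add, smul_smul, smul_smul, one_div, inv_mul_cancel₀ h1.ne', one_smul]
        have : (1 - t⁻¹) • a + ((t⁻¹ * (1 - t)) • a + b) =
            ((1 - t⁻¹) + t⁻¹ * (1 - t)) • a + b := by module
        rw [this]
        have : (1 - t⁻¹) + t⁻¹ * (1 - t) = 0 := by field_simp; ring
        rw [this, zero_smul, zero_add]

/-- Triangle area domination implies hull area domination. -/
theorem main [Fintype ι] (x y : ι → E2)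
    (hT : ∀ i j k, |orient (y i) (y j) (y k)| ≤ |orient (x i) (x j) (x k)|) :
    volume (convexHull ℝ (Set.range y)) ≤ volume (convexHull ℝ (Set.range x)) := by
  classical
  have huniv : ∀ z : ι → E2, hull z Finset.univ = convexHull ℝ (Set.range z) := by
    intro z; simp [hull]
  rw [← huniv, ← huniv]
  have hne : (Finset.univ.filter
      (fun S : Finset ι => hull y S = hull y Finset.univ) : Finset (Finset ι)).Nonempty :=
    ⟨Finset.univ, by simp⟩
  obtain ⟨S, hS, hmin⟩ := Finset.exists_min_image _ Finset.card hne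
  rw [Finset.mem_filter] at hS
  have hSy := hS.2
  have hCP : CP y S := by
    intro a ha b hb c hc s hs hsa hsb hsc hmem
    have h1 : hull y (S.erase s) = hull y Finset.univ := by
      rw [← hSy]
      apply subset_antisymm (hull_mono y (Finset.erase_subset _ _))
      apply convexHull_min _ (hull_convex y _)
      rintro _ ⟨r, hr, rfl⟩
      have hr' : r ∈ S := by simpa using hr
      by_cases hrs : r = s
      · rw [hrs]
        exact tri_sub_hull y (S.erase s) (Finset.mem_erase.2 ⟨hsa.symm, ha⟩)
          (Finset.mem_erase.2 ⟨hsb.symm, hb⟩) (Finset.mem_erase.2 ⟨hsc.symm, hc⟩) hmem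
      · exact mem_hull y _ (Finset.mem_erase.2 ⟨hrs, hr'⟩)
    have h2 := hmin (S.erase s) (by rw [Finset.mem_filter]; exact ⟨Finset.mem_univ _, h1⟩)
    have h3 := Finset.card_erase_lt_of_mem hs
    omega
  have hGPy : GP y S := by
    intro a ha b hb c hc hab hbc hac h
    rcases between _ _ _ h with h | h | h
    · exact hCP b hb c hc c hc a ha hab hac hac h
    · exact hCP a ha c hc c hc b hb hab.symm hbc hbc h
    · exact hCP a ha b hb b hb c hc hac.symm hbc.symm hbc.symm h
  have hGPx : GP x S := by
    intro a ha b hb c hc hab hbc hac h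
    have h1 := hT a b c
    rw [h, abs_zero] at h1
    exact hGPy a ha b hb c hc hab hbc hac (abs_nonpos_iff.1 h1)
  rw [← hSy]
  by_cases hcard : 2 ≤ S.card
  · obtain ⟨τ, hG⟩ := exists_good x y (S.card - 2) S (by omega) hGPx hGPy hCP
    calc volume (hull y S) ≤ ENNReal.ofReal ((τ.map (ar y)).sum) := hG.ysum
      _ ≤ ENNReal.ofReal ((τ.map (ar x)).sum) := by
        apply ENNReal.ofReal_le_ofReal
        apply Multiset.sum_map_le_sum_map
        intro t _
        unfold ar
        have := hT t.1 t.2.1 t.2.2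
        linarith
      _ ≤ volume (hull x S) := hG.area
      _ ≤ volume (hull x Finset.univ) := measure_mono (hull_mono x (Finset.subset_univ _))
  · have hfin : S.card ≤ 1 := by omega
    have hsub : (hull y S).Subsingleton := by
      have h1 : (y '' (S : Set ι)).Subsingleton := by
        rintro _ ⟨a, ha, rfl⟩ _ ⟨b, hb, rfl⟩
        rw [Finset.card_le_one.1 hfin a (by simpa using ha) b (by simpa using hb)]
      unfold hull
      rcases h1.eq_empty_or_singleton with h | ⟨z, h⟩
      · rw [h, convexHull_empty]; exact Set.subsingleton_empty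
      · rw [h, convexHull_singleton]; exact Set.subsingleton_singleton
    have : volume (hull y S) = 0 := hsub.measure_zero _
    rw [this]; exact zero_le

end Pool.Agent.Helper717.Hull6
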