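import Pool.Agent.Helper717.Tri

set_option autoImplicit false

namespace Pool.Agent.Helper717.Planar

open Finset Pool.Agent.Helper717.Core Pool.Agent.Helper717.BallTable Pool.Agent.Helper717.Core2
  Pool.Agent.Helper717.Tri

variable {E : Type*} [NormedAddCommGroup E] [InnerProductSpace ℝ E]

/-- A closed trajectory in an abstract table. -/
structure Traj (K : Set E) (n : ℕ) (p e : ℕ → E) : Prop where
  n3 : 3 ≤ n
  per : ∀ i, p (i + n) = p i
  mem : ∀ i, p i ∈ K
  ne : ∀ i, p i ≠ p (i + 1)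
  he : ∀ i, e i = ‖p (i + 1) - p i‖⁻¹ • (p (i + 1) - p i)
  hv : ∀ i, e i - e (i + 1) ≠ 0
  hN : ∀ i, ∀ x ∈ K, inner ℝ x (e i - e (i + 1)) ≤ inner ℝ (p (i + 1)) (e i - e (i + 1))

variable {K : Set E} {n : ℕ} {p e : ℕ → E}

lemma Traj.pos (h : Traj K n p e) (i : ℕ) : 0 < ‖p (i + 1) - p i‖ :=
  norm_pos_iff.2 (sub_ne_zero.2 (h.ne i).symm)

lemma Traj.step (h : Traj K n p e) (i : ℕ) : p (i + 1) - p i = ‖p (i + 1) - p i‖ • e i := by
  rw [h.he i, smul_smul, mul_inv_cancel₀ (h.pos i).ne', one_smul]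

lemma Traj.unit (h : Traj K n p e) (i : ℕ) : ‖e i‖ = 1 := by
  rw [h.he i, norm_smul, norm_inv, norm_norm]
  exact inv_mul_cancel₀ (h.pos i).ne'

lemma Traj.eper (h : Traj K n p e) (i : ℕ) : e (i + n) = e i := by
  rw [h.he, h.he, h.per, show i + n + 1 = (i + 1) + n by ring, h.per]

lemma Traj.en (h : Traj K n p e) : e n = e 0 := by
  have := h.eper 0
  rwa [zero_add] at this

lemma Traj.pn (h : Traj K n p e) : p n = p 0 := by
  have := h.per 0
  rwa [zero_add] at this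

lemma Traj.sum0 (h : Traj K n p e) : ∑ i ∈ range n, ‖p (i + 1) - p i‖ • e i = 0 := by
  simp only [← h.step]
  rw [sum_range_sub, h.pn, sub_self]

lemma Traj.len (h : Traj K n p e) : ∑ i ∈ range n, ‖p (i + 1) - p i‖
    = ∑ i ∈ Ico 0 n, inner ℝ (p (i + 1)) (e i - e (i + 1)) := by
  rw [← range_eq_Ico]
  have h1 : ∑ i ∈ range n, ‖p (i + 1) - p i‖ = ∑ i ∈ range n, inner ℝ (p (i + 1) - p i) (e i) := by
    refine sum_congr rfl fun i _ => ?_
    conv_rhs => rw [h.step i, inner_smul_left, real_inner_self_eq_norm_sq, h.unit i]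
    simp
  have h2 : ∑ i ∈ range n, inner ℝ (p i) (e i) = ∑ i ∈ range n, inner ℝ (p (i + 1)) (e (i + 1)) := by
    have a1 := sum_range_succ (fun i => inner ℝ (p i) (e i)) n
    have a2 := sum_range_succ' (fun i => inner ℝ (p i) (e i)) n
    rw [h.pn, h.en] at a1
    linarith
  rw [h1]
  simp only [inner_sub_left, inner_sub_right, sum_sub_distrib]
  rw [h2]

lemma hsumeq (e : ℕ → E) (x : E) (a b : ℕ) (hab : a ≤ b) :
    ∑ i ∈ Ico a b, inner ℝ x (e i - e (i + 1)) = inner ℝ x (e a - e b) := by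
  rw [← inner_sum]
  congr 1
  induction b, hab using Nat.le_induction with
  | base => simp
  | succ b hb ih =>
    rw [sum_Ico_succ_top hb, ih]; abel

/-- Uniqueness of support points. -/
lemma Traj.strict (h : Traj K n p e) {Δ : ℝ} (hT : Table K Δ) (x : E) (hx : x ∈ K) (i : ℕ)
    (hxi : x ≠ p (i + 1)) :
    inner ℝ x (e i - e (i + 1)) < inner ℝ (p (i + 1)) (e i - e (i + 1)) := by
  have hvn : ‖e i - e (i + 1)‖ ≠ 0 := norm_ne_zero_iff.2 (h.hv i)
  have hpos : 0 < ‖e i - e (i + 1)‖ := norm_pos_iff.2 (h.hv i)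
  have h1 := hT.ball (p (i + 1)) (h.mem _) (‖e i - e (i + 1)‖⁻¹ • (e i - e (i + 1)))
    (by rw [norm_smul, norm_inv, norm_norm, inv_mul_cancel₀ hvn])
    (by
      intro x hx
      rw [inner_smul_right, inner_smul_right]
      exact mul_le_mul_of_nonneg_left (h.hN i x hx) (inv_nonneg.2 (norm_nonneg _))) x hx
  have h2 : 0 < ‖x - p (i + 1)‖ ^ 2 := by
    have : 0 < ‖x - p (i + 1)‖ := norm_pos_iff.2 (sub_ne_zero.2 hxi)
    positivity
  rw [inner_smul_right, inner_sub_left] at h1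
  by_contra hcon
  have hcon := not_lt.1 hcon
  have h3 : ‖e i - e (i + 1)‖⁻¹ * (inner ℝ (p (i + 1)) (e i - e (i + 1)) - inner ℝ x (e i - e (i + 1))) ≤ 0 :=
    mul_nonpos_of_nonneg_of_nonpos (inv_nonneg.2 (norm_nonneg _)) (by linarith)
  linarith

/-- Antipodal edge directions force a long trajectory. -/
lemma Traj.anti (h : Traj K n p e) {Δ : ℝ} (hT : Table K Δ) (a b : ℕ) (hab : a < b) (hbn : b < n)
    (hba : e b = - e a) : 4 - 2 * Δ < ∑ i ∈ range n, ‖p (i + 1) - p i‖ := by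
  have hn3 := h.n3
  have harc := arc K p e h.hN
  obtain ⟨x1, hx1, hs1⟩ := hT.sup (e a)
  obtain ⟨x2, hx2, hs2⟩ := hT.sup (-e a)
  have hd := hT.diam x1 hx1 (e a) (h.unit a) hs1 x2 hx2 (-e a) (by rw [norm_neg]; exact h.unit a) hs2
  have hbig : 4 - 2 * Δ ≤ inner ℝ x1 (e a - e b) + inner ℝ x2 (e b - e a) := by
    have h1 : inner ℝ x1 (e a - e b) + inner ℝ x2 (e b - e a)
        = 2 * (2 + inner ℝ ((x1 - e a) - (x2 - -e a)) (e a)) := by
      rw [hba]
      simp only [inner_sub_left, inner_sub_right, inner_neg_right, inner_neg_left]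
      rw [real_inner_self_eq_norm_sq, h.unit a]
      ring
    have h2 : -Δ ≤ inner ℝ ((x1 - e a) - (x2 - -e a)) (e a) := by
      have h3 := abs_real_inner_le_norm ((x1 - e a) - (x2 - -e a)) (e a)
      rw [h.unit a, mul_one] at h3
      exact (abs_le.1 (h3.trans hd)).1
    rw [h1]; linarith
  have hsplit : ∑ i ∈ range n, ‖p (i + 1) - p i‖
      = ∑ i ∈ Ico a b, inner ℝ (p (i + 1)) (e i - e (i + 1))
        + (∑ i ∈ Ico 0 a, inner ℝ (p (i + 1)) (e i - e (i + 1))
          + ∑ i ∈ Ico b n, inner ℝ (p (i + 1)) (e i - e (i + 1))) := by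
    rw [h.len, ← sum_Ico_consecutive _ (Nat.zero_le a) (hab.le.trans hbn.le),
      ← sum_Ico_consecutive _ hab.le hbn.le]
    ring
  have hA1 : inner ℝ x1 (e a - e b) ≤ ∑ i ∈ Ico a b, inner ℝ (p (i + 1)) (e i - e (i + 1)) :=
    harc x1 hx1 a b hab.le
  have h3 : inner ℝ x2 (e b - e a) = inner ℝ x2 (e 0 - e a) + inner ℝ x2 (e b - e 0) := by
    rw [← inner_add_right]; congr 1; abel
  have hB0 := harc x2 hx2 0 a (Nat.zero_le a)
  have hBn := harc x2 hx2 b n hbn.le
  rw [h.en] at hBn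
  by_cases hlong : a + 2 ≤ b
  · have hA2 : inner ℝ x1 (e a - e b) < ∑ i ∈ Ico a b, inner ℝ (p (i + 1)) (e i - e (i + 1)) := by
      rw [← hsumeq e x1 a b hab.le]
      apply sum_lt_sum
      · intro i _; exact h.hN i x1 hx1
      · by_cases hx : x1 = p (a + 1)
        · refine ⟨a + 1, by rw [mem_Ico]; omega, h.strict hT x1 hx1 (a + 1) ?_⟩
          rw [hx]; exact h.ne (a + 1)
        · exact ⟨a, by rw [mem_Ico]; omega, h.strict hT x1 hx1 a hx⟩
    linarith
  · have hba' : b = a + 1 := by omega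
    by_cases ha0 : a = 0
    · have h4 : inner ℝ x2 (e b - e n) < ∑ i ∈ Ico b n, inner ℝ (p (i + 1)) (e i - e (i + 1)) := by
        rw [← hsumeq e x2 b n hbn.le]
        apply sum_lt_sum
        · intro i _; exact h.hN i x2 hx2
        · by_cases hx : x2 = p (b + 1)
          · refine ⟨b + 1, by rw [mem_Ico]; omega, h.strict hT x2 hx2 (b + 1) ?_⟩
            rw [hx]; exact h.ne (b + 1)
          · exact ⟨b, by rw [mem_Ico]; omega, h.strict hT x2 hx2 b hx⟩
      rw [h.en] at h4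
      linarith
    · by_cases hx : x2 = p (0 + 1)
      · have h4 : inner ℝ x2 (e b - e n) < ∑ i ∈ Ico b n, inner ℝ (p (i + 1)) (e i - e (i + 1)) := by
          rw [← hsumeq e x2 b n hbn.le]
          apply sum_lt_sum
          · intro i _; exact h.hN i x2 hx2
          · refine ⟨n - 1, by rw [mem_Ico]; omega, h.strict hT x2 hx2 (n - 1) ?_⟩
            have h5 : n - 1 + 1 = 0 + n := by omega
            rw [h5, h.per, hx]
            exact (h.ne 0).symm
        rw [h.en] at h4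
        linarith
      · have h4 : inner ℝ x2 (e 0 - e a) < ∑ i ∈ Ico 0 a, inner ℝ (p (i + 1)) (e i - e (i + 1)) := by
          rw [← hsumeq e x2 0 a (Nat.zero_le a)]
          apply sum_lt_sum
          · intro i _; exact h.hN i x2 hx2
          · exact ⟨0, by rw [mem_Ico]; omega, h.strict hT x2 hx2 0 hx⟩
        linarith

/-- Planar selection of an antipodal pair or of a triple with positive weights. -/
lemma triple [FiniteDimensional ℝ E] (hfin : Module.finrank ℝ E = 2) (n : ℕ) (hn : 0 < n)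
    (ℓ : ℕ → ℝ) (e : ℕ → E) (hℓ : ∀ i, 0 < ℓ i)
    (he : ∀ i, ‖e i‖ = 1) (hsum : ∑ i ∈ range n, ℓ i • e i = 0) :
    (∃ a b : ℕ, a < b ∧ b < n ∧ e b = - e a) ∨
    (∃ a b c : ℕ, ∃ m1 m2 m3 : ℝ, a < b ∧ b < c ∧ c < n ∧ 0 < m1 ∧ 0 < m2 ∧ 0 < m3 ∧
      m1 + m2 + m3 = 1 ∧ m1 • e a + m2 • e b + m3 • e c = 0 ∧
      e a ≠ e b ∧ e b ≠ e c ∧ e a ≠ e c) := by
  classical
  have hL : 0 < ∑ i ∈ range n, ℓ i := sum_pos (fun i _ => hℓ i) ⟨0, mem_range.2 hn⟩
  have h0 : (0 : E) ∈ convexHull ℝ (e '' {i | i < n}) := by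
    have h1 := (range n).centerMass_mem_convexHull (R := ℝ) (w := ℓ) (z := e)
      (s := e '' {i | i < n}) (fun i _ => (hℓ i).le) hL
      (fun i hi => ⟨i, mem_range.1 hi, rfl⟩)
    rwa [centerMass, hsum, smul_zero] at h1
  obtain ⟨ι, hι, z, w, hz, hai, hw0, hw1, hwz⟩ := eq_pos_convex_span_of_mem_convexHull h0
  have hcard : Fintype.card ι ≤ 3 := by
    have := hai.card_le_finrank_succ
    have h2 : Module.finrank ℝ (vectorSpan ℝ (Set.range z)) ≤ 2 := by
      rw [← hfin]; exact Submodule.finrank_le _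
    omega
  have hinj := hai.injective
  have hidx : ∀ i, ∃ j, j < n ∧ e j = z i := by
    intro i
    obtain ⟨j, hj, hje⟩ := hz ⟨i, rfl⟩
    exact ⟨j, hj, hje⟩
  choose f hf hfe using hidx
  have hfinj : ∀ i j, i ≠ j → f i ≠ f j := by
    intro i j hij h
    apply hij; apply hinj
    rw [← hfe i, ← hfe j, h]
  -- transfer to Fin (card ι)
  obtain ⟨k, hk⟩ : ∃ k, Fintype.card ι = k := ⟨_, rfl⟩
  let φ : ι ≃ Fin k := Fintype.equivFinOfCardEq hk
  have hw1' : ∑ i : Fin k, w (φ.symm i) = 1 := by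
    rw [← hw1]; exact Equiv.sum_comp φ.symm w
  have hwz' : ∑ i : Fin k, w (φ.symm i) • e (f (φ.symm i)) = 0 := by
    simp only [hfe]
    rw [← hwz]; exact Equiv.sum_comp φ.symm (fun i => w i • z i)
  have hd : ∀ i j : Fin k, i ≠ j → f (φ.symm i) ≠ f (φ.symm j) := by
    intro i j hij
    exact hfinj _ _ (fun h => hij (φ.symm.injective h))
  have hde : ∀ i j : Fin k, i ≠ j → e (f (φ.symm i)) ≠ e (f (φ.symm j)) := by
    intro i j hij h
    rw [hfe, hfe] at h
    exact hij (φ.symm.injective (hinj h))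
  have hk3 : k ≤ 3 := by omega
  interval_cases k
  · simp at hw1'
  · simp only [Fin.sum_univ_one] at hw1' hwz'
    rw [hw1', one_smul] at hwz'
    have := he (f (φ.symm 0))
    rw [hwz', norm_zero] at this
    norm_num at this
  · left
    simp only [Fin.sum_univ_two] at hw1' hwz'
    have hd01 := hd 0 1 (by decide)
    have hn0 := hf (φ.symm 0)
    have hn1 := hf (φ.symm 1)
    have w0 := hw0 (φ.symm 0)
    have w1 := hw0 (φ.symm 1)
    generalize f (φ.symm 0) = a at *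
    generalize f (φ.symm 1) = b at *
    generalize w (φ.symm 0) = m1 at *
    generalize w (φ.symm 1) = m2 at *
    have h1 : m1 • e a = -(m2 • e b) := eq_neg_of_add_eq_zero_left hwz'
    have h2 : m1 = m2 := by
      have := congrArg norm h1
      rw [norm_neg, norm_smul, norm_smul, he, he, mul_one, mul_one, Real.norm_eq_abs,
        Real.norm_eq_abs, abs_of_pos w0, abs_of_pos w1] at this
      exact this
    have h3 : e a = - e b := by
      rw [h2, ← smul_neg] at h1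
      exact smul_right_injective E w1.ne' h1
    rcases lt_or_gt_of_ne hd01 with h | h
    · exact ⟨a, b, h, hn1, by rw [h3, neg_neg]⟩
    · exact ⟨b, a, h, hn0, h3⟩
  · right
    simp only [Fin.sum_univ_three] at hw1' hwz'
    have hd01 := hd 0 1 (by decide)
    have hd02 := hd 0 2 (by decide)
    have hd12 := hd 1 2 (by decide)
    have he01 := hde 0 1 (by decide)
    have he02 := hde 0 2 (by decide)
    have he12 := hde 1 2 (by decide)
    have hn0 := hf (φ.symm 0)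
    have hn1 := hf (φ.symm 1)
    have hn2 := hf (φ.symm 2)
    have w0 := hw0 (φ.symm 0)
    have w1 := hw0 (φ.symm 1)
    have w2 := hw0 (φ.symm 2)
    generalize f (φ.symm 0) = a at *
    generalize f (φ.symm 1) = b at *
    generalize f (φ.symm 2) = c at *
    generalize w (φ.symm 0) = m1 at *
    generalize w (φ.symm 1) = m2 at *
    generalize w (φ.symm 2) = m3 at *
    rcases lt_or_gt_of_ne hd01 with h | h <;> rcases lt_or_gt_of_ne hd02 with h' | h' <;>
      rcases lt_or_gt_of_ne hd12 with h'' | h''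
    · exact ⟨a, b, c, m1, m2, m3, h, h'', hn2, w0, w1, w2, by linarith, hwz', he01, he12, he02⟩
    · exact ⟨a, c, b, m1, m3, m2, h', h'', hn1, w0, w2, w1, by linarith, by rw [← hwz']; abel,
        he02, he12.symm, he01⟩
    · omega
    · exact ⟨c, a, b, m3, m1, m2, h', h, hn1, w2, w0, w1, by linarith, by rw [← hwz']; abel,
        he02.symm, he01, he12.symm⟩
    · exact ⟨b, a, c, m2, m1, m3, h, h', hn2, w1, w0, w2, by linarith, by rw [← hwz']; abel,
        he01.symm, he02, he12⟩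
    · omega
    · exact ⟨b, c, a, m2, m3, m1, h'', h', hn0, w1, w2, w0, by linarith, by rw [← hwz']; abel,
        he12, he02.symm, he01.symm⟩
    · exact ⟨c, b, a, m3, m2, m1, h'', h, hn0, w2, w1, w0, by linarith, by rw [← hwz']; abel,
        he12.symm, he01.symm, he02.symm⟩

/-- The planar lower bound. -/
theorem planar [FiniteDimensional ℝ E] (hfin : Module.finrank ℝ E = 2) (Δ : ℝ) (hΔ0 : 0 ≤ Δ)
    (hΔ : Δ ≤ 2 / Real.sqrt 3) (hT : Table K Δ) (x0 : E)
    (hcen : ∀ p ∈ K, ∀ u : E, ‖u‖ = 1 → (∀ x ∈ K, inner ℝ x u ≤ inner ℝ p u) →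
      ‖(p - u) - x0‖ ≤ 1 / Real.sqrt 3)
    (h : Traj K n p e) : 4 - 2 * Δ < ∑ i ∈ range n, ‖p (i + 1) - p i‖ := by
  have hn3 := h.n3
  rcases triple hfin n (by omega) (fun i => ‖p (i + 1) - p i‖) e h.pos h.unit h.sum0 with
    ⟨a, b, hab, hbn, hba⟩ |
    ⟨i, j, k, m1, m2, m3, hij, hjk, hkn, hm1, hm2, hm3, hm, hme, dij, djk, dik⟩
  · exact h.anti hT a b hab hbn hba
  have harc := arc K p e h.hN
  have he0 : ‖e 0‖ = 1 := h.unit 0
  obtain ⟨x1, hx1, u1, hu1, hs1, hi1⟩ := support K Δ hT (e 0) he0 (e i - e j)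
  obtain ⟨x2, hx2, u2, hu2, hs2, hi2⟩ := support K Δ hT (e 0) he0 (e j - e k)
  obtain ⟨x3, hx3, u3, hu3, hs3, hi3⟩ := support K Δ hT (e 0) he0 (e k - e i)
  have hLge : inner ℝ x1 (e i - e j) + inner ℝ x2 (e j - e k) + inner ℝ x3 (e k - e i)
      ≤ ∑ i ∈ range n, ‖p (i + 1) - p i‖ := by
    have h1 := harc x1 hx1 i j hij.le
    have h2 := harc x2 hx2 j k hjk.le
    have h3 := harc x3 hx3 k n hkn.le
    have h4 := harc x3 hx3 0 i (Nat.zero_le i)
    rw [h.en] at h3
    have h5 : inner ℝ x3 (e k - e i) = inner ℝ x3 (e k - e 0) + inner ℝ x3 (e 0 - e i) := by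
      rw [← inner_add_right]; congr 1; abel
    rw [h.len, ← sum_Ico_consecutive _ (Nat.zero_le i) (hij.le.trans (hjk.le.trans hkn.le)),
        ← sum_Ico_consecutive _ hij.le (hjk.le.trans hkn.le), ← sum_Ico_consecutive _ hjk.le hkn.le]
    linarith
  -- inner products of the three unit vectors
  set X : ℝ := 1 - inner ℝ (e i) (e j) with hX
  set Y : ℝ := 1 - inner ℝ (e j) (e k) with hY
  set Z : ℝ := 1 - inner ℝ (e i) (e k) with hZ
  have ui := h.unit i
  have uj := h.unit j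
  have uk := h.unit k
  have si : inner ℝ (e i) (e i) = (1 : ℝ) := by rw [real_inner_self_eq_norm_sq, ui]; norm_num
  have sj : inner ℝ (e j) (e j) = (1 : ℝ) := by rw [real_inner_self_eq_norm_sq, uj]; norm_num
  have sk : inner ℝ (e k) (e k) = (1 : ℝ) := by rw [real_inner_self_eq_norm_sq, uk]; norm_num
  have hX0 : 0 ≤ X := by
    have := real_inner_le_norm (e i) (e j)
    rw [ui, uj] at this; linarith
  have hY0 : 0 ≤ Y := by
    have := real_inner_le_norm (e j) (e k)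
    rw [uj, uk] at this; linarith
  have hZ0 : 0 ≤ Z := by
    have := real_inner_le_norm (e i) (e k)
    rw [ui, uk] at this; linarith
  have r1 : m2 * X + m3 * Z = 1 := by
    have := congrArg (fun v => inner ℝ (e i) v) hme
    simp only [inner_add_right, inner_smul_right, inner_zero_right, si] at this
    rw [hX, hZ]; linarith
  have r2 : m1 * X + m3 * Y = 1 := by
    have := congrArg (fun v => inner ℝ (e j) v) hme
    simp only [inner_add_right, inner_smul_right, inner_zero_right, sj,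
      real_inner_comm (e i) (e j)] at this
    rw [hX, hY]; linarith
  have r3 : m1 * Z + m2 * Y = 1 := by
    have := congrArg (fun v => inner ℝ (e k) v) hme
    simp only [inner_add_right, inner_smul_right, inner_zero_right, sk,
      real_inner_comm (e i) (e k), real_inner_comm (e j) (e k)] at this
    rw [hZ, hY]; linarith
  obtain ⟨g12, g23, g13, hS1, hprod⟩ := rel X Y Z m1 m2 m3 hm1 hm2 hm3 hm r1 r2 r3 hX0 hY0 hZ0
  have na : ‖e i - e j‖ ^ 2 = 2 * X := by rw [norm_sub_sq_real, ui, uj, hX]; ring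
  have nb : ‖e j - e k‖ ^ 2 = 2 * Y := by rw [norm_sub_sq_real, uj, uk, hY]; ring
  have nc : ‖e k - e i‖ ^ 2 = 2 * Z := by
    rw [norm_sub_sq_real, uk, ui, hZ, real_inner_comm (e i) (e k)]; ring
  set A := ‖e i - e j‖ with hA
  set B := ‖e j - e k‖ with hB
  set C := ‖e k - e i‖ with hC
  have hA0 : 0 < A := norm_pos_iff.2 (sub_ne_zero.2 dij)
  have hB0 : 0 < B := norm_pos_iff.2 (sub_ne_zero.2 djk)
  have hC0 : 0 < C := norm_pos_iff.2 (sub_ne_zero.2 dik.symm)
  set s : ℝ := (A + B + C) / 2 with hs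
  set hh : ℝ := A * B * C / 2 with hhh
  have hhpos : 0 < hh := by positivity
  have hheron : 4 * hh ^ 2 = 2 * A ^ 2 * B ^ 2 + 2 * B ^ 2 * C ^ 2 + 2 * C ^ 2 * A ^ 2
      - A ^ 4 - B ^ 4 - C ^ 4 := by
    have e1 : 4 * hh ^ 2 = A ^ 2 * B ^ 2 * C ^ 2 := by rw [hhh]; ring
    have e2 : 2 * A ^ 2 * B ^ 2 + 2 * B ^ 2 * C ^ 2 + 2 * C ^ 2 * A ^ 2 - A ^ 4 - B ^ 4 - C ^ 4
        = 2 * A ^ 2 * B ^ 2 + 2 * B ^ 2 * C ^ 2 + 2 * C ^ 2 * A ^ 2 - (A ^ 2) ^ 2 - (B ^ 2) ^ 2
          - (C ^ 2) ^ 2 := by ring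
    rw [e1, e2, na, nb, nc]
    linear_combination 4 * hprod
  obtain ⟨hstwo, hU⟩ := ubound A B C hh s hA0 hB0 hC0 (by rw [hs]; ring) (by rw [hhh]; ring) hheron
    (by rw [na, nb, nc]; linarith)
  -- the Fermat bound
  obtain ⟨η, hη⟩ : ∃ η : ℝ, η = hh / Real.sqrt 3 := ⟨_, rfl⟩
  have h3 : (0 : ℝ) < Real.sqrt 3 := by positivity
  have h32 : Real.sqrt 3 ^ 2 = 3 := Real.sq_sqrt (by norm_num)
  have hη0 : 0 < η := by rw [hη]; positivity
  have hη3 : 3 * η = Real.sqrt 3 * hh := by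
    rw [hη]; field_simp; rw [h32]
  have hη2 : 3 * η ^ 2 = hh ^ 2 := by
    rw [hη, div_pow, h32]; ring
  have hF := fermat (x1 - u1) (x2 - u2) (x3 - u3) (e i - e j) (e j - e k) (e k - e i) Δ
    (X + Y - Z) (X + Z - Y) (Y + Z - X) η (by abel)
    (hT.diam x1 hx1 u1 hu1 hs1 x2 hx2 u2 hu2 hs2) (hT.diam x1 hx1 u1 hu1 hs1 x3 hx3 u3 hu3 hs3)
    (hT.diam x2 hx2 u2 hu2 hs2 x3 hx3 u3 hu3 hs3)
    (by simp only [inner_sub_left, inner_sub_right, sj]; rw [hX, hY, hZ]; ring)
    (by simp only [inner_sub_left, inner_sub_right, si, real_inner_comm (e i) (e j),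
          real_inner_comm (e j) (e k)]
        rw [hX, hY, hZ]; ring)
    (by simp only [inner_sub_left, inner_sub_right, sk, real_inner_comm (e i) (e j),
          real_inner_comm (e i) (e k)]
        rw [hX, hY, hZ]; ring)
    g12 g13 g23 hη0 (by
      rw [hη2]
      have e1 : 4 * hh ^ 2 = A ^ 2 * B ^ 2 * C ^ 2 := by rw [hhh]; ring
      rw [na, nb, nc] at e1
      linarith)
  set F : ℝ := -(inner ℝ (x1 - u1) (e i - e j) + inner ℝ (x2 - u2) (e j - e k)
    + inner ℝ (x3 - u3) (e k - e i)) with hFdef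
  have hL2 : inner ℝ x1 (e i - e j) + inner ℝ x2 (e j - e k) + inner ℝ x3 (e k - e i)
      = 2 * s - F := by
    rw [hFdef, hs, inner_sub_left, inner_sub_left, inner_sub_left, hi1, hi2, hi3]
    ring
  have hF2 : F ≤ 2 * s / Real.sqrt 3 := by
    have hz : F = -(inner ℝ ((x1 - u1) - x0) (e i - e j) + inner ℝ ((x2 - u2) - x0) (e j - e k)
        + inner ℝ ((x3 - u3) - x0) (e k - e i)) := by
      have h0 : inner ℝ x0 (e i - e j) + inner ℝ x0 (e j - e k) + inner ℝ x0 (e k - e i) = 0 := by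
        rw [← inner_add_right, ← inner_add_right]
        have : e i - e j + (e j - e k) + (e k - e i) = 0 := by abel
        rw [this, inner_zero_right]
      rw [hFdef, inner_sub_left _ x0, inner_sub_left _ x0, inner_sub_left _ x0]
      linarith
    have b1 := (abs_le.1 (abs_real_inner_le_norm ((x1 - u1) - x0) (e i - e j))).1
    have b2 := (abs_le.1 (abs_real_inner_le_norm ((x2 - u2) - x0) (e j - e k))).1
    have b3 := (abs_le.1 (abs_real_inner_le_norm ((x3 - u3) - x0) (e k - e i))).1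
    have d1 := mul_le_mul_of_nonneg_right (hcen x1 hx1 u1 hu1 hs1) hA0.le
    have d2 := mul_le_mul_of_nonneg_right (hcen x2 hx2 u2 hu2 hs2) hB0.le
    have d3 := mul_le_mul_of_nonneg_right (hcen x3 hx3 u3 hu3 hs3) hC0.le
    have e3 : 2 * s / Real.sqrt 3 = 1 / Real.sqrt 3 * A + 1 / Real.sqrt 3 * B + 1 / Real.sqrt 3 * C := by
      rw [hs]; ring
    rw [e3, hz]
    linarith
  have hF1 : F ^ 2 ≤ Δ ^ 2 * ((A ^ 2 + B ^ 2 + C ^ 2) / 2 + Real.sqrt 3 * hh) := by
    have e4 : (A ^ 2 + B ^ 2 + C ^ 2) / 2 + Real.sqrt 3 * hh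
        = X + Y - Z + (X + Z - Y) + (Y + Z - X) + 3 * η := by
      rw [hη3, na, nb, nc]; ring
    rw [e4, hFdef, neg_sq]
    exact hF
  have hfin2 := final s F Δ _ hstwo hΔ0 hΔ hF1 hU hF2
  linarith

end Pool.Agent.Helper717.Planar
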