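import Pool.Agent.Helper717.Core2

set_option autoImplicit false

namespace Pool.Agent.Helper717.Tri

open Finset Pool.Agent.Helper717.Core Pool.Agent.Helper717.BallTable Pool.Agent.Helper717.Core2

variable {E : Type*} [NormedAddCommGroup E] [InnerProductSpace ℝ E]

/-- Weighted Cauchy-Schwarz for three points. -/
lemma wcs (p q y1 y2 : E) (A B C : ℝ) (hA : 0 ≤ A) (hB : 0 ≤ B) (hC : 0 ≤ C)
    (hd : 0 < A * B + A * C + B * C)
    (hone : (B + C) * ‖y1‖ ^ 2 + 2 * C * inner ℝ y1 y2 + (A + C) * ‖y2‖ ^ 2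
      = A * B + A * C + B * C) :
    (inner ℝ p y1 + inner ℝ q y2) ^ 2 ≤ A * ‖p‖ ^ 2 + B * ‖q‖ ^ 2 + C * ‖p - q‖ ^ 2 := by
  set d := A * B + A * C + B * C with hdd
  set f : ℝ := inner ℝ p y1 + inner ℝ q y2 with hf
  set a : E := (d⁻¹ * (B + C)) • y1 + (d⁻¹ * C) • y2 with ha
  set b : E := (d⁻¹ * C) • y1 + (d⁻¹ * (A + C)) • y2 with hb
  have h1 : (A + C) • a - C • b = y1 := by
    have : (A + C) • a - C • b = (d⁻¹ * d) • y1 := by
      rw [ha, hb, hdd]; module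
    rw [this, inv_mul_cancel₀ hd.ne', one_smul]
  have h2 : (B + C) • b - C • a = y2 := by
    have : (B + C) • b - C • a = (d⁻¹ * d) • y2 := by
      rw [ha, hb, hdd]; module
    rw [this, inv_mul_cancel₀ hd.ne', one_smul]
  have h3 : inner ℝ a y1 + inner ℝ b y2 = 1 := by
    rw [ha, hb]
    simp only [inner_add_left, inner_smul_left]
    simp only [real_inner_self_eq_norm_sq, real_inner_comm y1 y2]
    simp only [conj_trivial]
    have e : d⁻¹ * (B + C) * ‖y1‖ ^ 2 + d⁻¹ * C * inner ℝ y1 y2 + (d⁻¹ * C * inner ℝ y1 y2 + d⁻¹ * (A + C) * ‖y2‖ ^ 2)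
        = d⁻¹ * ((B + C) * ‖y1‖ ^ 2 + 2 * C * inner ℝ y1 y2 + (A + C) * ‖y2‖ ^ 2) := by ring
    rw [e, hone, inv_mul_cancel₀ hd.ne']
  have h4 : 0 ≤ A * ‖p - f • a‖ ^ 2 + B * ‖q - f • b‖ ^ 2 + C * ‖(p - q) - f • (a - b)‖ ^ 2 := by
    positivity
  have h5 : A * ‖p - f • a‖ ^ 2 + B * ‖q - f • b‖ ^ 2 + C * ‖(p - q) - f • (a - b)‖ ^ 2
      = A * ‖p‖ ^ 2 + B * ‖q‖ ^ 2 + C * ‖p - q‖ ^ 2
        - 2 * f * (inner ℝ p ((A + C) • a - C • b) + inner ℝ q ((B + C) • b - C • a))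
        + f ^ 2 * (inner ℝ a ((A + C) • a - C • b) + inner ℝ b ((B + C) • b - C • a)) := by
    simp only [norm_sub_sq_real, norm_smul, inner_sub_left, inner_sub_right, inner_smul_right,
      inner_smul_left, real_inner_self_eq_norm_sq, mul_pow, Real.norm_eq_abs, sq_abs,
      real_inner_comm b a]
    ring
  rw [h1, h2, h3, ← hf] at h5
  nlinarith

/-- The three-point bound: `F ≤ Δ U`. -/
lemma fermat (c1 c2 c3 y1 y2 y3 : E) (Δ g12 g13 g23 η : ℝ) (hy : y1 + y2 + y3 = 0)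
    (h12 : ‖c1 - c2‖ ≤ Δ) (h13 : ‖c1 - c3‖ ≤ Δ) (h23 : ‖c2 - c3‖ ≤ Δ)
    (e12 : inner ℝ y1 y2 = - g12) (e13 : inner ℝ y1 y3 = - g13) (e23 : inner ℝ y2 y3 = - g23)
    (p12 : 0 ≤ g12) (p13 : 0 ≤ g13) (p23 : 0 ≤ g23) (hη : 0 < η)
    (hη2 : 3 * η ^ 2 = g12 * g13 + g12 * g23 + g13 * g23) :
    (inner ℝ c1 y1 + inner ℝ c2 y2 + inner ℝ c3 y3) ^ 2
      ≤ Δ ^ 2 * (g12 + g13 + g23 + 3 * η) := by
  have hy3 : y3 = -(y1 + y2) := by rw [← add_eq_zero_iff_eq_neg']; rw [← hy]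
  have n1 : ‖y1‖ ^ 2 = g12 + g13 := by
    have : inner ℝ y1 y3 = - ‖y1‖ ^ 2 - inner ℝ y1 y2 := by
      rw [hy3, inner_neg_right, inner_add_right, real_inner_self_eq_norm_sq]; ring
    linarith
  have n2 : ‖y2‖ ^ 2 = g12 + g23 := by
    have : inner ℝ y2 y3 = - ‖y2‖ ^ 2 - inner ℝ y1 y2 := by
      rw [hy3, inner_neg_right, inner_add_right, real_inner_self_eq_norm_sq, real_inner_comm y1 y2]
      ring
    linarith
  have hf : inner ℝ c1 y1 + inner ℝ c2 y2 + inner ℝ c3 y3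
      = inner ℝ (c1 - c3) y1 + inner ℝ (c2 - c3) y2 := by
    rw [hy3, inner_neg_right, inner_add_right, inner_sub_left, inner_sub_left]; ring
  have h := wcs (c1 - c3) (c2 - c3) y1 y2 (g13 + η) (g23 + η) (g12 + η)
    (by linarith) (by linarith) (by linarith) (by positivity) (by
      rw [n1, n2, e12]
      nlinarith)
  have e : (c1 - c3) - (c2 - c3) = c1 - c2 := by abel
  rw [e] at h
  rw [hf]
  have hΔ : 0 ≤ Δ := (norm_nonneg _).trans h12
  have q12 : ‖c1 - c2‖ ^ 2 ≤ Δ ^ 2 := pow_le_pow_left₀ (norm_nonneg _) h12 2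
  have q13 : ‖c1 - c3‖ ^ 2 ≤ Δ ^ 2 := pow_le_pow_left₀ (norm_nonneg _) h13 2
  have q23 : ‖c2 - c3‖ ^ 2 ≤ Δ ^ 2 := pow_le_pow_left₀ (norm_nonneg _) h23 2
  calc _ ≤ _ := h
    _ ≤ (g13 + η) * Δ ^ 2 + (g23 + η) * Δ ^ 2 + (g12 + η) * Δ ^ 2 := by
        have a1 := mul_le_mul_of_nonneg_left q13 (by linarith : 0 ≤ g13 + η)
        have a2 := mul_le_mul_of_nonneg_left q23 (by linarith : 0 ≤ g23 + η)
        have a3 := mul_le_mul_of_nonneg_left q12 (by linarith : 0 ≤ g12 + η)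
        linarith
    _ = _ := by ring

/-- Relations for three coplanar unit vectors with the origin in their positive hull. -/
lemma rel (X Y Z m1 m2 m3 : ℝ) (hm1 : 0 < m1) (hm2 : 0 < m2) (hm3 : 0 < m3)
    (hs : m1 + m2 + m3 = 1) (r1 : m2 * X + m3 * Z = 1) (r2 : m1 * X + m3 * Y = 1)
    (r3 : m1 * Z + m2 * Y = 1) (hX : 0 ≤ X) (hY : 0 ≤ Y) (hZ : 0 ≤ Z) :
    0 ≤ X + Y - Z ∧ 0 ≤ Y + Z - X ∧ 0 ≤ X + Z - Y ∧ 4 ≤ X + Y + Z ∧
    2 * X * Y * Z = (X + Y - Z) * (Y + Z - X) + (X + Y - Z) * (X + Z - Y)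
      + (Y + Z - X) * (X + Z - Y) := by
  have a1 : 2 * m1 * m2 * X = 1 - 2 * m3 := by linear_combination m1 * r1 + m2 * r2 - m3 * r3 + hs
  have a2 : 2 * m2 * m3 * Y = 1 - 2 * m1 := by linear_combination m2 * r2 + m3 * r3 - m1 * r1 + hs
  have a3 : 2 * m1 * m3 * Z = 1 - 2 * m2 := by linear_combination m1 * r1 + m3 * r3 - m2 * r2 + hs
  have t3 : 0 ≤ 1 - 2 * m3 := by rw [← a1]; positivity
  have t1 : 0 ≤ 1 - 2 * m1 := by rw [← a2]; positivity
  have t2 : 0 ≤ 1 - 2 * m2 := by rw [← a3]; positivity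
  set M := 2 * m1 * m2 * m3 with hM
  have hMpos : 0 < M := by positivity
  have h3 : m3 = 1 - m1 - m2 := by linarith
  have b1 : M * (X + Y - Z) = (1 - 2 * m1) * (1 - 2 * m3) := by
    rw [hM]
    have : 2 * m1 * m2 * m3 * (X + Y - Z) = m3 * (2 * m1 * m2 * X) + m1 * (2 * m2 * m3 * Y)
      - m2 * (2 * m1 * m3 * Z) := by ring
    rw [this, a1, a2, a3, h3]; ring
  have b2 : M * (Y + Z - X) = (1 - 2 * m1) * (1 - 2 * m2) := by
    rw [hM]
    have : 2 * m1 * m2 * m3 * (Y + Z - X) = - (m3 * (2 * m1 * m2 * X)) + m1 * (2 * m2 * m3 * Y)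
      + m2 * (2 * m1 * m3 * Z) := by ring
    rw [this, a1, a2, a3, h3]; ring
  have b3 : M * (X + Z - Y) = (1 - 2 * m3) * (1 - 2 * m2) := by
    rw [hM]
    have : 2 * m1 * m2 * m3 * (X + Z - Y) = (m3 * (2 * m1 * m2 * X)) - m1 * (2 * m2 * m3 * Y)
      + m2 * (2 * m1 * m3 * Z) := by ring
    rw [this, a1, a2, a3, h3]; ring
  have b4 : M * (X + Y + Z - 4) = (1 - 2 * m1) * (1 - 2 * m2) * (1 - 2 * m3) := by
    have : M * (X + Y + Z - 4) = m3 * (2 * m1 * m2 * X) + m1 * (2 * m2 * m3 * Y)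
      + m2 * (2 * m1 * m3 * Z) - 4 * M := by rw [hM]; ring
    rw [this, a1, a2, a3, hM, h3]; ring
  refine ⟨?_, ?_, ?_, ?_, ?_⟩
  · exact nonneg_of_mul_nonneg_right (by rw [b1]; positivity) hMpos
  · exact nonneg_of_mul_nonneg_right (by rw [b2]; positivity) hMpos
  · exact nonneg_of_mul_nonneg_right (by rw [b3]; positivity) hMpos
  · have : 0 ≤ X + Y + Z - 4 := nonneg_of_mul_nonneg_right (by rw [b4]; positivity) hMpos
    linarith
  · have hM2 : M ^ 2 ≠ 0 := by positivity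
    apply mul_left_cancel₀ hM2
    have e1 : M ^ 2 * (2 * X * Y * Z) = (2 * m1 * m2 * X) * (2 * m2 * m3 * Y) * (2 * m1 * m3 * Z) := by
      rw [hM]; ring
    have e2 : M ^ 2 * ((X + Y - Z) * (Y + Z - X) + (X + Y - Z) * (X + Z - Y)
      + (Y + Z - X) * (X + Z - Y)) = (M * (X + Y - Z)) * (M * (Y + Z - X))
      + (M * (X + Y - Z)) * (M * (X + Z - Y)) + (M * (Y + Z - X)) * (M * (X + Z - Y)) := by ring
    rw [e1, e2, a1, a2, a3, b1, b2, b3, h3]; ring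

/-- Reduction to a one-variable bound. -/
lemma ubound (a b c h s : ℝ) (ha : 0 < a) (hb : 0 < b) (hc : 0 < c)
    (hs : 2 * s = a + b + c) (hh : 2 * h = a * b * c)
    (hheron : 4 * h ^ 2 = 2 * a ^ 2 * b ^ 2 + 2 * b ^ 2 * c ^ 2 + 2 * c ^ 2 * a ^ 2
      - a ^ 4 - b ^ 4 - c ^ 4)
    (hS : 8 ≤ a ^ 2 + b ^ 2 + c ^ 2) :
    2 < s ∧ (a ^ 2 + b ^ 2 + c ^ 2) / 2 + Real.sqrt 3 * h
      ≤ 4 + 2 * Real.sqrt 3 * s * (s - 2) := by
  have hs0 : 0 < s := by linarith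
  have hh0 : 0 < h := by
    have : 0 < a * b * c := by positivity
    linarith
  set r := h / (2 * s) with hr
  have hr0 : 0 < r := by positivity
  have hhr : h = 2 * s * r := by rw [hr]; field_simp
  have hc' : c = 2 * s - a - b := by linarith
  -- r ^ 2 s = (s-a)(s-b)(s-c)
  have h1 : s * (r ^ 2 * s - (s - a) * (s - b) * (s - c)) = 0 := by
    have e1 : 4 * h ^ 2 = 16 * (s * (s - a) * (s - b) * (s - c)) := by
      rw [hheron, hc']; ring
    rw [hhr] at e1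
    linear_combination e1 / 16
  have h2 : r ^ 2 * s = (s - a) * (s - b) * (s - c) := by
    rcases mul_eq_zero.1 h1 with h | h
    · exact absurd h hs0.ne'
    · linarith
  have habc : a * b * c = 4 * r * s := by rw [← hh, hhr]; ring
  have h3 : s * (r ^ 2 + s ^ 2 + 4 * r - (a * b + b * c + c * a)) = 0 := by
    have e : (s - a) * (s - b) * (s - c) = s ^ 3 - s ^ 2 * (a + b + c) + s * (a * b + b * c + c * a)
      - a * b * c := by ring
    rw [e, ← hs, habc] at h2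
    linear_combination h2
  have h4 : a * b + b * c + c * a = r ^ 2 + s ^ 2 + 4 * r := by
    rcases mul_eq_zero.1 h3 with h | h
    · exact absurd h hs0.ne'
    · linarith
  have h5 : (a ^ 2 + b ^ 2 + c ^ 2) / 2 = s ^ 2 - 4 * r - r ^ 2 := by
    have : a ^ 2 + b ^ 2 + c ^ 2 = (a + b + c) ^ 2 - 2 * (a * b + b * c + c * a) := by ring
    rw [this, ← hs, h4]; ring
  have h6 : (2 + r) ^ 2 ≤ s ^ 2 := by nlinarith
  have h7 : 2 + r ≤ s := by
    by_contra hcon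
    have hcon : s < 2 + r := not_le.1 hcon
    nlinarith
  refine ⟨by linarith, ?_⟩
  rw [h5, hhr]
  have h8 : (1 : ℝ) ≤ Real.sqrt 3 := by
    rw [Real.one_le_sqrt]; norm_num
  have h9 : 4 + 2 * Real.sqrt 3 * s * (s - 2) - (s ^ 2 - 4 * r - r ^ 2 + Real.sqrt 3 * (2 * s * r))
      = (s - 2 - r) * (2 * Real.sqrt 3 * s - s - 2 - r) := by ring
  have h10 : 0 ≤ (s - 2 - r) * (2 * Real.sqrt 3 * s - s - 2 - r) := by
    have h11 : 1 * s ≤ Real.sqrt 3 * s := mul_le_mul_of_nonneg_right h8 hs0.le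
    apply mul_nonneg (by linarith)
    linarith
  linarith

/-- Final one-variable estimate. -/
lemma final (s F Δ U : ℝ) (hs : 2 < s) (hΔ0 : 0 ≤ Δ) (hΔ : Δ ≤ 2 / Real.sqrt 3)
    (hF1 : F ^ 2 ≤ Δ ^ 2 * U) (hU : U ≤ 4 + 2 * Real.sqrt 3 * s * (s - 2))
    (hF2 : F ≤ 2 * s / Real.sqrt 3) : F < 2 * s - 4 + 2 * Δ := by
  obtain ⟨q, hq⟩ : ∃ q, q = Real.sqrt 3 := ⟨_, rfl⟩
  rw [← hq] at hΔ hU hF2
  have q0 : 0 < q := by rw [hq]; positivity
  have q2 : q ^ 2 = 3 := by rw [hq]; exact Real.sq_sqrt (by norm_num)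
  have qlo : 1.7 < q := by
    by_contra h
    have h : q ≤ 1.7 := not_lt.1 h
    nlinarith
  have qhi : q < 1.8 := by
    by_contra h
    have h : 1.8 ≤ q := not_lt.1 h
    nlinarith
  rw [le_div_iff₀ q0] at hΔ hF2
  by_cases hA : q * Δ ^ 2 * s < 2 * (s - 2) + 4 * Δ
  · by_contra hcon
    have hcon : 2 * s - 4 + 2 * Δ ≤ F := not_lt.1 hcon
    have h1 : (2 * s - 4 + 2 * Δ) ^ 2 ≤ F ^ 2 := pow_le_pow_left₀ (by linarith) hcon 2
    have h2 : Δ ^ 2 * U ≤ Δ ^ 2 * (4 + 2 * q * s * (s - 2)) :=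
      mul_le_mul_of_nonneg_left hU (sq_nonneg _)
    have h3 : (2 * s - 4 + 2 * Δ) ^ 2 - Δ ^ 2 * (4 + 2 * q * s * (s - 2))
        = 2 * (s - 2) * ((2 * (s - 2) + 4 * Δ) - q * Δ ^ 2 * s) := by ring
    have h4 : 0 < 2 * (s - 2) * ((2 * (s - 2) + 4 * Δ) - q * Δ ^ 2 * s) :=
      mul_pos (by linarith) (by linarith)
    linarith
  · have hA : 2 * (s - 2) + 4 * Δ ≤ q * Δ ^ 2 * s := not_lt.1 hA
    -- show s (q - 1) > q (2 - Δ)
    have hkey : q * (2 - Δ) < s * (q - 1) := by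
      by_contra hcon
      have hcon : s * (q - 1) ≤ q * (2 - Δ) := not_lt.1 hcon
      have hB : 4 * (Δ - 1) ≤ s * (q * Δ ^ 2 - 2) := by linarith
      by_cases hC : q * Δ ^ 2 ≤ 2
      · have h1 : s * (q * Δ ^ 2 - 2) ≤ 2 * (q * Δ ^ 2 - 2) := by nlinarith
        have h2 : 4 * Δ ≤ 2 * q * Δ ^ 2 := by linarith
        rcases hΔ0.eq_or_lt with h0 | h0
        · rw [← h0] at hA; nlinarith
        · have h3 : 2 ≤ q * Δ := by
            have : Δ * 4 ≤ Δ * (2 * (q * Δ)) := by nlinarith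
            have := le_of_mul_le_mul_left this h0
            linarith
          have h4 : q * Δ = 2 := le_antisymm (by linarith) h3
          have h5 : q * Δ ^ 2 = 2 * Δ := by
            have : q * Δ ^ 2 = (q * Δ) * Δ := by ring
            rw [this, h4]
          rw [h5] at hC
          nlinarith
      · have hC : 2 < q * Δ ^ 2 := not_le.1 hC
        have h1 : 4 * (Δ - 1) * (q - 1) ≤ (q * (2 - Δ)) * (q * Δ ^ 2 - 2) := by
          have a1 : 4 * (Δ - 1) * (q - 1) ≤ s * (q * Δ ^ 2 - 2) * (q - 1) :=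
            mul_le_mul_of_nonneg_right hB (by linarith)
          have a2 : s * (q - 1) * (q * Δ ^ 2 - 2) ≤ q * (2 - Δ) * (q * Δ ^ 2 - 2) :=
            mul_le_mul_of_nonneg_right hcon (by linarith)
          linarith
        -- f(Δ) = (qΔ - 2) (Δ^2 + (2/q - 2) Δ - 2/q), multiplied by q
        have h2 : 4 * (Δ - 1) * (q - 1) - (q * (2 - Δ)) * (q * Δ ^ 2 - 2)
            = (q * Δ - 2) * (q * Δ ^ 2 + (2 - 2 * q) * Δ - 2) := by
          have q3 : q ^ 2 = 3 := q2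
          linear_combination (0 : ℝ) * q3
        have hΔ1 : 1 < Δ := by
          by_contra h
          have h : Δ ≤ 1 := not_lt.1 h
          have : q * Δ ^ 2 ≤ q * 1 := mul_le_mul_of_nonneg_left (by nlinarith) q0.le
          linarith
        have hneg : q * Δ ^ 2 + (2 - 2 * q) * Δ - 2 < 0 := by
          have : q * Δ ^ 2 ≤ 2 * Δ := by nlinarith
          nlinarith
        rcases hΔ.lt_or_eq with hlt | heq
        · have : 0 < (q * Δ - 2) * (q * Δ ^ 2 + (2 - 2 * q) * Δ - 2) :=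
            mul_pos_of_neg_of_neg (by linarith) hneg
          linarith
        · have h3 : q * (2 - Δ) = 2 * q - 2 := by linarith
          rw [h3] at hcon
          nlinarith
    have h6 : F * q < (2 * s - 4 + 2 * Δ) * q := by nlinarith
    exact lt_of_mul_lt_mul_right h6 q0.le

end Pool.Agent.Helper717.Tri
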